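import Pool.Agent.Lib.MP_1b7159_an.Norms

/-!
# MP_1b7159_an JOB RING: the ring lemma (section 3 of the notes)
-/

set_option autoImplicit false

open Finset

namespace Pool.Agent.MP_1b7159_an

namespace WS

variable (W : WS)

/-- The class `𝒮_i` of sets. -/
def InS (i : ℕ) (S : Finset (Fin W.len)) : Prop :=
  (fun q => if q ∈ S then (1 / 2 : ℝ) ^ i else 0) ∈ W.A

theorem InS.subset {i : ℕ} {S T : Finset (Fin W.len)} (h : W.InS i T) (hST : S ⊆ T) :
    W.InS i S := by
  refine W.solid _ h _ (fun q => ?_) (fun q => ?_)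
  · show (0 : ℝ) ≤ if q ∈ S then (1 / 2 : ℝ) ^ i else 0
    split_ifs <;> positivity
  · show (if q ∈ S then (1 / 2 : ℝ) ^ i else 0) ≤ if q ∈ T then (1 / 2 : ℝ) ^ i else 0
    by_cases hq : q ∈ S
    · rw [if_pos hq, if_pos (hST hq)]
    · rw [if_neg hq]
      split_ifs <;> positivity

theorem InS.mono {i j : ℕ} {S : Finset (Fin W.len)} (h : W.InS i S) (hij : i ≤ j) :
    W.InS j S := by
  refine W.solid _ h _ (fun q => ?_) (fun q => ?_)
  · show (0 : ℝ) ≤ if q ∈ S then (1 / 2 : ℝ) ^ j else 0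
    split_ifs <;> positivity
  · show (if q ∈ S then (1 / 2 : ℝ) ^ j else 0) ≤ if q ∈ S then (1 / 2 : ℝ) ^ i else 0
    split_ifs
    · exact pow_le_pow_of_le_one (by norm_num) (by norm_num) hij
    · exact le_rfl

theorem inS_empty (i : ℕ) : W.InS i ∅ := by
  unfold InS
  convert W.zero_mem using 1
  funext q
  simp

theorem InS.bound {i : ℕ} {S : Finset (Fin W.len)} (h : W.InS i S) (z : Fin W.len → ℝ) :
    ∑ q ∈ S, z q ^ 2 ≤ 2 ^ i * W.nZ z ^ 2 := by
  have h1 := W.sum_le_nZ_sq h z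
  have e : ∑ q, (if q ∈ S then (1 / 2 : ℝ) ^ i else 0) * z q ^ 2
      = (1 / 2 : ℝ) ^ i * ∑ q ∈ S, z q ^ 2 := by
    rw [Finset.mul_sum, ← Finset.sum_filter_add_sum_filter_not Finset.univ (fun q => q ∈ S)]
    rw [Finset.sum_congr (s₂ := S) (by ext; simp) (g := fun q => (1 / 2 : ℝ) ^ i * z q ^ 2)]
    · rw [add_eq_left]
      refine Finset.sum_eq_zero fun q hq => ?_
      rw [Finset.mem_filter] at hq
      rw [if_neg hq.2, zero_mul]
    · intro q hq
      rw [if_pos hq]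
  rw [e] at h1
  have h2 : (2 : ℝ) ^ i * ((1 / 2 : ℝ) ^ i * ∑ q ∈ S, z q ^ 2) = ∑ q ∈ S, z q ^ 2 := by
    rw [← mul_assoc, ← mul_pow]
    norm_num
  rw [← h2]
  exact mul_le_mul_of_nonneg_left h1 (by positivity)

/-- Unions of few sets of `𝒮_i`. -/
theorem inS_union {i N L : ℕ} (hL : L ≤ phi N) (S : Fin L → Finset (Fin W.len))
    (hS : ∀ l, W.InS i (S l)) (hN : ∀ l, ∀ q ∈ S l, N ≤ W.n + (q : ℕ))
    (T : Finset (Fin W.len)) (hT : ∀ q ∈ T, ∃ l, q ∈ S l) : W.InS (i + 1) T := by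
  refine W.half N L hL (fun l q => if q ∈ S l then (1 / 2 : ℝ) ^ i else 0) hS _ (fun q => ?_)
    (fun q hq => ?_)
  · show (0 : ℝ) ≤ if q ∈ T then (1 / 2 : ℝ) ^ (i + 1) else 0
    split_ifs <;> positivity
  · by_cases hqT : q ∈ T
    · obtain ⟨l, hl⟩ := hT q hqT
      refine ⟨hN l q hl, l, ?_⟩
      show (if q ∈ T then (1 / 2 : ℝ) ^ (i + 1) else 0) ≤ (if q ∈ S l then (1 / 2 : ℝ) ^ i else 0) / 2
      rw [if_pos hqT, if_pos hl, pow_succ]
      linarith
    · exact absurd (if_neg hqT) hq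

/-- Hilbert–Schmidt mass of a family on a set. -/
def HS {d : ℕ} (z : Fin d → Fin W.len → ℝ) (S : Finset (Fin W.len)) : ℝ :=
  ∑ m, ∑ q ∈ S, z m q ^ 2

theorem HS_nonneg {d : ℕ} (z : Fin d → Fin W.len → ℝ) (S : Finset (Fin W.len)) :
    0 ≤ W.HS z S :=
  Finset.sum_nonneg fun _ _ => Finset.sum_nonneg fun _ _ => sq_nonneg _

theorem HS_cs {d : ℕ} (z : Fin d → Fin W.len → ℝ) (S : Finset (Fin W.len)) (t : Fin d → ℝ) :
    ∑ q ∈ S, (∑ m, t m * z m q) ^ 2 ≤ (∑ m, t m ^ 2) * W.HS z S := by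
  have h : ∀ q ∈ S, (∑ m, t m * z m q) ^ 2 ≤ (∑ m, t m ^ 2) * ∑ m, z m q ^ 2 := fun q _ =>
    Finset.sum_mul_sq_le_sq_mul_sq _ _ _
  refine (Finset.sum_le_sum h).trans ?_
  rw [← Finset.mul_sum, Finset.sum_comm]
  exact le_rfl

theorem HS_le {d : ℕ} (z : Fin d → Fin W.len → ℝ)
    (hC : ∀ t : Fin d → ℝ, W.nZ (fun i => ∑ m, t m * z m i) ^ 2 ≤ 16 * ∑ m, t m ^ 2)
    {i : ℕ} {S : Finset (Fin W.len)} (hS : W.InS i S) : W.HS z S ≤ 16 * d * 2 ^ i := by
  have h1 : ∀ m, ∑ q ∈ S, z m q ^ 2 ≤ 2 ^ i * 16 := by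
    intro m
    refine (InS.bound W hS (z m)).trans ?_
    refine mul_le_mul_of_nonneg_left ?_ (by positivity)
    have := hC (Pi.single m 1)
    have e1 : (fun i => ∑ m', (Pi.single m (1 : ℝ) : Fin d → ℝ) m' * z m' i) = z m := by
      funext i
      simp [Pi.single_apply]
    have e2 : ∑ m', (Pi.single m (1 : ℝ) : Fin d → ℝ) m' ^ 2 = 1 := by
      simp [Pi.single_apply]
    rw [e1, e2] at this
    linarith
  calc W.HS z S ≤ ∑ _m : Fin d, (2 : ℝ) ^ i * 16 := Finset.sum_le_sum fun m _ => h1 m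
    _ = 16 * d * 2 ^ i := by
      rw [Finset.sum_const, Finset.card_univ, Fintype.card_fin, nsmul_eq_mul]
      ring

/-- Step 1 (greedy choice). -/
theorem exists_star {d : ℕ} (z : Fin d → Fin W.len → ℝ) (p : ℕ) (τ : ℝ) (_hτ : 0 < τ)
    (hsupp : ∀ m i, z m i ≠ 0 → p ≤ W.n + (i : ℕ))
    (hC : ∀ t : Fin d → ℝ, W.nZ (fun i => ∑ m, t m * z m i) ^ 2 ≤ 16 * ∑ m, t m ^ 2)
    (hφ : 32 * (d : ℝ) ≤ τ * phi p) (i : ℕ) :
    ∃ T : Finset (Fin W.len), (∀ q ∈ T, p ≤ W.n + (q : ℕ)) ∧ W.InS (i + 1) T ∧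
      ∀ S, W.InS i S → Disjoint S T → W.HS z S ≤ τ * 2 ^ i := by
  classical
  by_contra hcon
  push Not at hcon
  have key : ∀ L : ℕ, L ≤ phi p → ∃ S : Fin L → Finset (Fin W.len),
      (∀ l, W.InS i (S l)) ∧ (∀ l, ∀ q ∈ S l, p ≤ W.n + (q : ℕ)) ∧
      (∀ l l', l ≠ l' → Disjoint (S l) (S l')) ∧ ∀ l, τ * 2 ^ i < W.HS z (S l) := by
    intro L
    induction L with
    | zero => intro _; exact ⟨fun l => l.elim0, fun l => l.elim0, fun l => l.elim0,
        fun l => l.elim0, fun l => l.elim0⟩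
    | succ L ih =>
      intro hL
      obtain ⟨S, h1, h2, h3, h4⟩ := ih (by omega)
      set T : Finset (Fin W.len) := Finset.univ.biUnion S with hT
      have hTm : ∀ q ∈ T, ∃ l, q ∈ S l := by
        intro q hq
        rw [hT, Finset.mem_biUnion] at hq
        obtain ⟨l, _, hl⟩ := hq
        exact ⟨l, hl⟩
      have hTS : W.InS (i + 1) T := W.inS_union (by omega : L ≤ phi p) S h1 h2 T hTm
      obtain ⟨S', hS', hdis, hbig⟩ := hcon T (fun q hq => by
        obtain ⟨l, hl⟩ := hTm q hq; exact h2 l q hl) hTS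
      set S'' : Finset (Fin W.len) := S'.filter (fun q : Fin W.len => p ≤ W.n + (q : ℕ)) with hS''
      have hHS : W.HS z S'' = W.HS z S' := by
        unfold HS
        refine Finset.sum_congr rfl fun m _ => ?_
        rw [hS'', Finset.sum_filter]
        refine Finset.sum_congr rfl fun q _ => ?_
        by_cases hq : z m q = 0
        · simp [hq]
        · rw [if_pos (hsupp m q hq)]
      refine ⟨Fin.snoc S S'', ?_, ?_, ?_, ?_⟩
      · intro l
        refine Fin.lastCases ?_ (fun l => ?_) l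
        · rw [Fin.snoc_last]
          exact InS.subset W hS' (Finset.filter_subset _ _)
        · rw [Fin.snoc_castSucc]
          exact h1 l
      · intro l
        refine Fin.lastCases ?_ (fun l => ?_) l
        · rw [Fin.snoc_last]
          intro q hq
          exact (Finset.mem_filter.1 hq).2
        · rw [Fin.snoc_castSucc]
          exact h2 l
      · have hd' : ∀ l, Disjoint (S l) S'' := by
          intro l
          refine Finset.disjoint_left.2 fun q hq hq' => ?_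
          have hq'' := (Finset.mem_filter.1 hq').1
          exact (Finset.disjoint_left.1 hdis) hq'' (Finset.mem_biUnion.2 ⟨l, Finset.mem_univ _, hq⟩)
        intro l l'
        refine Fin.lastCases ?_ (fun l => ?_) l
        · refine Fin.lastCases ?_ (fun l' => ?_) l'
          · intro h; exact absurd rfl h
          · intro _
            rw [Fin.snoc_last, Fin.snoc_castSucc]
            exact (hd' l').symm
        · refine Fin.lastCases ?_ (fun l' => ?_) l'
          · intro _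
            rw [Fin.snoc_last, Fin.snoc_castSucc]
            exact hd' l
          · intro h
            rw [Fin.snoc_castSucc, Fin.snoc_castSucc]
            exact h3 l l' (fun h' => h (by rw [h']))
      · intro l
        refine Fin.lastCases ?_ (fun l => ?_) l
        · rw [Fin.snoc_last, hHS]
          exact hbig
        · rw [Fin.snoc_castSucc]
          exact h4 l
  obtain ⟨S, h1, h2, h3, h4⟩ := key (phi p) le_rfl
  set T : Finset (Fin W.len) := Finset.univ.biUnion S with hT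
  have hTS : W.InS (i + 1) T := W.inS_union le_rfl S h1 h2 T (fun q hq => by
    rw [hT, Finset.mem_biUnion] at hq
    obtain ⟨l, _, hl⟩ := hq
    exact ⟨l, hl⟩)
  have h5 := W.HS_le z hC hTS
  have h6 : W.HS z T = ∑ l, W.HS z (S l) := by
    unfold HS
    symm
    rw [Finset.sum_comm]
    refine Finset.sum_congr rfl fun m _ => ?_
    rw [hT, Finset.sum_biUnion]
    intro l _ l' _ hll'
    exact h3 l l' hll'
  have h7 : (phi p : ℝ) * (τ * 2 ^ i) < W.HS z T := by
    rw [h6]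
    calc (phi p : ℝ) * (τ * 2 ^ i) = ∑ _l : Fin (phi p), τ * 2 ^ i := by
          rw [Finset.sum_const, Finset.card_univ, Fintype.card_fin, nsmul_eq_mul]
      _ < ∑ l, W.HS z (S l) := by
          refine Finset.sum_lt_sum_of_nonempty ?_ fun l _ => h4 l
          exact ⟨⟨0, phi_pos p⟩, Finset.mem_univ _⟩
  have h8 : (2 : ℝ) ^ (i + 1) = 2 * 2 ^ i := by ring
  rw [h8] at h5
  have h9 : (0 : ℝ) < 2 ^ i := by positivity
  nlinarith

theorem exists_level (x : ℝ) (hx : x ≤ 1) (K : ℕ) (h : (1 / 2 : ℝ) ^ K < x) :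
    ∃ i < K, (1 / 2 : ℝ) ^ (i + 1) < x ∧ x ≤ (1 / 2 : ℝ) ^ i := by
  induction K with
  | zero => rw [pow_zero] at h; linarith
  | succ K ih =>
    by_cases h' : (1 / 2 : ℝ) ^ K < x
    · obtain ⟨i, hi, hi'⟩ := ih h'
      exact ⟨i, by omega, hi'⟩
    · exact ⟨K, by omega, h, by linarith⟩

theorem geom_tail (k l : ℕ) (P : ℕ → Prop) [DecidablePred P] (hP : ∀ i, P i → l ≤ i) :
    ∑ i ∈ Finset.range k, (if P i then (1 / 2 : ℝ) ^ i else 0) ≤ 2 * (1 / 2 : ℝ) ^ l := by
  have h1 : ∑ i ∈ Finset.range k, (if P i then (1 / 2 : ℝ) ^ i else 0)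
      ≤ ∑ i ∈ Finset.range k, (if l ≤ i then (1 / 2 : ℝ) ^ i else 0) := by
    refine Finset.sum_le_sum fun i _ => ?_
    by_cases h : P i
    · rw [if_pos h, if_pos (hP i h)]
    · rw [if_neg h]
      split_ifs <;> positivity
  refine h1.trans ?_
  have h2 : ∀ k : ℕ, ∑ i ∈ Finset.range k, (if l ≤ i then (1 / 2 : ℝ) ^ i else 0)
      ≤ 2 * (1 / 2 : ℝ) ^ l - (if l ≤ k then 2 * (1 / 2 : ℝ) ^ k else 0) := by
    intro k
    induction k with
    | zero =>
      rw [Finset.sum_range_zero]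
      by_cases h : l ≤ 0
      · have : l = 0 := by omega
        subst this
        simp
      · rw [if_neg h]
        have : (0 : ℝ) < (1 / 2 : ℝ) ^ l := by positivity
        linarith
    | succ k ih =>
      rw [Finset.sum_range_succ]
      by_cases h : l ≤ k
      · rw [if_pos h] at ih ⊢
        rw [if_pos (by omega : l ≤ k + 1), pow_succ]
        linarith
      · rw [if_neg h] at ih ⊢
        by_cases h' : l ≤ k + 1
        · have : l = k + 1 := by omega
          subst this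
          rw [if_pos le_rfl]
          have h0 : ∑ i ∈ Finset.range k, (if k + 1 ≤ i then (1 / 2 : ℝ) ^ i else 0) = 0 := by
            refine Finset.sum_eq_zero fun i hi => ?_
            rw [if_neg]
            have := Finset.mem_range.1 hi
            omega
          rw [h0]
          simp
        · rw [if_neg h']
          linarith
  refine (h2 k).trans ?_
  have : (0 : ℝ) ≤ (if l ≤ k then 2 * (1 / 2 : ℝ) ^ k else 0) := by
    split_ifs <;> positivity
  linarith

/-- (RL), section 3 of the notes. `z r m` are the vectors `A_r e_m`. -/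
theorem ring_lemma (k : ℕ) (hk : ∀ z : Fin W.len → ℝ, ∑ i, z i ^ 2 ≤ 2 ^ k * W.nZ z ^ 2)
    (R : ℕ) (d : Fin R → ℕ) (p : Fin R → ℕ) (z : ∀ r : Fin R, Fin (d r) → Fin W.len → ℝ)
    (hsupp : ∀ r m i, z r m i ≠ 0 → p r ≤ W.n + (i : ℕ))
    (hC : ∀ r (t : Fin (d r) → ℝ),
      W.nZ (fun i => ∑ m, t m * z r m i) ^ 2 ≤ 16 * ∑ m, t m ^ 2)
    (h1 : ∀ r, 32 * d r * (k + 1) * 2 ^ ((r : ℕ) + 1) ≤ phi (p r))
    (h2 : ∀ r, k + 3 ≤ phi (p r)) :
    ∃ S : Fin R → ℕ → Finset (Fin W.len),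
      ∀ t : ∀ r : Fin R, Fin (d r) → ℝ,
        (∀ i ≤ k, ∀ r r' : Fin R, r < r' →
          ∑ q ∈ S r i ∩ S r' i, (∑ m, t r m * z r m q) * (∑ m, t r' m * z r' m q) = 0) →
        W.nZ (fun q => ∑ r, ∑ m, t r m * z r m q) ^ 2 ≤ 2072 * ∑ r, ∑ m, t r m ^ 2 := by
  classical
  have hk0 : (0 : ℝ) < (k : ℝ) + 1 := by positivity
  set τ : Fin R → ℝ := fun r => 1 / (((k : ℝ) + 1) * 2 ^ ((r : ℕ) + 1)) with hτ
  have hτpos : ∀ r, 0 < τ r := fun r => by
    rw [hτ]
    show 0 < 1 / (((k : ℝ) + 1) * 2 ^ ((r : ℕ) + 1))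
    positivity
  have hτsum : ∑ r, τ r ≤ 1 / ((k : ℝ) + 1) := by
    have hgeo : ∀ R : ℕ, ∑ r : Fin R, (1 / 2 : ℝ) ^ ((r : ℕ) + 1) = 1 - (1 / 2 : ℝ) ^ R := by
      intro R
      induction R with
      | zero => simp
      | succ R ih =>
        rw [Fin.sum_univ_castSucc]
        simp only [Fin.val_castSucc, Fin.val_last]
        rw [ih, pow_succ]
        ring
    have e : ∀ r, τ r = 1 / ((k : ℝ) + 1) * (1 / 2 : ℝ) ^ ((r : ℕ) + 1) := by
      intro r
      rw [hτ]
      show 1 / (((k : ℝ) + 1) * 2 ^ ((r : ℕ) + 1)) = _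
      rw [one_div_pow]
      field_simp
    rw [Finset.sum_congr rfl fun r _ => e r, ← Finset.mul_sum, hgeo]
    have h3 : (0 : ℝ) < (1 / 2 : ℝ) ^ R := by positivity
    have h4 : (0 : ℝ) < 1 / ((k : ℝ) + 1) := by positivity
    nlinarith
  have hstar : ∀ r i, ∃ T : Finset (Fin W.len), (∀ q ∈ T, p r ≤ W.n + (q : ℕ)) ∧
      W.InS (i + 1) T ∧ ∀ S, W.InS i S → Disjoint S T → W.HS (z r) S ≤ τ r * 2 ^ i := by
    intro r i
    refine W.exists_star (z r) (p r) (τ r) (hτpos r) (hsupp r) (hC r) ?_ i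
    have h3 : (32 * d r * (k + 1) * 2 ^ ((r : ℕ) + 1) : ℝ) ≤ phi (p r) := by
      exact_mod_cast h1 r
    have h4 : τ r * (((k : ℝ) + 1) * 2 ^ ((r : ℕ) + 1)) = 1 := by
      rw [hτ]
      show 1 / (((k : ℝ) + 1) * 2 ^ ((r : ℕ) + 1)) * (((k : ℝ) + 1) * 2 ^ ((r : ℕ) + 1)) = 1
      field_simp
    calc 32 * (d r : ℝ) = τ r * (32 * d r * (k + 1) * 2 ^ ((r : ℕ) + 1)) := by
          linear_combination (-32 * (d r : ℝ)) * h4
      _ ≤ τ r * phi (p r) := mul_le_mul_of_nonneg_left h3 (hτpos r).le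
  choose T hT1 hT2 hT3 using hstar
  refine ⟨fun r i => T r (i + 1), fun t hort => ?_⟩
  set Z : Fin R → Fin W.len → ℝ := fun r q => ∑ m, t r m * z r m q with hZ
  set b : Fin R → ℝ := fun r => ∑ m, t r m ^ 2 with hb
  have hb0 : ∀ r, 0 ≤ b r := fun r => Finset.sum_nonneg fun _ _ => sq_nonneg _
  show W.nZ (fun q => ∑ r, Z r q) ^ 2 ≤ 2072 * ∑ r, b r
  have hort' : ∀ i ≤ k, ∀ r r' : Fin R, r < r' →
      ∑ q ∈ T r (i + 1) ∩ T r' (i + 1), Z r q * Z r' q = 0 := hort
  have hCZ : ∀ r, W.nZ (Z r) ^ 2 ≤ 16 * b r := fun r => hC r (t r)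
  -- the `y`-part
  have hy : ∀ r, ∑ i ∈ Finset.range (k + 1), (1 / 2 : ℝ) ^ i * ∑ q ∈ T r (i + 1), Z r q ^ 2
      ≤ 256 * b r := by
    intro r
    set β : Fin W.len → ℝ := fun q => (1 / 16) *
      ∑ i ∈ Finset.range (k + 1), (if q ∈ T r (i + 1) then (1 / 2 : ℝ) ^ i else 0) with hβ
    have hβA : β ∈ W.A := by
      refine W.half (p r) (k + 1) (by have := h2 r; omega)
        (fun l q => if q ∈ T r ((l : ℕ) + 1) then (1 / 2 : ℝ) ^ ((l : ℕ) + 1 + 1) else 0)
        (fun l => hT2 r ((l : ℕ) + 1)) β (fun q => ?_) (fun q hq => ?_)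
      · refine mul_nonneg (by norm_num) (Finset.sum_nonneg fun i _ => ?_)
        split_ifs <;> positivity
      · have hex : ∃ l, l < k + 1 ∧ q ∈ T r (l + 1) := by
          by_contra hcon
          push Not at hcon
          apply hq
          show (1 / 16 : ℝ) * _ = 0
          rw [Finset.sum_eq_zero, mul_zero]
          intro i hi
          exact if_neg (hcon i (Finset.mem_range.1 hi))
        obtain ⟨hl1, hl2⟩ := Nat.find_spec hex
        have hmin : ∀ i, i < k + 1 → q ∈ T r (i + 1) → Nat.find hex ≤ i := fun i hi hi' =>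
          Nat.find_min' hex ⟨hi, hi'⟩
        generalize Nat.find hex = l at hl1 hl2 hmin
        refine ⟨hT1 r _ q hl2, ⟨l, hl1⟩, ?_⟩
        show (1 / 16) * ∑ i ∈ Finset.range (k + 1),
            (if q ∈ T r (i + 1) then (1 / 2 : ℝ) ^ i else 0)
          ≤ (if q ∈ T r (l + 1) then (1 / 2 : ℝ) ^ (l + 1 + 1) else 0) / 2
        rw [if_pos hl2]
        have e : ∑ i ∈ Finset.range (k + 1), (if q ∈ T r (i + 1) then (1 / 2 : ℝ) ^ i else 0)
            = ∑ i ∈ Finset.range (k + 1),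
              (if (i < k + 1 ∧ q ∈ T r (i + 1)) then (1 / 2 : ℝ) ^ i else 0) := by
          refine Finset.sum_congr rfl fun i hi => ?_
          have := Finset.mem_range.1 hi
          simp only [this, true_and]
        rw [e]
        have := geom_tail (k + 1) l (fun i => i < k + 1 ∧ q ∈ T r (i + 1))
          (fun i hi => hmin i hi.1 hi.2)
        calc (1 / 16) * _ ≤ (1 / 16) * (2 * (1 / 2 : ℝ) ^ l) :=
              mul_le_mul_of_nonneg_left this (by norm_num)
          _ = (1 / 2 : ℝ) ^ (l + 1 + 1) / 2 := by ring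
    have h3 := W.sum_le_nZ_sq hβA (Z r)
    have h4 : ∑ q, β q * Z r q ^ 2
        = (1 / 16) * ∑ i ∈ Finset.range (k + 1),
            (1 / 2 : ℝ) ^ i * ∑ q ∈ T r (i + 1), Z r q ^ 2 := by
      have e1 : ∀ q, β q * Z r q ^ 2 = (1 / 16) * ∑ i ∈ Finset.range (k + 1),
          (if q ∈ T r (i + 1) then (1 / 2 : ℝ) ^ i * Z r q ^ 2 else 0) := by
        intro q
        show (1 / 16) * (∑ i ∈ Finset.range (k + 1),
          (if q ∈ T r (i + 1) then (1 / 2 : ℝ) ^ i else 0)) * Z r q ^ 2 = _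
        rw [mul_assoc, Finset.sum_mul]
        congr 1
        refine Finset.sum_congr rfl fun i _ => ?_
        split_ifs
        · rfl
        · rw [zero_mul]
      rw [Finset.sum_congr rfl fun q _ => e1 q, ← Finset.mul_sum, Finset.sum_comm]
      congr 1
      refine Finset.sum_congr rfl fun i _ => ?_
      rw [Finset.mul_sum, ← Finset.sum_filter]
      refine Finset.sum_congr ?_ fun q _ => rfl
      ext q; simp
    have h5 := hCZ r
    rw [h4] at h3
    linarith
  -- the `x`-part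
  have hx : ∀ r i (S : Finset (Fin W.len)), W.InS (i + 1) S →
      ∑ q ∈ S \ T r (i + 1), Z r q ^ 2 ≤ τ r * 2 ^ (i + 1) * b r := by
    intro r i S hS
    have h3 := hT3 r (i + 1) (S \ T r (i + 1)) (InS.subset W hS Finset.sdiff_subset)
      Finset.sdiff_disjoint
    have h4 := W.HS_cs (z r) (S \ T r (i + 1)) (t r)
    have h5 := mul_le_mul_of_nonneg_left h3 (hb0 r)
    calc ∑ q ∈ S \ T r (i + 1), Z r q ^ 2 ≤ b r * W.HS (z r) (S \ T r (i + 1)) := h4
      _ ≤ b r * (τ r * 2 ^ (i + 1)) := h5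
      _ = _ := by ring
  set B : ℝ := ∑ r, b r with hB
  have hB0 : 0 ≤ B := Finset.sum_nonneg fun r _ => hb0 r
  obtain ⟨a, ha, hae⟩ := W.exists_eq_nZ_sq (fun q => ∑ r, Z r q)
  set N2 : ℝ := W.nZ (fun q => ∑ r, Z r q) ^ 2 with hN2
  set S : ℕ → Finset (Fin W.len) := fun i =>
    Finset.univ.filter (fun q => (1 / 2 : ℝ) ^ (i + 1) < a q ∧ a q ≤ (1 / 2 : ℝ) ^ i) with hS
  have hSin : ∀ i, W.InS (i + 1) (S i) := by
    intro i
    refine W.solid _ ha _ (fun q => ?_) (fun q => ?_)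
    · show (0 : ℝ) ≤ if q ∈ S i then (1 / 2 : ℝ) ^ (i + 1) else 0
      split_ifs <;> positivity
    · show (if q ∈ S i then (1 / 2 : ℝ) ^ (i + 1) else 0) ≤ a q
      split_ifs with hq
      · exact ((Finset.mem_filter.1 hq).2.1).le
      · exact W.nonneg a ha q
  -- splitting at one level
  have hlev : ∀ i ∈ Finset.range (k + 1), (1 / 2 : ℝ) ^ i * ∑ q ∈ S i, (∑ r, Z r q) ^ 2
      ≤ 4 * B / (k + 1) + 2 * ∑ r, (1 / 2 : ℝ) ^ i * ∑ q ∈ T r (i + 1), Z r q ^ 2 := by
    intro i hi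
    have hik : i ≤ k := by have := Finset.mem_range.1 hi; omega
    set y : Fin R → Fin W.len → ℝ := fun r q => if q ∈ T r (i + 1) then Z r q else 0 with hydef
    set x : Fin R → Fin W.len → ℝ := fun r q => if q ∈ T r (i + 1) then 0 else Z r q with hxdef
    have hsplit : ∀ q, ∑ r, Z r q = ∑ r, x r q + ∑ r, y r q := by
      intro q
      rw [← Finset.sum_add_distrib]
      refine Finset.sum_congr rfl fun r _ => ?_
      show Z r q = (if q ∈ T r (i + 1) then 0 else Z r q) + (if q ∈ T r (i + 1) then Z r q else 0)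
      split_ifs <;> ring
    have e1 : ∑ q ∈ S i, (∑ r, Z r q) ^ 2
        ≤ 2 * ∑ q ∈ S i, (∑ r, x r q) ^ 2 + 2 * ∑ q ∈ S i, (∑ r, y r q) ^ 2 := by
      rw [Finset.mul_sum, Finset.mul_sum, ← Finset.sum_add_distrib]
      refine Finset.sum_le_sum fun q _ => ?_
      rw [hsplit q]
      nlinarith [sq_nonneg (∑ r, x r q - ∑ r, y r q)]
    have e2 : ∑ q ∈ S i, (∑ r, x r q) ^ 2 ≤ 1 / ((k : ℝ) + 1) * (2 ^ (i + 1) * B) := by
      have f1 : ∀ q, (∑ r, x r q) ^ 2 ≤ (1 / ((k : ℝ) + 1)) * ∑ r, (1 / τ r) * x r q ^ 2 := by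
        intro q
        have g1 : (∑ r, x r q) ^ 2 ≤ (∑ r, τ r) * ∑ r, (1 / τ r) * x r q ^ 2 := by
          refine Finset.sum_sq_le_sum_mul_sum_of_sq_le_mul _ (fun r _ => (hτpos r).le)
            (fun r _ => ?_) (fun r _ => le_of_eq ?_)
          · have := hτpos r
            positivity
          · have := (hτpos r).ne'
            field_simp
        refine g1.trans (mul_le_mul_of_nonneg_right hτsum ?_)
        refine Finset.sum_nonneg fun r _ => ?_
        have := hτpos r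
        positivity
      refine (Finset.sum_le_sum fun q _ => f1 q).trans ?_
      rw [← Finset.mul_sum]
      refine mul_le_mul_of_nonneg_left ?_ (by positivity)
      rw [Finset.sum_comm, hB, Finset.mul_sum]
      refine Finset.sum_le_sum fun r _ => ?_
      rw [← Finset.mul_sum]
      have f2 : ∑ q ∈ S i, x r q ^ 2 = ∑ q ∈ S i \ T r (i + 1), Z r q ^ 2 := by
        rw [Finset.sdiff_eq_filter]
        conv_rhs => rw [Finset.sum_filter]
        refine Finset.sum_congr rfl fun q _ => ?_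
        show (if q ∈ T r (i + 1) then 0 else Z r q) ^ 2 = _
        by_cases hq : q ∈ T r (i + 1)
        · simp [hq]
        · simp [hq]
      rw [f2]
      have f3 := hx r i (S i) (hSin i)
      have f4 := hτpos r
      calc 1 / τ r * ∑ q ∈ S i \ T r (i + 1), Z r q ^ 2
          ≤ 1 / τ r * (τ r * 2 ^ (i + 1) * b r) := mul_le_mul_of_nonneg_left f3 (by positivity)
        _ = 2 ^ (i + 1) * b r := by field_simp
    have e3 : ∑ q ∈ S i, (∑ r, y r q) ^ 2 ≤ ∑ r, ∑ q ∈ T r (i + 1), Z r q ^ 2 := by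
      have g1 : ∑ q ∈ S i, (∑ r, y r q) ^ 2 ≤ ∑ q, (∑ r, y r q) ^ 2 :=
        Finset.sum_le_sum_of_subset_of_nonneg (Finset.subset_univ _) fun _ _ _ => sq_nonneg _
      refine g1.trans (le_of_eq ?_)
      have g2 : ∀ q, (∑ r, y r q) ^ 2 = ∑ r, ∑ r', y r q * y r' q := by
        intro q
        rw [sq, Finset.sum_mul_sum]
      rw [Finset.sum_congr rfl fun q _ => g2 q, Finset.sum_comm]
      refine Finset.sum_congr rfl fun r _ => ?_
      rw [Finset.sum_comm]
      have g3 : ∀ r r' : Fin R, ∑ q, y r q * y r' q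
          = ∑ q ∈ T r (i + 1) ∩ T r' (i + 1), Z r q * Z r' q := by
        intro r r'
        rw [← Finset.sum_filter_add_sum_filter_not Finset.univ
          (fun q => q ∈ T r (i + 1) ∩ T r' (i + 1))]
        rw [Finset.sum_congr (s₂ := T r (i + 1) ∩ T r' (i + 1)) (by ext; simp)
          (g := fun q => Z r q * Z r' q)]
        · rw [add_eq_left]
          refine Finset.sum_eq_zero fun q hq => ?_
          have hq' := (Finset.mem_filter.1 hq).2
          rw [Finset.mem_inter, not_and_or] at hq'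
          show (if q ∈ T r (i + 1) then Z r q else 0) * (if q ∈ T r' (i + 1) then Z r' q else 0) = 0
          rcases hq' with h | h
          · rw [if_neg h, zero_mul]
          · rw [if_neg h, mul_zero]
        · intro q hq
          rw [Finset.mem_inter] at hq
          show (if q ∈ T r (i + 1) then Z r q else 0) * (if q ∈ T r' (i + 1) then Z r' q else 0) = _
          rw [if_pos hq.1, if_pos hq.2]
      rw [Finset.sum_eq_single r]
      · rw [g3, Finset.inter_self]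
        refine Finset.sum_congr rfl fun q _ => ?_
        ring
      · intro r' _ hr'
        rw [g3]
        rcases lt_or_gt_of_ne hr' with h | h
        · rw [← hort' i hik r' r h, Finset.inter_comm]
          refine Finset.sum_congr rfl fun q _ => ?_
          ring
        · exact hort' i hik r r' h
      · simp
    have hp : (0 : ℝ) < (1 / 2 : ℝ) ^ i := by positivity
    have hpp : (1 / 2 : ℝ) ^ i * 2 ^ (i + 1) = 2 := by
      rw [pow_succ, ← mul_assoc, ← mul_pow]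
      norm_num
    calc (1 / 2 : ℝ) ^ i * ∑ q ∈ S i, (∑ r, Z r q) ^ 2
        ≤ (1 / 2 : ℝ) ^ i * (2 * (1 / ((k : ℝ) + 1) * (2 ^ (i + 1) * B))
            + 2 * ∑ r, ∑ q ∈ T r (i + 1), Z r q ^ 2) := by
          refine mul_le_mul_of_nonneg_left ?_ hp.le
          linarith
      _ = 4 * B / (k + 1) + 2 * ∑ r, (1 / 2 : ℝ) ^ i * ∑ q ∈ T r (i + 1), Z r q ^ 2 := by
          rw [← Finset.mul_sum]
          have : (1 / 2 : ℝ) ^ i * (2 * (1 / ((k : ℝ) + 1) * (2 ^ (i + 1) * B)))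
              = 4 * B / (k + 1) := by
            calc (1 / 2 : ℝ) ^ i * (2 * (1 / ((k : ℝ) + 1) * (2 ^ (i + 1) * B)))
                = ((1 / 2 : ℝ) ^ i * 2 ^ (i + 1)) * (2 * (1 / ((k : ℝ) + 1)) * B) := by ring
              _ = 4 * B / (k + 1) := by rw [hpp]; ring
          rw [mul_add, this]
          ring
  have hX : ∑ i ∈ Finset.range (k + 1), (1 / 2 : ℝ) ^ i * ∑ q ∈ S i, (∑ r, Z r q) ^ 2
      ≤ 516 * B := by
    refine (Finset.sum_le_sum hlev).trans ?_
    rw [Finset.sum_add_distrib, Finset.sum_const, Finset.card_range, nsmul_eq_mul,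
      ← Finset.mul_sum, Finset.sum_comm]
    have h3 : ∑ r, ∑ i ∈ Finset.range (k + 1), (1 / 2 : ℝ) ^ i * ∑ q ∈ T r (i + 1), Z r q ^ 2
        ≤ 256 * B := by
      rw [hB, Finset.mul_sum]
      exact Finset.sum_le_sum fun r _ => hy r
    have h4 : ((k + 1 : ℕ) : ℝ) * (4 * B / (k + 1)) = 4 * B := by
      push_cast
      field_simp
    rw [h4]
    linarith
  have hmain : N2 ≤ ∑ i ∈ Finset.range (k + 1), (1 / 2 : ℝ) ^ i * ∑ q ∈ S i, (∑ r, Z r q) ^ 2
      + (1 / 2 : ℝ) ^ (k + 1) * ∑ q, (∑ r, Z r q) ^ 2 := by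
    rw [← hae]
    have e : ∑ i ∈ Finset.range (k + 1), (1 / 2 : ℝ) ^ i * ∑ q ∈ S i, (∑ r, Z r q) ^ 2
        = ∑ q, ∑ i ∈ Finset.range (k + 1),
          (if q ∈ S i then (1 / 2 : ℝ) ^ i * (∑ r, Z r q) ^ 2 else 0) := by
      rw [Finset.sum_comm]
      refine Finset.sum_congr rfl fun i _ => ?_
      rw [Finset.mul_sum, ← Finset.sum_filter]
      refine Finset.sum_congr ?_ fun q _ => rfl
      ext q; simp
    rw [e, Finset.mul_sum, ← Finset.sum_add_distrib]
    refine Finset.sum_le_sum fun q _ => ?_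
    have hsq : 0 ≤ (∑ r, Z r q) ^ 2 := sq_nonneg _
    have hnn : ∀ i ∈ Finset.range (k + 1),
        (0 : ℝ) ≤ (if q ∈ S i then (1 / 2 : ℝ) ^ i * (∑ r, Z r q) ^ 2 else 0) := by
      intro i _
      split_ifs <;> positivity
    by_cases hq : (1 / 2 : ℝ) ^ (k + 1) < a q
    · obtain ⟨i, hi, hi'⟩ := exists_level (a q) (W.le_one a ha q) (k + 1) hq
      have h3 := Finset.single_le_sum hnn (Finset.mem_range.2 hi)
      have h4 : q ∈ S i := Finset.mem_filter.2 ⟨Finset.mem_univ _, hi'⟩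
      rw [if_pos h4] at h3
      have h5 := mul_le_mul_of_nonneg_right hi'.2 hsq
      have h6 : 0 ≤ (1 / 2 : ℝ) ^ (k + 1) * (∑ r, Z r q) ^ 2 := by positivity
      linarith
    · have h3 := Finset.sum_nonneg hnn
      have h4 := mul_le_mul_of_nonneg_right (not_lt.1 hq) hsq
      linarith
  have hlast : (1 / 2 : ℝ) ^ (k + 1) * ∑ q, (∑ r, Z r q) ^ 2 ≤ (1 / 2) * N2 := by
    have h3 := hk (fun q => ∑ r, Z r q)
    have h4 := mul_le_mul_of_nonneg_left h3 (by positivity : (0 : ℝ) ≤ (1 / 2 : ℝ) ^ (k + 1))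
    refine h4.trans (le_of_eq ?_)
    have h5 : (1 / 2 : ℝ) ^ (k + 1) * 2 ^ k = 1 / 2 := by
      rw [pow_succ, mul_right_comm, ← mul_pow]
      norm_num
    calc (1 / 2 : ℝ) ^ (k + 1) * (2 ^ k * N2) = ((1 / 2 : ℝ) ^ (k + 1) * 2 ^ k) * N2 := by ring
      _ = _ := by rw [h5]
  linarith

end WS

end Pool.Agent.MP_1b7159_an
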