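import Pool.Agent.Lib.MP_1b7159_an.HL
import Pool.Agent.Lib.MP_1b7159_an.Ring

/-!
# MP_1b7159_an JOB BLOCKL: the block lemma = Hilbertian lemma + ring lemma (section 4)
-/

set_option autoImplicit false

open Finset

namespace Pool.Agent.MP_1b7159_an

/-- An orthonormal family spanning `G` for the weighted inner product `∑ g_i h_i / a_i`. -/
theorem bl_orth_family {n : ℕ} (a : Fin n → ℝ) (ha : ∀ i, 0 ≤ a i)
    (G : Submodule ℝ (Fin n → ℝ)) (hpos : ∀ g ∈ G, ∀ i, g i ≠ 0 → 0 < a i) :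
    ∃ b : Fin (Module.finrank ℝ G) → Fin n → ℝ, (∀ m, b m ∈ G) ∧
      (∀ g ∈ G, ∃ t : Fin (Module.finrank ℝ G) → ℝ, ∀ i, g i = ∑ m, t m * b m i) ∧
      (∀ t : Fin (Module.finrank ℝ G) → ℝ,
        ∑ i, (∑ m, t m * b m i) ^ 2 / a i = ∑ m, t m ^ 2) := by
  classical
  -- the map
  let Φ : G →ₗ[ℝ] EuclideanSpace ℝ (Fin n) :=
    { toFun := fun g => WithLp.toLp 2 (fun i => (g : Fin n → ℝ) i / Real.sqrt (a i))
      map_add' := by
        intro g h
        ext i
        simp [add_div]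
      map_smul' := by
        intro c g
        ext i
        simp [mul_div_assoc] }
  have hΦ : ∀ (g : G) (i : Fin n), Φ g i = (g : Fin n → ℝ) i / Real.sqrt (a i) := fun g i => rfl
  have hinj : Function.Injective Φ := by
    rw [← LinearMap.ker_eq_bot, LinearMap.ker_eq_bot']
    intro g hg
    ext i
    by_contra hne
    have h1 : Φ g i = 0 := by rw [hg]; rfl
    rw [hΦ, div_eq_zero_iff] at h1
    rcases h1 with h1 | h1
    · exact hne (by simpa using h1)
    · have h2 := hpos g g.2 i (by simpa using hne)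
      rw [Real.sqrt_eq_zero'] at h1
      linarith
  let e : G ≃ₗ[ℝ] LinearMap.range Φ := LinearEquiv.ofInjective Φ hinj
  have hfr : Module.finrank ℝ (LinearMap.range Φ) = Module.finrank ℝ G :=
    LinearMap.finrank_range_of_inj hinj
  let ob : OrthonormalBasis (Fin (Module.finrank ℝ G)) ℝ (LinearMap.range Φ) :=
    (stdOrthonormalBasis ℝ (LinearMap.range Φ)).reindex (finCongr hfr)
  let B : Fin (Module.finrank ℝ G) → G := fun m => e.symm (ob m)
  have hB : ∀ m, Φ (B m) = (ob m : EuclideanSpace ℝ (Fin n)) := by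
    intro m
    have h1 : e (B m) = ob m := by simp [B]
    have h2 : ((e (B m) : LinearMap.range Φ) : EuclideanSpace ℝ (Fin n)) = Φ (B m) := rfl
    rw [← h2, h1]
  refine ⟨fun m => (B m : Fin n → ℝ), fun m => (B m).2, ?_, ?_⟩
  · intro g hg
    refine ⟨fun m => ob.repr (e ⟨g, hg⟩) m, fun i => ?_⟩
    have h1 : ∑ m, ob.repr (e ⟨g, hg⟩) m • ob m = e ⟨g, hg⟩ := ob.sum_repr _
    have h2 : (⟨g, hg⟩ : G) = ∑ m, ob.repr (e ⟨g, hg⟩) m • B m := by
      apply e.injective
      rw [map_sum]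
      conv_lhs => rw [← h1]
      refine Finset.sum_congr rfl fun m _ => ?_
      rw [map_smul]
      simp [B]
    have h3 : g = ((∑ m, ob.repr (e ⟨g, hg⟩) m • B m : G) : Fin n → ℝ) := by
      rw [← h2]
    conv_lhs => rw [h3]
    simp [Finset.sum_apply]
  · intro t
    have h1 : ‖Φ (∑ m, t m • B m)‖ ^ 2 = ∑ m, t m ^ 2 := by
      have h2 : Φ (∑ m, t m • B m) = ((∑ m, t m • ob m : LinearMap.range Φ) :
          EuclideanSpace ℝ (Fin n)) := by
        rw [map_sum, Submodule.coe_sum]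
        refine Finset.sum_congr rfl fun m _ => ?_
        rw [map_smul, hB, Submodule.coe_smul]
      rw [h2, ← Submodule.coe_norm]
      have h3 : ∑ m, t m • ob m = ob.repr.symm (WithLp.toLp 2 t) := by
        rw [OrthonormalBasis.sum_repr_symm]
      rw [h3, LinearIsometryEquiv.norm_map, EuclideanSpace.norm_sq_eq]
      simp
    have h4 : ‖Φ (∑ m, t m • B m)‖ ^ 2 = ∑ i, (∑ m, t m * (B m : Fin n → ℝ) i) ^ 2 / a i := by
      rw [EuclideanSpace.norm_sq_eq]
      refine Finset.sum_congr rfl fun i _ => ?_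
      rw [hΦ, Real.norm_eq_abs, sq_abs, div_pow, Real.sq_sqrt (ha i)]
      congr 2
      simp [Finset.sum_apply]
    rw [← h4, h1]

namespace WS

variable (W : WS)

/-- (BL), section 4 of the notes. PROOF: `hilbertian` for each `G r` gives `a r`. Choose a basis
`g_{r,m}` (`m < finrank (G r)`) of `G r` which is orthonormal for `⟨g, h⟩ = ∑ g_i h_i / a_i` (e.g. map `G r` by
`g ↦ (g_i / √a_i)_i` injectively into `EuclideanSpace ℝ (Fin W.len)` and use `stdOrthonormalBasis` of the image),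
and apply `ring_lemma` to `z r m = g_{r,m} / a r`, `d r = finrank (G r)`. -/
theorem block_lemma (k : ℕ) (hk : ∀ z : Fin W.len → ℝ, ∑ i, z i ^ 2 ≤ 2 ^ k * W.nZ z ^ 2)
    (R : ℕ) (G : Fin R → Submodule ℝ (Fin W.len → ℝ)) (p : Fin R → ℕ)
    (hsupp : ∀ r, ∀ g ∈ G r, ∀ i, g i ≠ 0 → p r ≤ W.n + (i : ℕ))
    (hdim : ∀ r, 5 ^ Module.finrank ℝ (G r) ≤ phi (p r))
    (h1 : ∀ r, 32 * Module.finrank ℝ (G r) * (k + 1) * 2 ^ ((r : ℕ) + 1) ≤ phi (p r))
    (h2 : ∀ r, k + 3 ≤ phi (p r)) :
    ∃ (a : Fin R → Fin W.len → ℝ) (S : Fin R → ℕ → Finset (Fin W.len)),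
      (∀ r, a r ∈ W.A) ∧
      (∀ r, ∀ g ∈ G r, ∀ i, g i ≠ 0 → 0 < a r i) ∧
      (∀ r, ∀ g ∈ G r, W.nX g ^ 2 ≤ ∑ i, g i ^ 2 / a r i) ∧
      ∀ g : Fin R → Fin W.len → ℝ, (∀ r, g r ∈ G r) →
        (∀ i ≤ k, ∀ r r' : Fin R, r < r' →
          ∑ q ∈ S r i ∩ S r' i, (g r q / a r q) * (g r' q / a r' q) = 0) →
        W.nZ (fun q => ∑ r, g r q / a r q) ^ 2 ≤ 2072 * ∑ r, ∑ i, g r i ^ 2 / a r i := by
  classical
  choose a haA hapos haZ haX using fun r => W.hilbertian (G r) (p r) (hsupp r) (hdim r)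
  choose b hbG hbspan hbnorm using fun r => bl_orth_family (a r) (W.nonneg (a r) (haA r)) (G r)
    (hapos r)
  obtain ⟨S, hS⟩ := W.ring_lemma k hk R (fun r => Module.finrank ℝ (G r)) p
    (fun r m i => b r m i / a r i)
    (by
      intro r m i hne
      refine hsupp r (b r m) (hbG r m) i ?_
      intro h0
      exact hne (by simp [h0]))
    (by
      intro r t
      have hmem : (fun i => ∑ m, t m * b r m i) ∈ G r := by
        have : (fun i => ∑ m, t m * b r m i) = ∑ m, t m • b r m := by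
          funext i
          simp [Finset.sum_apply]
        rw [this]
        exact Submodule.sum_mem _ fun m _ => Submodule.smul_mem _ _ (hbG r m)
      have e1 : (fun i => ∑ m, t m * (b r m i / a r i))
          = (fun i => (∑ m, t m * b r m i) / a r i) := by
        funext i
        rw [Finset.sum_div]
        exact Finset.sum_congr rfl fun m _ => by ring
      rw [e1]
      have h3 := haZ r _ hmem
      have h4 := haX r _ hmem
      have h5 := hbnorm r t
      rw [h5] at h4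
      have h6 := W.nZ_nonneg (fun i => (∑ m, t m * b r m i) / a r i)
      have h7 := W.nX_nonneg (fun i => ∑ m, t m * b r m i)
      calc W.nZ (fun i => (∑ m, t m * b r m i) / a r i) ^ 2
          ≤ (4 * W.nX (fun i => ∑ m, t m * b r m i)) ^ 2 := pow_le_pow_left₀ h6 h3 2
        _ = 16 * W.nX (fun i => ∑ m, t m * b r m i) ^ 2 := by ring
        _ ≤ 16 * ∑ m, t m ^ 2 := by linarith)
    h1 h2
  refine ⟨a, S, haA, hapos, haX, ?_⟩
  intro g hg horth
  choose t ht using fun r => hbspan r (g r) (hg r)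
  have e2 : ∀ r q, g r q / a r q = ∑ m, t r m * (b r m q / a r q) := by
    intro r q
    rw [ht r q, Finset.sum_div]
    exact Finset.sum_congr rfl fun m _ => by ring
  have h3 := hS t (by
    intro i hi r r' hrr
    have := horth i hi r r' hrr
    simp only [e2] at this
    exact this)
  simp only [e2]
  refine h3.trans ?_
  refine mul_le_mul_of_nonneg_left ?_ (by norm_num)
  refine le_of_eq (Finset.sum_congr rfl fun r _ => ?_)
  rw [← hbnorm r (t r)]
  exact Finset.sum_congr rfl fun i _ => by rw [ht r i]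

end WS

end Pool.Agent.MP_1b7159_an
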