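import Pool.Agent.Lib.MP_1b7159_an.Norms

/-!
# MP_1b7159_an: doubling of a block (for complex scalars)
-/

set_option autoImplicit false

open Finset

namespace Pool.Agent.MP_1b7159_an

/-- A block with a stronger gluing property. -/
structure WS2 extends WS where
  half2 : ∀ (N L : ℕ), L ≤ phi2 N → ∀ a : Fin L → Fin len → ℝ, (∀ l, a l ∈ A) →
    ∀ b : Fin len → ℝ, (∀ i, 0 ≤ b i) →
      (∀ i, b i ≠ 0 → N ≤ n + (i : ℕ) ∧ ∃ l, b i ≤ a l i / 2) → b ∈ A

/-- the coordinate below -/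
def dn {len : ℕ} (i : Fin (len * 2)) : Fin len := (finProdFinEquiv.symm i).1

/-- first coordinate above -/
def up0 {len : ℕ} (q : Fin len) : Fin (len * 2) := finProdFinEquiv (q, 0)

/-- second coordinate above -/
def up1 {len : ℕ} (q : Fin len) : Fin (len * 2) := finProdFinEquiv (q, 1)

theorem up0_val {len : ℕ} (q : Fin len) : ((up0 q : Fin (len * 2)) : ℕ) = 2 * (q : ℕ) := by
  simp [up0, finProdFinEquiv]

theorem up1_val {len : ℕ} (q : Fin len) : ((up1 q : Fin (len * 2)) : ℕ) = 2 * (q : ℕ) + 1 := by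
  simp [up1, finProdFinEquiv]
  ring

theorem dn_up0 {len : ℕ} (q : Fin len) : dn (up0 q) = q := by simp [dn, up0]

theorem dn_up1 {len : ℕ} (q : Fin len) : dn (up1 q) = q := by simp [dn, up1]

theorem up_cases {len : ℕ} (i : Fin (len * 2)) : i = up0 (dn i) ∨ i = up1 (dn i) := by
  obtain ⟨⟨q, e⟩, rfl⟩ := finProdFinEquiv.surjective i
  have : dn (finProdFinEquiv (q, e)) = q := by simp [dn]
  rw [this]
  fin_cases e
  · left; rfl
  · right; rfl

theorem sum_dbl {len : ℕ} (f : Fin (len * 2) → ℝ) : ∑ i, f i = ∑ q, (f (up0 q) + f (up1 q)) := by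
  rw [← finProdFinEquiv.sum_comp, Fintype.sum_prod_type]
  refine Finset.sum_congr rfl fun q _ => ?_
  rw [Fin.sum_univ_two]
  rfl

namespace WS2

variable (V : WS2)

/-- the weights of the doubled block -/
def dblA : Set (Fin (V.len * 2) → ℝ) := {b | (∀ i, 0 ≤ b i) ∧ ∃ a ∈ V.A, ∀ i, b i ≤ a (dn i)}

/-- the doubled block -/
def dbl : WS where
  n := V.n
  len := V.len * 2
  A := V.dblA
  compact := by
    have h : V.dblA = (fun p : (Fin V.len → ℝ) × (Fin (V.len * 2) → ℝ) =>
        fun i => p.2 i * p.1 (dn i)) '' (V.A ×ˢ Set.Icc (0 : Fin (V.len * 2) → ℝ) 1) := by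
      ext b
      constructor
      · rintro ⟨hb, a, ha, hab⟩
        refine ⟨(a, fun i => b i / a (dn i)), ⟨ha, ?_, ?_⟩, ?_⟩
        · intro i
          exact div_nonneg (hb i) (V.nonneg a ha _)
        · intro i
          exact div_le_one_of_le₀ (hab i) (V.nonneg a ha _)
        · funext i
          show b i / a (dn i) * a (dn i) = b i
          by_cases h0 : a (dn i) = 0
          · have h1 := hab i
            have h2 := hb i
            rw [h0] at h1 ⊢
            rw [mul_zero]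
            linarith
          · exact div_mul_cancel₀ _ h0
      · rintro ⟨⟨a, c⟩, ⟨ha, hc0, hc1⟩, rfl⟩
        refine ⟨fun i => mul_nonneg (hc0 i) (V.nonneg a ha _), a, ha, fun i => ?_⟩
        show c i * a (dn i) ≤ a (dn i)
        exact mul_le_of_le_one_left (V.nonneg a ha _) (hc1 i)
    rw [h]
    refine (V.compact.prod isCompact_Icc).image ?_
    fun_prop
  convex := by
    rintro b ⟨hb, a, ha, hab⟩ b' ⟨hb', a', ha', hab'⟩ s t hs ht hst
    refine ⟨fun i => ?_, s • a + t • a', V.convex ha ha' hs ht hst, fun i => ?_⟩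
    · simp only [Pi.add_apply, Pi.smul_apply, smul_eq_mul]
      exact add_nonneg (mul_nonneg hs (hb i)) (mul_nonneg ht (hb' i))
    · simp only [Pi.add_apply, Pi.smul_apply, smul_eq_mul]
      exact add_le_add (mul_le_mul_of_nonneg_left (hab i) hs)
        (mul_le_mul_of_nonneg_left (hab' i) ht)
  nonneg := fun b hb i => hb.1 i
  le_one := by
    rintro b ⟨hb, a, ha, hab⟩ i
    exact (hab i).trans (V.le_one a ha _)
  single := by
    intro i
    refine ⟨fun k => ?_, Pi.single (dn i) 1, V.single _, fun k => ?_⟩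
    · rw [Pi.single_apply]; split_ifs <;> norm_num
    · by_cases h : k = i
      · rw [h]; simp
      · rw [Pi.single_eq_of_ne h, Pi.single_apply]
        split_ifs <;> norm_num
  zero_mem := ⟨fun i => le_rfl, 0, V.zero_mem, fun i => le_rfl⟩
  solid := by
    rintro b ⟨hb, a, ha, hab⟩ b' hb' hbb'
    exact ⟨hb', a, ha, fun i => (hbb' i).trans (hab i)⟩
  half := by
    intro N L hL a ha b hb0 hb
    choose h1 a' ha' hab using ha
    refine ⟨hb0, fun q => max (b (up0 q)) (b (up1 q)), ?_, fun i => ?_⟩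
    · refine V.half2 (N / 2) L ?_ a' ha' _ (fun q => le_max_of_le_left (hb0 _)) (fun q hq => ?_)
      · refine hL.trans (phi_mono ?_)
        omega
      · rcases max_choice (b (up0 q)) (b (up1 q)) with h | h
        · rw [h] at hq ⊢
          obtain ⟨g1, l, g2⟩ := hb _ hq
          have g3 := hab l (up0 q)
          rw [dn_up0] at g3
          have g4 := up0_val q
          refine ⟨?_, l, by linarith⟩
          omega
        · rw [h] at hq ⊢
          obtain ⟨g1, l, g2⟩ := hb _ hq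
          have g3 := hab l (up1 q)
          rw [dn_up1] at g3
          have g4 := up1_val q
          refine ⟨?_, l, by linarith⟩
          omega
    · rcases up_cases i with h | h
      · conv_lhs => rw [h]
        exact le_max_left _ _
      · conv_lhs => rw [h]
        exact le_max_right _ _

/-- modulus of a vector on the doubled block -/
noncomputable def md {len : ℕ} (z : Fin (len * 2) → ℝ) (q : Fin len) : ℝ :=
  Real.sqrt (z (up0 q) ^ 2 + z (up1 q) ^ 2)

theorem md_nonneg {len : ℕ} (z : Fin (len * 2) → ℝ) (q : Fin len) : 0 ≤ md z q :=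
  Real.sqrt_nonneg _

theorem md_sq {len : ℕ} (z : Fin (len * 2) → ℝ) (q : Fin len) :
    md z q ^ 2 = z (up0 q) ^ 2 + z (up1 q) ^ 2 := Real.sq_sqrt (by positivity)

theorem sum_md {len : ℕ} (z : Fin (len * 2) → ℝ) : ∑ i, z i ^ 2 = ∑ q, md z q ^ 2 := by
  rw [sum_dbl]
  exact Finset.sum_congr rfl fun q _ => (md_sq z q).symm

theorem dbl_nZ (z : Fin (V.len * 2) → ℝ) : V.dbl.nZ z = V.nZ (md z) := by
  have h : V.dbl.nZ z ^ 2 = V.nZ (md z) ^ 2 := by
    refine le_antisymm ?_ ?_
    · refine V.dbl.nZ_sq_le ?_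
      rintro b ⟨hb, a, ha, hab⟩
      refine le_trans ?_ (V.toWS.sum_le_nZ_sq ha (md z))
      show ∑ i : Fin (V.len * 2), b i * z i ^ 2 ≤ _
      rw [sum_dbl]
      refine Finset.sum_le_sum fun q _ => ?_
      rw [md_sq]
      have h1 := hab (up0 q)
      have h2 := hab (up1 q)
      rw [dn_up0] at h1
      rw [dn_up1] at h2
      have h3 := mul_le_mul_of_nonneg_right h1 (sq_nonneg (z (up0 q)))
      have h4 := mul_le_mul_of_nonneg_right h2 (sq_nonneg (z (up1 q)))
      linarith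
    · refine V.toWS.nZ_sq_le fun a ha => ?_
      have hb : (fun i : Fin (V.len * 2) => a (dn i)) ∈ V.dbl.A :=
        ⟨fun i => V.nonneg a ha _, a, ha, fun i => le_rfl⟩
      refine le_trans (le_of_eq ?_) (V.dbl.sum_le_nZ_sq hb z)
      show _ = ∑ i : Fin (V.len * 2), a (dn i) * z i ^ 2
      rw [sum_dbl]
      refine Finset.sum_congr rfl fun q _ => ?_
      rw [md_sq, dn_up0, dn_up1]
      ring
  have h1 := V.dbl.nZ_nonneg z
  have h2 := V.toWS.nZ_nonneg (md z)
  exact (pow_left_inj₀ h1 h2 (by norm_num)).1 h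

/-- the complex structure -/
def JJ {len : ℕ} : (Fin (len * 2) → ℝ) →ₗ[ℝ] (Fin (len * 2) → ℝ) where
  toFun z i := if i = up0 (dn i) then - z (up1 (dn i)) else z (up0 (dn i))
  map_add' z w := by
    funext i
    simp only [Pi.add_apply]
    split_ifs <;> ring
  map_smul' c z := by
    funext i
    simp only [Pi.smul_apply, smul_eq_mul, RingHom.id_apply]
    split_ifs <;> ring

theorem JJ_up0 {len : ℕ} (z : Fin (len * 2) → ℝ) (q : Fin len) : JJ z (up0 q) = - z (up1 q) := by
  show (if up0 q = up0 (dn (up0 q)) then _ else _) = _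
  rw [dn_up0, if_pos rfl]

theorem up1_ne_up0 {len : ℕ} (q : Fin len) : up1 q ≠ up0 q := by
  intro h
  have := congrArg Fin.val h
  rw [up0_val, up1_val] at this
  omega

theorem JJ_up1 {len : ℕ} (z : Fin (len * 2) → ℝ) (q : Fin len) : JJ z (up1 q) = z (up0 q) := by
  show (if up1 q = up0 (dn (up1 q)) then _ else _) = _
  rw [dn_up1, if_neg (up1_ne_up0 q)]

theorem JJ_JJ {len : ℕ} (z : Fin (len * 2) → ℝ) : JJ (JJ z) = - z := by
  funext i
  rcases up_cases i with h | h
  · rw [h, JJ_up0, JJ_up1]; rfl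
  · rw [h, JJ_up1, JJ_up0]; rfl

theorem md_rot {len : ℕ} (x y : ℝ) (z : Fin (len * 2) → ℝ) :
    md (x • z + y • JJ z) = (Real.sqrt (x ^ 2 + y ^ 2)) • md z := by
  funext q
  rw [Pi.smul_apply, smul_eq_mul]
  unfold md
  rw [← Real.sqrt_mul (by positivity)]
  congr 1
  simp only [Pi.add_apply, Pi.smul_apply, smul_eq_mul, JJ_up0, JJ_up1]
  ring

theorem dbl_nX_rot (x y : ℝ) (g : Fin (V.len * 2) → ℝ) :
    V.dbl.nX (x • g + y • JJ g) ≤ Real.sqrt (x ^ 2 + y ^ 2) * V.dbl.nX g := by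
  refine V.dbl.nX_le fun (z : Fin (V.len * 2) → ℝ) hz => ?_
  show ∑ i : Fin (V.len * 2), (x • g + y • JJ g) i * z i ≤ _
  have h1 : ∑ i, (x • g + y • JJ g) i * z i = ∑ i, g i * (x • z + (-y) • JJ z) i := by
    rw [sum_dbl, sum_dbl]
    refine Finset.sum_congr rfl fun q _ => ?_
    simp only [Pi.add_apply, Pi.smul_apply, smul_eq_mul, JJ_up0, JJ_up1]
    ring
  have h2 : ∑ i, g i * (x • z + (-y) • JJ z) i ≤ V.dbl.nX g * V.dbl.nZ (x • z + (-y) • JJ z) :=
    V.dbl.pair_le _ _
  have h3 : V.dbl.nZ (x • z + (-y) • JJ z) = Real.sqrt (x ^ 2 + y ^ 2) * V.dbl.nZ z := by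
    rw [dbl_nZ, dbl_nZ, md_rot, WS.nZ_smul, abs_of_nonneg (Real.sqrt_nonneg _)]
    congr 2
    ring
  have h0 : ∑ i, (x • g + y • JJ g) i * z i ≤ V.dbl.nX g * (Real.sqrt (x ^ 2 + y ^ 2) * V.dbl.nZ z) := by
    rw [← h3]
    exact h1.le.trans h2
  refine h0.trans ?_
  have h4 := V.dbl.nX_nonneg g
  have h5 := Real.sqrt_nonneg (x ^ 2 + y ^ 2)
  calc V.dbl.nX g * (Real.sqrt (x ^ 2 + y ^ 2) * V.dbl.nZ z)
      ≤ V.dbl.nX g * (Real.sqrt (x ^ 2 + y ^ 2) * 1) := by gcongr
    _ = _ := by ring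

end WS2

end Pool.Agent.MP_1b7159_an
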