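import Pool.Agent.Lib.MP_1b7159_an.Tree
import Pool.Agent.Lib.MP_1b7159_an.Double

/-!
# MP_1b7159_an JOB BLOCKS: existence of blocks with prescribed distortion (section 5)
-/

set_option autoImplicit false

open Finset

namespace Pool.Agent.MP_1b7159_an

/-- values of the tree weights on a vector -/
private def bkS (n len : ℕ) (w : Fin len → ℝ) : Set ℝ :=
  {r | ∃ a : ℕ → ℝ, TR a ∧ r = ∑ i : Fin len, a (n + (i : ℕ)) * w i}

/-- the tree functional -/
private noncomputable def bkT (n len : ℕ) (w : Fin len → ℝ) : ℝ := sSup (bkS n len w)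

private theorem bk_bdd (n len : ℕ) {w : Fin len → ℝ} (hw : ∀ i, 0 ≤ w i) :
    BddAbove (bkS n len w) := by
  refine ⟨∑ i, w i, ?_⟩
  rintro r ⟨a, ha, rfl⟩
  apply Finset.sum_le_sum
  intro i _
  calc a (n + (i : ℕ)) * w i ≤ 1 * w i := mul_le_mul_of_nonneg_right (ha.le_one _) (hw i)
    _ = w i := one_mul _

private theorem bk_le (n len : ℕ) {w : Fin len → ℝ} (hw : ∀ i, 0 ≤ w i) {a : ℕ → ℝ} (ha : TR a) :
    ∑ i : Fin len, a (n + (i : ℕ)) * w i ≤ bkT n len w :=
  le_csSup (bk_bdd n len hw) ⟨a, ha, rfl⟩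

private theorem bk_nonempty (n len : ℕ) (w : Fin len → ℝ) : (bkS n len w).Nonempty :=
  ⟨_, _, TR.single 0, rfl⟩

private theorem bk_T_le (n len : ℕ) {w : Fin len → ℝ} {c : ℝ}
    (h : ∀ a : ℕ → ℝ, TR a → ∑ i : Fin len, a (n + (i : ℕ)) * w i ≤ c) : bkT n len w ≤ c := by
  apply csSup_le (bk_nonempty n len w)
  rintro r ⟨a, ha, rfl⟩
  exact h a ha

private theorem bk_single (n len : ℕ) {w : Fin len → ℝ} (hw : ∀ i, 0 ≤ w i) (i : Fin len) :
    w i ≤ bkT n len w := by
  have h := bk_le n len hw (TR.single (n + (i : ℕ)))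
  have h2 : ∑ k : Fin len, (Pi.single (n + (i : ℕ)) 1 : ℕ → ℝ) (n + (k : ℕ)) * w k = w i := by
    rw [Finset.sum_eq_single i]
    · simp
    · intro b _ hb
      have : n + (b : ℕ) ≠ n + (i : ℕ) := by
        intro h3
        exact hb (Fin.ext (by omega))
      rw [Pi.single_eq_of_ne this, zero_mul]
    · intro h3
      exact absurd (Finset.mem_univ i) h3
  linarith

private theorem bk_nonneg (n len : ℕ) {w : Fin len → ℝ} (hw : ∀ i, 0 ≤ w i) :
    0 ≤ bkT n len w :=
  (Finset.sum_nonneg fun i _ => mul_nonneg ((TR.single 0).nonneg _) (hw i)).trans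
    (bk_le n len hw (TR.single 0))

/-- the polar set -/
private def bkA (n len : ℕ) : Set (Fin len → ℝ) :=
  {a | (∀ i, 0 ≤ a i) ∧ ∀ w : Fin len → ℝ, (∀ i, 0 ≤ w i) → ∑ i, a i * w i ≤ bkT n len w}

private theorem bk_le_one {n len : ℕ} {a : Fin len → ℝ} (ha : a ∈ bkA n len) (i : Fin len) :
    a i ≤ 1 := by
  have hw : ∀ k : Fin len, 0 ≤ (Pi.single i (1 : ℝ) : Fin len → ℝ) k := by
    intro k
    rw [Pi.single_apply]
    split_ifs <;> norm_num
  have h := ha.2 (Pi.single i 1) hw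
  have h1 : ∑ k, a k * (Pi.single i (1 : ℝ) : Fin len → ℝ) k = a i := by
    rw [Finset.sum_eq_single i]
    · simp
    · intro b _ hb
      rw [Pi.single_eq_of_ne hb, mul_zero]
    · intro h3
      exact absurd (Finset.mem_univ i) h3
  have h2 : bkT n len (Pi.single i (1 : ℝ)) ≤ 1 := by
    apply bk_T_le
    intro a' ha'
    rw [Finset.sum_eq_single i]
    · simpa using ha'.le_one _
    · intro b _ hb
      rw [Pi.single_eq_of_ne hb, mul_zero]
    · intro h3
      exact absurd (Finset.mem_univ i) h3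
  linarith

private theorem bk_restr {n len : ℕ} {a : ℕ → ℝ} (ha : TR a) :
    (fun i : Fin len => a (n + (i : ℕ))) ∈ bkA n len :=
  ⟨fun i => ha.nonneg _, fun _ hw => bk_le n len hw ha⟩

private theorem bk_half {n len : ℕ} (N L : ℕ) (hL : L ≤ phi2 N) (a : Fin L → Fin len → ℝ)
    (ha : ∀ l, a l ∈ bkA n len) (b : Fin len → ℝ) (hb0 : ∀ i, 0 ≤ b i)
    (hb : ∀ i, b i ≠ 0 → N ≤ n + (i : ℕ) ∧ ∃ l, b i ≤ a l i / 2) : b ∈ bkA n len := by
  classical
  refine ⟨hb0, fun w hw => ?_⟩
  apply le_of_forall_pos_le_add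
  intro ε hε
  -- the choice of the index
  let c : Fin len → Option (Fin L) := fun i =>
    if h : b i ≠ 0 then some (hb i h).2.choose else none
  have hc0 : ∀ i, c i = none → b i = 0 := by
    intro i hi
    by_contra h
    simp only [c, dif_pos h] at hi
    exact absurd hi (by simp)
  have hc1 : ∀ i l, c i = some l → N ≤ n + (i : ℕ) ∧ b i ≤ a l i / 2 := by
    intro i l hi
    by_cases h : b i ≠ 0
    · simp only [c, dif_pos h, Option.some.injEq] at hi
      refine ⟨(hb i h).1, ?_⟩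
      rw [← hi]
      exact (hb i h).2.choose_spec
    · simp only [c, dif_neg h] at hi
      exact absurd hi (by simp)
  let wl : Fin L → Fin len → ℝ := fun l i => if c i = some l then w i else 0
  have hwl : ∀ l i, 0 ≤ wl l i := by
    intro l i
    simp only [wl]
    split_ifs
    · exact hw i
    · exact le_rfl
  obtain ⟨δ, hδ0, hδ⟩ : ∃ δ : ℝ, 0 < δ ∧ (L : ℝ) * δ ≤ ε := by
    refine ⟨ε / ((L : ℝ) + 1), by positivity, ?_⟩
    rw [mul_div_assoc', div_le_iff₀ (by positivity)]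
    nlinarith
  have hex : ∀ l : Fin L, ∃ a' : ℕ → ℝ, TR a' ∧
      bkT n len (wl l) - δ < ∑ i : Fin len, a' (n + (i : ℕ)) * wl l i := by
    intro l
    obtain ⟨r, ⟨a', ha', rfl⟩, hr⟩ := exists_lt_of_lt_csSup (bk_nonempty n len (wl l))
      (show bkT n len (wl l) - δ < sSup (bkS n len (wl l)) by
        have : bkT n len (wl l) = sSup (bkS n len (wl l)) := rfl
        linarith)
    exact ⟨a', ha', hr⟩
  choose a' ha' hlt using hex
  let c' : ℕ → Option (Fin L) := fun q =>
    if h : n ≤ q ∧ q - n < len then c ⟨q - n, h.2⟩ else none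
  have hc' : ∀ q, c' q ≠ none → N ≤ q := by
    intro q hq
    by_cases h : n ≤ q ∧ q - n < len
    · simp only [c', dif_pos h] at hq
      obtain ⟨l, hl⟩ := Option.ne_none_iff_exists'.1 hq
      have h1 := (hc1 _ l hl).1
      simp only at h1
      omega
    · simp only [c', dif_neg h] at hq
      exact absurd rfl hq
  have hc'2 : ∀ i : Fin len, c' (n + (i : ℕ)) = c i := by
    intro i
    have h : n ≤ n + (i : ℕ) ∧ n + (i : ℕ) - n < len := ⟨by omega, by have := i.2; omega⟩
    simp only [c', dif_pos h]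
    congr 1
    exact Fin.ext (by simp)
  have hTR := TR.op N L hL a' ha' c' hc'
  have h1 := bk_le n len hw hTR
  have h2 : ∑ i : Fin len, ((c' (n + (i : ℕ))).elim 0 fun l => a' l (n + (i : ℕ)) / 2) * w i =
      ∑ l : Fin L, ∑ i : Fin len, a' l (n + (i : ℕ)) * wl l i / 2 := by
    rw [Finset.sum_comm]
    apply Finset.sum_congr rfl
    intro i _
    rw [hc'2]
    cases hci : c i with
    | none =>
      simp only [Option.elim, zero_mul]
      symm
      apply Finset.sum_eq_zero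
      intro l _
      simp [wl, hci]
    | some l0 =>
      simp only [Option.elim]
      rw [Finset.sum_eq_single l0]
      · simp only [wl, hci, if_true]
        ring
      · intro l _ hl
        have : ¬ (some l0 = some l) := fun h => hl (Option.some.inj h).symm
        simp [wl, hci, this]
      · intro h3
        exact absurd (Finset.mem_univ l0) h3
  have h3 : ∑ i, b i * w i ≤ ∑ l : Fin L, ∑ i : Fin len, a l i * wl l i / 2 := by
    rw [Finset.sum_comm]
    apply Finset.sum_le_sum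
    intro i _
    cases hci : c i with
    | none =>
      rw [hc0 i hci, zero_mul]
      apply Finset.sum_nonneg
      intro l _
      have := mul_nonneg ((ha l).1 i) (hwl l i)
      linarith
    | some l0 =>
      rw [Finset.sum_eq_single l0]
      · have h4 := (hc1 i l0 hci).2
        simp only [wl, hci, if_true]
        have := mul_le_mul_of_nonneg_right h4 (hw i)
        linarith
      · intro l _ hl
        have : ¬ (some l0 = some l) := fun h => hl (Option.some.inj h).symm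
        simp [wl, hci, this]
      · intro h3
        exact absurd (Finset.mem_univ l0) h3
  have h5 : ∑ l : Fin L, ∑ i : Fin len, a l i * wl l i / 2 ≤
      ∑ l : Fin L, (∑ i : Fin len, a' l (n + (i : ℕ)) * wl l i / 2 + δ) := by
    apply Finset.sum_le_sum
    intro l _
    rw [← Finset.sum_div, ← Finset.sum_div]
    have h6 := (ha l).2 (wl l) (hwl l)
    have h7 := hlt l
    linarith
  rw [Finset.sum_add_distrib] at h5
  simp only [Finset.sum_const, Finset.card_univ, Fintype.card_fin, nsmul_eq_mul] at h5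
  rw [h2] at h1
  linarith

private theorem bk_isClosed (n len : ℕ) : IsClosed (bkA n len) := by
  have h : bkA n len = (⋂ i : Fin len, {a : Fin len → ℝ | 0 ≤ a i}) ∩
      ⋂ w : {w : Fin len → ℝ // ∀ i, 0 ≤ w i}, {a : Fin len → ℝ | ∑ i, a i * w.1 i ≤ bkT n len w.1} := by
    ext a
    simp only [bkA, Set.mem_ofPred_eq, Set.mem_inter_iff, Set.mem_iInter, Subtype.forall]
  rw [h]
  refine (isClosed_iInter fun i => ?_).inter (isClosed_iInter fun w => ?_)
  · exact isClosed_le continuous_const (continuous_apply i)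
  · exact isClosed_le (by fun_prop) continuous_const

/-- the block -/
private noncomputable def bkW (n len : ℕ) : WS2 where
  n := n
  len := len
  A := bkA n len
  compact := by
    apply (isCompact_Icc : IsCompact (Set.Icc (0 : Fin len → ℝ) 1)).of_isClosed_subset
      (bk_isClosed n len)
    intro a ha
    exact ⟨fun i => ha.1 i, fun i => bk_le_one ha i⟩
  convex := by
    intro a ha b hb s t hs ht hst
    refine ⟨fun i => ?_, fun w hw => ?_⟩
    · simp only [Pi.add_apply, Pi.smul_apply, smul_eq_mul]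
      exact add_nonneg (mul_nonneg hs (ha.1 i)) (mul_nonneg ht (hb.1 i))
    · have h1 := mul_le_mul_of_nonneg_left (ha.2 w hw) hs
      have h2 := mul_le_mul_of_nonneg_left (hb.2 w hw) ht
      have h3 : ∑ i, (s • a + t • b) i * w i = s * ∑ i, a i * w i + t * ∑ i, b i * w i := by
        rw [Finset.mul_sum, Finset.mul_sum, ← Finset.sum_add_distrib]
        apply Finset.sum_congr rfl
        intro i _
        simp only [Pi.add_apply, Pi.smul_apply, smul_eq_mul]
        ring
      rw [h3]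
      calc s * ∑ i, a i * w i + t * ∑ i, b i * w i ≤ s * bkT n len w + t * bkT n len w := by
            linarith
        _ = bkT n len w := by rw [← add_mul, hst, one_mul]
  nonneg := fun a ha i => ha.1 i
  le_one := fun a ha i => bk_le_one ha i
  single := by
    intro i
    have h := bk_restr (n := n) (len := len) (TR.single (n + (i : ℕ)))
    have h2 : (fun k : Fin len => (Pi.single (n + (i : ℕ)) 1 : ℕ → ℝ) (n + (k : ℕ))) =
        Pi.single i (1 : ℝ) := by
      funext k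
      by_cases hk : k = i
      · subst hk; simp
      · have : n + (k : ℕ) ≠ n + (i : ℕ) := by
          intro h3
          exact hk (Fin.ext (by omega))
        rw [Pi.single_eq_of_ne this, Pi.single_eq_of_ne hk]
    rw [h2] at h
    exact h
  zero_mem := by
    refine ⟨fun i => le_rfl, fun w hw => ?_⟩
    simp only [Pi.zero_apply, zero_mul, Finset.sum_const_zero]
    exact bk_nonneg n len hw
  solid := by
    intro a ha b hb hba
    refine ⟨hb, fun w hw => le_trans ?_ (ha.2 w hw)⟩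
    exact Finset.sum_le_sum fun i _ => mul_le_mul_of_nonneg_right (hba i) (hw i)
  half := fun N L hL a ha b hb0 hb => bk_half N L (hL.trans (phi_le_phi2 N)) a ha b hb0 hb
  half2 := fun N L hL a ha b hb0 hb => bk_half N L hL a ha b hb0 hb

private theorem bk_nZ (n len : ℕ) (z : Fin len → ℝ) :
    (bkW n len).nZ z ^ 2 = bkT n len (fun i => z i ^ 2) := by
  have hz : ∀ i, 0 ≤ (fun i => z i ^ 2) i := fun i => sq_nonneg (z i)
  apply le_antisymm
  · apply WS.nZ_sq_le
    intro a ha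
    exact ha.2 _ hz
  · apply bk_T_le
    intro a ha
    exact WS.sum_le_nZ_sq (bkW n len).toWS (a := fun i : Fin len => a (n + (i : ℕ))) (bk_restr ha) z

/-- existence of a length with large distortion -/
private theorem bk_exists_len (n j : ℕ) : ∃ len : ℕ, ∃ z : Fin len → ℝ, z ≠ 0 ∧
    ((j : ℝ) + 1) ^ 2 * bkT n len (fun i => z i ^ 2) ≤ ∑ i, z i ^ 2 := by
  have hj : (0 : ℝ) < ((j : ℝ) + 1) ^ 2 := by positivity
  obtain ⟨k, hk⟩ := exists_pow_lt_of_lt_one
    (show (0 : ℝ) < 1 / (2 * ((j : ℝ) + 1) ^ 2) by positivity) (show (1 / 2 : ℝ) < 1 by norm_num)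
  obtain ⟨E, ρ, hE, hρ0, hρE, hρ1, hsp⟩ := exists_spread k (1 / (2 * ((j : ℝ) + 1) ^ 2))
    (by positivity) n 1
  obtain ⟨m, hm⟩ : ∃ m : ℕ, ∀ q ∈ E, q ≤ m := ⟨E.sup id, fun q hq => Finset.le_sup (f := id) hq⟩
  have hsum : ∀ f : ℕ → ℝ, (∀ q, q ∉ E → f q = 0) →
      ∑ i : Fin (m + 1), f (n + (i : ℕ)) = ∑ q ∈ E, f q := by
    intro f hf
    rw [Fin.sum_univ_eq_sum_range (fun i => f (n + i)) (m + 1)]
    have h1 : ∑ i ∈ Finset.range (m + 1), f (n + i) =
        ∑ q ∈ (Finset.range (m + 1)).image (fun i => n + i), f q := by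
      rw [Finset.sum_image]
      intro x _ y _ hxy
      exact Nat.add_left_cancel hxy
    rw [h1]
    symm
    apply Finset.sum_subset
    · intro q hq
      rw [Finset.mem_image]
      refine ⟨q - n, ?_, ?_⟩
      · rw [Finset.mem_range]
        have := hm q hq
        omega
      · have := hE q hq
        omega
    · intro q _ hq
      exact hf q hq
  refine ⟨m + 1, fun i => Real.sqrt (ρ (n + (i : ℕ))), ?_, ?_⟩
  · intro h0
    have h1 : ∑ i : Fin (m + 1), ρ (n + (i : ℕ)) = 0 := by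
      apply Finset.sum_eq_zero
      intro i _
      have h2 := congrFun h0 i
      simp only [Pi.zero_apply] at h2
      exact (Real.sqrt_eq_zero (hρ0 _)).1 h2
    rw [hsum ρ hρE, hρ1] at h1
    exact one_ne_zero h1
  · have h1 : (fun i : Fin (m + 1) => Real.sqrt (ρ (n + (i : ℕ))) ^ 2) =
        fun i : Fin (m + 1) => ρ (n + (i : ℕ)) := by
      funext i
      exact Real.sq_sqrt (hρ0 _)
    have h2 : ∑ i : Fin (m + 1), Real.sqrt (ρ (n + (i : ℕ))) ^ 2 = 1 := by
      rw [Finset.sum_congr rfl (fun i _ => congrFun h1 i), hsum ρ hρE, hρ1]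
    rw [h1, hsum ρ hρE, hρ1]
    have h3 : bkT n (m + 1) (fun i : Fin (m + 1) => ρ (n + (i : ℕ))) ≤
        1 / ((j : ℝ) + 1) ^ 2 := by
      apply bk_T_le
      intro a ha
      have h4 := hsp 1 le_rfl (fun _ => a) (fun _ => ha) a (fun q _ => Or.inr ⟨0, le_rfl⟩)
      have h5 : ∑ i : Fin (m + 1), a (n + (i : ℕ)) * ρ (n + (i : ℕ)) = ∑ q ∈ E, ρ q * a q := by
        rw [hsum (fun q => a q * ρ q) (fun q hq => by rw [hρE q hq, mul_zero])]
        exact Finset.sum_congr rfl fun q _ => mul_comm _ _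
      rw [h5]
      have h6 : 1 / (2 * ((j : ℝ) + 1) ^ 2) + 1 / (2 * ((j : ℝ) + 1) ^ 2) =
          1 / ((j : ℝ) + 1) ^ 2 := by
        field_simp
        norm_num
      linarith
    calc ((j : ℝ) + 1) ^ 2 * bkT n (m + 1) (fun i : Fin (m + 1) => ρ (n + (i : ℕ))) ≤
        ((j : ℝ) + 1) ^ 2 * (1 / ((j : ℝ) + 1) ^ 2) := mul_le_mul_of_nonneg_left h3 hj.le
      _ = 1 := by field_simp

/-- Existence of blocks (section 5 of the notes).

PROOF. For an interval `E = [n, n+len)` and `w : Fin len → ℝ`, `w ≥ 0`, put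
`T w = sSup {∑ i, a (n + i) * w i | TR a}` (bounded by `∑ w i`), and
`A = {a | (∀ i, 0 ≤ a i) ∧ ∀ w, (∀ i, 0 ≤ w i) → ∑ i, a i * w i ≤ T w}`.
`A` is closed, bounded (`w = Pi.single i 1`), convex, solid, contains `0`, `Pi.single i 1` and the restrictions of tree
weights, so `nZ z ^ 2 = T (z²)`. `half`: `b` with `b i ≤ a l i / 2`: let `c i` be such an `l` (for `b i ≠ 0`);
`∑ b w ≤ (1/2) ∑_l ∑_{c i = l} a_l w ≤ (1/2) ∑_l T (w 1_{c = l}) ≤ T w` (take almost optimal tree weights `a'_l` for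
`w 1_{c = l}`; `TR.op` glues them to a tree weight; note `c i = some l → N ≤ n + i`).
Given `n, j`: `exists_spread` (with `L₀ = 1`, `k` large, `ε` small) gives a finite set `E ⊆ [n,∞)` and
`z_q = √ρ_q` with `∑ z² = 1 ≥ (j+1)² T(z²)`. Let `len` be least such that some nonzero `z` on `[n, n+len)` has
`(j+1)² T(z²) ≤ ∑ z²`. For every `z` on `[n, n + len)`: split off the last coordinate: `z = z' + z_last`,
`∑ z'² ≤ (j+1)² T(z'²)` by minimality (`len - 1`), `z_last² ≤ T(z²)`, and `T(z'^2) ≤ T(z²)`. -/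
theorem exists_block0 (n j : ℕ) : ∃ W : WS2, W.n = n ∧
    (∀ z : Fin W.len → ℝ, ∑ i, z i ^ 2 ≤ (((j : ℝ) + 1) ^ 2 + 1) * W.nZ z ^ 2) ∧
    ∃ z : Fin W.len → ℝ, z ≠ 0 ∧ ((j : ℝ) + 1) ^ 2 * W.nZ z ^ 2 ≤ ∑ i, z i ^ 2 := by
  classical
  have hj : (0 : ℝ) < ((j : ℝ) + 1) ^ 2 := by positivity
  obtain ⟨len, hlen, hmin⟩ : ∃ len : ℕ, (∃ z : Fin len → ℝ, z ≠ 0 ∧
      ((j : ℝ) + 1) ^ 2 * bkT n len (fun i => z i ^ 2) ≤ ∑ i, z i ^ 2) ∧
      ∀ m < len, ¬ ∃ z : Fin m → ℝ, z ≠ 0 ∧
        ((j : ℝ) + 1) ^ 2 * bkT n m (fun i => z i ^ 2) ≤ ∑ i, z i ^ 2 :=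
    ⟨Nat.find (bk_exists_len n j), Nat.find_spec (bk_exists_len n j),
      fun m hm => Nat.find_min (bk_exists_len n j) hm⟩
  refine ⟨bkW n len, rfl, ?_, ?_⟩
  · intro z
    change ∑ i : Fin len, z i ^ 2 ≤ _
    have hnz := bk_nZ n len z
    change (bkW n len).nZ z ^ 2 = _ at hnz
    rw [hnz]
    obtain ⟨z0, hz0, -⟩ := hlen
    cases len with
    | zero => exact absurd (Subsingleton.elim z0 0) hz0
    | succ m =>
      have key : ∀ z : Fin (m + 1) → ℝ, ∑ i, z i ^ 2 ≤
          (((j : ℝ) + 1) ^ 2 + 1) * bkT n (m + 1) (fun i => z i ^ 2) := by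
        intro z
        have hzn : ∀ i, 0 ≤ (fun i => z i ^ 2) i := fun i => sq_nonneg (z i)
        have h1 := bk_single n (m + 1) hzn (Fin.last m)
        have h2 : bkT n m (fun i : Fin m => z i.castSucc ^ 2) ≤
            bkT n (m + 1) (fun i => z i ^ 2) := by
          apply bk_T_le
          intro a ha
          have h3 := bk_le n (m + 1) hzn ha
          rw [Fin.sum_univ_castSucc] at h3
          have h4 : 0 ≤ a (n + ((Fin.last m : Fin (m + 1)) : ℕ)) * z (Fin.last m) ^ 2 :=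
            mul_nonneg (ha.nonneg _) (sq_nonneg _)
          simp only [Fin.val_castSucc] at h3
          linarith
        have h5 : ∑ i : Fin m, z i.castSucc ^ 2 ≤
            ((j : ℝ) + 1) ^ 2 * bkT n m (fun i : Fin m => z i.castSucc ^ 2) := by
          by_cases h0 : (fun i : Fin m => z i.castSucc) = 0
          · have h6 : ∑ i : Fin m, z i.castSucc ^ 2 = 0 := by
              apply Finset.sum_eq_zero
              intro i _
              have := congrFun h0 i
              simp only [Pi.zero_apply] at this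
              rw [this]; norm_num
            rw [h6]
            exact mul_nonneg hj.le (bk_nonneg n m fun i => sq_nonneg _)
          · by_contra hcon
            push Not at hcon
            exact hmin m (Nat.lt_succ_self m) ⟨fun i : Fin m => z i.castSucc, h0, hcon.le⟩
        rw [Fin.sum_univ_castSucc]
        have h7 := mul_le_mul_of_nonneg_left h2 hj.le
        linarith
      exact key z
  · obtain ⟨z, hz, h⟩ := hlen
    refine ⟨z, hz, ?_⟩
    have hnz := bk_nZ n len z
    change (bkW n len).nZ z ^ 2 = _ at hnz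
    rw [hnz]
    exact h

/-- the doubled version of `exists_block0` -/
theorem exists_block (n j : ℕ) : ∃ V : WS2, V.n = n ∧
    (∀ z : Fin V.dbl.len → ℝ, ∑ i, z i ^ 2 ≤ (((j : ℝ) + 1) ^ 2 + 1) * V.dbl.nZ z ^ 2) ∧
    ∃ z : Fin V.dbl.len → ℝ, z ≠ 0 ∧ ((j : ℝ) + 1) ^ 2 * V.dbl.nZ z ^ 2 ≤ ∑ i, z i ^ 2 := by
  obtain ⟨V, hn, h1, z, hz, h2⟩ := exists_block0 n j
  refine ⟨V, hn, ?_, ?_⟩
  · intro (z : Fin (V.len * 2) → ℝ)
    show ∑ i : Fin (V.len * 2), z i ^ 2 ≤ _
    rw [WS2.sum_md, V.dbl_nZ]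
    exact h1 _
  · let w : Fin (V.len * 2) → ℝ := fun i => if i = up0 (dn i) then z (dn i) else 0
    have hw0 : ∀ q, w (up0 q) = z q := by
      intro q
      show (if up0 q = up0 (dn (up0 q)) then z (dn (up0 q)) else 0) = _
      rw [dn_up0, if_pos rfl]
    have hw1 : ∀ q, w (up1 q) = 0 := by
      intro q
      show (if up1 q = up0 (dn (up1 q)) then z (dn (up1 q)) else 0) = _
      rw [dn_up1, if_neg (WS2.up1_ne_up0 q)]
    have hmd : ∀ q, WS2.md w q ^ 2 = z q ^ 2 := by
      intro q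
      rw [WS2.md_sq, hw0, hw1]
      ring
    refine ⟨w, ?_, ?_⟩
    · intro h0
      apply hz
      funext q
      rw [← hw0 q]
      exact congrFun h0 _
    · show _ ≤ ∑ i : Fin (V.len * 2), w i ^ 2
      rw [WS2.sum_md, V.dbl_nZ, Finset.sum_congr rfl fun q _ => hmd q]
      have e : V.nZ (WS2.md w) = V.nZ z := by
        refine V.toWS.nZ_congr_abs fun q => ?_
        exact (sq_eq_sq_iff_abs_eq_abs _ _).1 (hmd q)
      rw [e]
      exact h2

/-- A whole sequence of blocks, far apart from each other. `k j = 2 * j + 4` is the number of levels.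
PROOF: recursion on `j` using `exists_block`; `((j+1)^2+1) ≤ 2^(2j+4)`. -/
theorem exists_blocks : ∃ V : ℕ → WS2,
    (16 + 100 * 7) ^ 27 ≤ (V 0).n ∧
    (∀ j, ((V j).n + (V j).dbl.len + 100 * (2 * (j + 1) + 7)) ^ 9 ≤ (V (j + 1)).n) ∧
    (∀ j, ∀ z : Fin (V j).dbl.len → ℝ, ∑ i, z i ^ 2 ≤ 2 ^ (2 * j + 4) * (V j).dbl.nZ z ^ 2) ∧
    (∀ j, ∃ z : Fin (V j).dbl.len → ℝ, z ≠ 0 ∧
      ((j : ℝ) + 1) ^ 2 * (V j).dbl.nZ z ^ 2 ≤ ∑ i, z i ^ 2) := by
  choose F hFn hF1 hF2 using exists_block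
  obtain ⟨W, hW0, hW⟩ : ∃ W : ℕ → WS2, W 0 = F ((16 + 100 * 7) ^ 27) 0 ∧
      ∀ j, W (j + 1) = F (((W j).n + (W j).dbl.len + 100 * (2 * (j + 1) + 7)) ^ 9) (j + 1) :=
    ⟨fun j => Nat.rec (F ((16 + 100 * 7) ^ 27) 0)
      (fun j V => F ((V.n + V.dbl.len + 100 * (2 * (j + 1) + 7)) ^ 9) (j + 1)) j, rfl, fun _ => rfl⟩
  have hform : ∀ j, ∃ n, W j = F n j := by
    intro j
    cases j with
    | zero => exact ⟨_, hW0⟩
    | succ j => exact ⟨_, hW j⟩
  refine ⟨W, ?_, ?_, ?_, ?_⟩
  · rw [hW0, hFn]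
  · intro j
    rw [hW j, hFn]
  · intro j z
    obtain ⟨n, hn⟩ := hform j
    have h1 : ∀ V : WS2, V = F n j → ∀ z : Fin V.dbl.len → ℝ,
        ∑ i, z i ^ 2 ≤ (((j : ℝ) + 1) ^ 2 + 1) * V.dbl.nZ z ^ 2 := by
      rintro V rfl z
      exact hF1 n j z
    have h2 : (((j : ℝ) + 1) ^ 2 + 1) ≤ 2 ^ (2 * j + 4) := by
      have h3 : ((j : ℝ) + 1) ≤ 2 ^ j := by
        have : j + 1 ≤ 2 ^ j := Nat.lt_two_pow_self
        exact_mod_cast this
      have h4 : (2 : ℝ) ^ (2 * j + 4) = 16 * ((2 : ℝ) ^ j) ^ 2 := by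
        rw [pow_add, mul_comm 2 j, pow_mul]; ring
      have h5 : (1 : ℝ) ≤ 2 ^ j := one_le_pow₀ (by norm_num)
      rw [h4]
      nlinarith
    exact (h1 (W j) hn z).trans (mul_le_mul_of_nonneg_right h2 (sq_nonneg _))
  · intro j
    obtain ⟨n, hn⟩ := hform j
    have h1 : ∀ V : WS2, V = F n j → ∃ z : Fin V.dbl.len → ℝ, z ≠ 0 ∧
        ((j : ℝ) + 1) ^ 2 * V.dbl.nZ z ^ 2 ≤ ∑ i, z i ^ 2 := by
      rintro V rfl
      exact hF2 n j
    exact h1 (W j) hn

end Pool.Agent.MP_1b7159_an
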