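import Mathlib

/-!
# MP_1b7159_an: basic definitions

Bilinear extension property for subspaces (BEPS), Rademacher type 2, weight systems (blocks), their two norms.
-/

set_option autoImplicit false

open Finset

namespace Pool.Agent.MP_1b7159_an

/-- The bilinear extension property for (closed) subspaces: every bounded bilinear form on a closed
subspace `Y` extends to a bounded bilinear form on `X`. -/
def BEPS (X : Type*) [NormedAddCommGroup X] [NormedSpace ℝ X] : Prop :=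
  ∀ Y : Submodule ℝ X, IsClosed (Y : Set X) → ∀ B : Y →ₗ[ℝ] Y →ₗ[ℝ] ℝ,
    (∃ M : ℝ, ∀ y z : Y, |B y z| ≤ M * ‖y‖ * ‖z‖) →
    ∃ B' : X →ₗ[ℝ] X →ₗ[ℝ] ℝ, (∃ M : ℝ, ∀ x z : X, |B' x z| ≤ M * ‖x‖ * ‖z‖) ∧
      ∀ y z : Y, B' (y : X) (z : X) = B y z

/-- Rademacher type 2 (squared form): the average over all signs. -/
def HasType2 (X : Type*) [NormedAddCommGroup X] [NormedSpace ℝ X] : Prop :=
  ∃ C : ℝ, ∀ (n : ℕ) (x : Fin n → X),
    (∑ ε : Fin n → Bool, ‖∑ i, (if ε i then (1 : ℝ) else -1) • x i‖ ^ 2) / 2 ^ n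
      ≤ C ^ 2 * ∑ i, ‖x i‖ ^ 2

/-- The growth function. -/
def phi (m : ℕ) : ℕ := 32 * (m + 1) ^ 11 * 5 ^ (m ^ 9)

theorem phi_mono : Monotone phi := by
  intro a b h
  unfold phi
  gcongr
  · norm_num

theorem five_pow_le_phi (m : ℕ) : 5 ^ (m ^ 9) ≤ phi m := by
  unfold phi
  have : 1 ≤ 32 * (m + 1) ^ 11 := by
    have : 1 ≤ (m + 1) ^ 11 := Nat.one_le_pow _ _ (Nat.succ_pos _)
    omega
  nlinarith [pow_pos (show 0 < 5 by norm_num) (m ^ 9)]

theorem poly_le_phi (m : ℕ) : 32 * (m + 1) ^ 11 ≤ phi m := by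
  unfold phi
  exact Nat.le_mul_of_pos_right _ (pow_pos (by norm_num) _)

theorem phi_pos (m : ℕ) : 0 < phi m := by
  unfold phi; positivity

/-- A faster growth function, used for the tree weights. -/
def phi2 (m : ℕ) : ℕ := phi (2 * m + 1)

theorem phi2_mono : Monotone phi2 := by
  intro a b h
  unfold phi2
  exact phi_mono (by omega)

theorem phi_le_phi2 (m : ℕ) : phi m ≤ phi2 m := phi_mono (by omega)

/-- A block: a finite interval `[n, n + len)` of positions with a set `A` of weights. -/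
structure WS where
  n : ℕ
  len : ℕ
  A : Set (Fin len → ℝ)
  compact : IsCompact A
  convex : Convex ℝ A
  nonneg : ∀ a ∈ A, ∀ i, 0 ≤ a i
  le_one : ∀ a ∈ A, ∀ i, a i ≤ 1
  single : ∀ i, Pi.single i (1 : ℝ) ∈ A
  zero_mem : (0 : Fin len → ℝ) ∈ A
  solid : ∀ a ∈ A, ∀ b : Fin len → ℝ, (∀ i, 0 ≤ b i) → (∀ i, b i ≤ a i) → b ∈ A
  half : ∀ (N L : ℕ), L ≤ phi N → ∀ a : Fin L → Fin len → ℝ, (∀ l, a l ∈ A) →
    ∀ b : Fin len → ℝ, (∀ i, 0 ≤ b i) →
      (∀ i, b i ≠ 0 → N ≤ n + (i : ℕ) ∧ ∃ l, b i ≤ a l i / 2) → b ∈ A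

namespace WS

/-- The `Z`-norm (2-convex). -/
noncomputable def nZ (W : WS) (z : Fin W.len → ℝ) : ℝ :=
  Real.sqrt (sSup ((fun a : Fin W.len → ℝ => ∑ i, a i * z i ^ 2) '' W.A))

/-- The dual norm. -/
noncomputable def nX (W : WS) (g : Fin W.len → ℝ) : ℝ :=
  sSup {r : ℝ | ∃ z : Fin W.len → ℝ, W.nZ z ≤ 1 ∧ r = ∑ i, g i * z i}

end WS

end Pool.Agent.MP_1b7159_an
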