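import Pool.Agent.Lib.MP_1b7159_an.Norms

/-!
# MP_1b7159_an JOB F2: optimal weights
-/

set_option autoImplicit false

open Finset

namespace Pool.Agent.MP_1b7159_an

namespace WS

variable (W : WS)

/-- the minimum of `Φ` exists -/
theorem f2_exists_min (g : Fin W.len → ℝ) :
    ∃ a ∈ W.A, (∀ i, g i ≠ 0 → 0 < a i) ∧
      ∀ b ∈ W.A, (∀ i, g i ≠ 0 → 0 < b i) → ∑ i, g i ^ 2 / a i ≤ ∑ i, g i ^ 2 / b i := by
  classical
  by_cases hg : ∀ i, g i = 0
  · refine ⟨0, W.zero_mem, fun i hi => absurd (hg i) hi, fun b hb _ => ?_⟩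
    simp [hg]
  push_neg at hg
  obtain ⟨i0, hi0⟩ := hg
  have hlen : 0 < W.len := i0.pos
  have hlen' : (0 : ℝ) < W.len := by exact_mod_cast hlen
  have ha0 : (fun _ => 1 / (W.len : ℝ)) ∈ W.A := by
    have h := W.convex.sum_mem (t := (univ : Finset (Fin W.len)))
      (w := fun _ => 1 / (W.len : ℝ)) (z := fun i => Pi.single i (1 : ℝ))
      (fun _ _ => by positivity) (by simp [hlen'.ne']) (fun i _ => W.single i)
    convert h using 1
    funext j
    simp [Finset.sum_apply, Pi.single_apply]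
  set a0 : Fin W.len → ℝ := fun _ => 1 / (W.len : ℝ) with ha0def
  set S : Finset (Fin W.len) := univ.filter (fun i => g i ≠ 0) with hSdef
  have hS : S.Nonempty := ⟨i0, by simp [hSdef, hi0]⟩
  set m : ℝ := S.inf' hS (fun i => g i ^ 2) with hmdef
  have hm : 0 < m := by
    rw [hmdef, Finset.lt_inf'_iff]
    intro i hi
    have : g i ≠ 0 := by simpa [hSdef] using hi
    positivity
  have hmle : ∀ i, g i ≠ 0 → m ≤ g i ^ 2 := fun i hi =>
    Finset.inf'_le (fun i => g i ^ 2) (by simp [hSdef, hi])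
  have hΦ0 : 0 ≤ ∑ i, g i ^ 2 / a0 i :=
    Finset.sum_nonneg fun i _ => div_nonneg (sq_nonneg _) (W.nonneg a0 ha0 i)
  set Φ0 : ℝ := ∑ i, g i ^ 2 / a0 i with hΦ0def
  set δ : ℝ := min (1 / (W.len : ℝ)) (m / (Φ0 + 1)) with hδdef
  have hδ : 0 < δ := lt_min (by positivity) (by positivity)
  have hclosed : IsClosed {a : Fin W.len → ℝ | ∀ i, g i ≠ 0 → δ ≤ a i} := by
    simp only [Set.setOf_forall]
    refine isClosed_iInter fun i => isClosed_iInter fun _ => ?_
    exact isClosed_le continuous_const (continuous_apply i)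
  have hK : IsCompact (W.A ∩ {a : Fin W.len → ℝ | ∀ i, g i ≠ 0 → δ ≤ a i}) :=
    W.compact.inter_right hclosed
  have hcont : ContinuousOn (fun a : Fin W.len → ℝ => ∑ i, g i ^ 2 / a i)
      (W.A ∩ {a : Fin W.len → ℝ | ∀ i, g i ≠ 0 → δ ≤ a i}) := by
    refine continuousOn_finset_sum _ fun i _ => ?_
    by_cases hgi : g i = 0
    · simp only [hgi, ne_eq, OfNat.ofNat_ne_zero, not_false_eq_true, zero_pow, zero_div]
      exact continuousOn_const
    · refine ContinuousOn.div continuousOn_const (continuous_apply i).continuousOn ?_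
      intro a ha
      exact (lt_of_lt_of_le hδ (ha.2 i hgi)).ne'
  obtain ⟨a, haK, hmin⟩ := hK.exists_isMinOn ⟨a0, ha0, fun i _ => min_le_left _ _⟩ hcont
  refine ⟨a, haK.1, fun i hi => lt_of_lt_of_le hδ (haK.2 i hi), fun b hb hbpos => ?_⟩
  by_cases hbK : ∀ i, g i ≠ 0 → δ ≤ b i
  · exact hmin ⟨hb, hbK⟩
  · push_neg at hbK
    obtain ⟨i, hgi, hlt⟩ := hbK
    have h1 : ∑ i, g i ^ 2 / a i ≤ Φ0 := hmin ⟨ha0, fun i _ => min_le_left _ _⟩
    have h2 : g i ^ 2 / b i ≤ ∑ i, g i ^ 2 / b i :=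
      Finset.single_le_sum (f := fun i => g i ^ 2 / b i)
        (fun i _ => div_nonneg (sq_nonneg _) (W.nonneg b hb i)) (Finset.mem_univ i)
    have h3 : Φ0 + 1 ≤ g i ^ 2 / b i := by
      rw [le_div_iff₀ (hbpos i hgi)]
      have h4 : δ ≤ m / (Φ0 + 1) := min_le_right _ _
      rw [le_div_iff₀ (by positivity)] at h4
      have h5 := hmle i hgi
      have h6 : (Φ0 + 1) * b i ≤ δ * (Φ0 + 1) := by
        rw [mul_comm δ]
        exact mul_le_mul_of_nonneg_left hlt.le (by positivity)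
      linarith
    linarith

/-- the first order condition -/
theorem f2_first_order (g : Fin W.len → ℝ) {a : Fin W.len → ℝ} (ha : a ∈ W.A)
    (hpos : ∀ i, g i ≠ 0 → 0 < a i)
    (hmin : ∀ b ∈ W.A, (∀ i, g i ≠ 0 → 0 < b i) → ∑ i, g i ^ 2 / a i ≤ ∑ i, g i ^ 2 / b i)
    {a' : Fin W.len → ℝ} (ha' : a' ∈ W.A) :
    ∑ i, a' i * (g i / a i) ^ 2 ≤ ∑ i, g i ^ 2 / a i := by
  set F : ℝ → ℝ := fun t => ∑ i, g i ^ 2 * (a i - a' i) / (a i * ((1 - t) * a i + t * a' i))
    with hF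
  have hnn : ∀ t ∈ Set.Ioo (0 : ℝ) 1, 0 ≤ F t := by
    intro t ht
    have hb : (1 - t) • a + t • a' ∈ W.A :=
      W.convex ha ha' (by linarith [ht.2]) ht.1.le (by ring)
    have hbpos : ∀ i, g i ≠ 0 → 0 < ((1 - t) • a + t • a') i := by
      intro i hi
      simp only [Pi.add_apply, Pi.smul_apply, smul_eq_mul]
      have h1 := hpos i hi
      have h2 := W.nonneg a' ha' i
      have h3 : 0 < 1 - t := by linarith [ht.2]
      have h4 := ht.1
      positivity
    have h := hmin _ hb hbpos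
    have e : ∑ i, g i ^ 2 / ((1 - t) • a + t • a') i - ∑ i, g i ^ 2 / a i = t * F t := by
      rw [hF, Finset.mul_sum, ← Finset.sum_sub_distrib]
      refine Finset.sum_congr rfl fun i _ => ?_
      by_cases hgi : g i = 0
      · simp [hgi]
      · have h1 := (hpos i hgi).ne'
        have h2 := (hbpos i hgi).ne'
        simp only [Pi.add_apply, Pi.smul_apply, smul_eq_mul] at h2 ⊢
        rw [div_sub_div _ _ h2 h1, ← mul_div_assoc, div_eq_div_iff (mul_ne_zero h2 h1)
          (mul_ne_zero h1 h2)]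
        ring
    have h5 : 0 ≤ t * F t := by rw [← e]; linarith
    exact nonneg_of_mul_nonneg_right h5 ht.1
  have hcont : ContinuousAt F 0 := by
    rw [hF]
    refine tendsto_finset_sum _ fun i _ => ?_
    by_cases hgi : g i = 0
    · simp [hgi]
    · have h1 := (hpos i hgi).ne'
      refine ContinuousAt.div continuousAt_const (by fun_prop) ?_
      simp [h1]
  have h0 : 0 ≤ F 0 := by
    refine ge_of_tendsto (hcont.tendsto.mono_left (nhdsWithin_le_nhds (s := Set.Ioi 0))) ?_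
    filter_upwards [Ioo_mem_nhdsGT (zero_lt_one' ℝ)] with t ht using hnn t ht
  have e : F 0 = ∑ i, g i ^ 2 / a i - ∑ i, a' i * (g i / a i) ^ 2 := by
    rw [hF, ← Finset.sum_sub_distrib]
    refine Finset.sum_congr rfl fun i _ => ?_
    by_cases hgi : g i = 0
    · simp [hgi]
    · have h1 := (hpos i hgi).ne'
      simp only [sub_zero, one_mul, zero_mul, add_zero]
      field_simp
  rw [e] at h0
  linarith

/-- (F2) For every `g` there is a weight `a ∈ A`, positive on the support of `g`, with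
`nZ (g / a) ≤ nX g`.

PROOF. If `W.len = 0` trivial. Minimise `Φ(a) = ∑_{i : g i ≠ 0} g_i²/a_i` over `a ∈ A`
(a point with all coordinates positive exists: `(1/len) • 1 ∈ A`, as `A` is convex and contains all
`Pi.single i 1`; restrict to the compact set `A ∩ {a | a_i ≥ δ for g i ≠ 0}` with `δ` so small that outside
of it `Φ` is larger than at that point: `Φ` is continuous there, so a minimum exists, and it is the minimum
over all `a ∈ A` positive on the support). For `a' ∈ A` and `t ∈ (0,1]` put `a_t = (1-t) a + t a'`.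
`0 ≤ Φ(a_t) - Φ(a) = t ∑ g_i² (a_i - a'_i)/(a_i a_t,i)`; divide by `t` and let `t → 0`:
`∑ g_i² a'_i / a_i² ≤ ∑ g_i²/a_i = Φ(a)`. Hence `nZ(g/a)² ≤ Φ(a) = ∑ g_i (g_i/a_i) ≤ nX g * nZ (g/a)`,
so `nZ (g/a) ≤ nX g` (if `nZ (g/a) = 0` trivial; otherwise divide). -/
theorem exists_weight (g : Fin W.len → ℝ) :
    ∃ a ∈ W.A, (∀ i, g i ≠ 0 → 0 < a i) ∧ W.nZ (fun i => g i / a i) ≤ W.nX g := by
  obtain ⟨a, ha, hpos, hmin⟩ := W.f2_exists_min g
  refine ⟨a, ha, hpos, ?_⟩
  have h1 : ∀ a' ∈ W.A, ∑ i, a' i * (g i / a i) ^ 2 ≤ ∑ i, g i ^ 2 / a i :=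
    fun a' ha' => W.f2_first_order g ha hpos hmin ha'
  have h2 : W.nZ (fun i => g i / a i) ^ 2 ≤ ∑ i, g i ^ 2 / a i := W.nZ_sq_le h1
  have h3 : ∑ i, g i ^ 2 / a i = ∑ i, g i * (g i / a i) := by
    refine Finset.sum_congr rfl fun i _ => ?_
    rw [sq, mul_div_assoc]
  have h4 := W.pair_le g (fun i => g i / a i)
  rw [h3] at h2
  have h5 := W.nZ_nonneg (fun i => g i / a i)
  rcases h5.eq_or_lt with h0 | h0
  · rw [← h0]
    exact W.nX_nonneg g
  · nlinarith

end WS

end Pool.Agent.MP_1b7159_an
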