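import Pool.Agent.Lib.MP_1b7159_an.F2

/-!
# MP_1b7159_an JOB HL: the Hilbertian lemma
-/

set_option autoImplicit false

open Finset

namespace Pool.Agent.MP_1b7159_an

namespace WS

variable (W : WS)

/-- Abstract net lemma for a norm on a finite dimensional space. -/
theorem hl_net {E : Type*} [AddCommGroup E] [Module ℝ E] [FiniteDimensional ℝ E] (N : E → ℝ)
    (hadd : ∀ x y, N (x + y) ≤ N x + N y) (hsmul : ∀ (c : ℝ) x, N (c • x) = |c| * N x)
    (hzero : ∀ x, N x = 0 → x = 0) (hnn : ∀ x, 0 ≤ N x) :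
    ∃ s : Finset E, s.card ≤ 5 ^ Module.finrank ℝ E ∧ (∀ c ∈ s, N c = 1) ∧
      ∀ g, N g = 1 → ∃ c ∈ s, N (g - c) ≤ 1 / 2 := by
  classical
  let : Norm E := ⟨N⟩
  have core : NormedSpace.Core ℝ E :=
    { norm_nonneg := hnn
      norm_smul := hsmul
      norm_triangle := hadd
      norm_eq_zero_iff := fun x => ⟨hzero x, fun h => by
        have h1 := hsmul 0 x
        rw [h, smul_zero, abs_zero, zero_mul] at h1
        rw [h]
        exact h1⟩ }
  let : NormedAddCommGroup E := NormedAddCommGroup.ofCore core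
  let : NormedSpace ℝ E := NormedSpace.ofCore core
  have hN : ∀ x : E, ‖x‖ = N x := fun x => rfl
  have hcard : ∀ s : Finset E, (∀ c ∈ s, N c = 1) → (∀ c ∈ s, ∀ d ∈ s, c ≠ d → 1 / 2 ≤ N (c - d)) →
      s.card ≤ 5 ^ Module.finrank ℝ E := by
    intro s h1 h2
    have hinj : Function.Injective (fun x : E => (2 : ℝ) • x) :=
      smul_right_injective E (two_ne_zero)
    have := Besicovitch.card_le_of_separated (E := E) (s.image (fun x : E => (2 : ℝ) • x)) (by
      intro c hc
      obtain ⟨d, hd, rfl⟩ := Finset.mem_image.1 hc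
      rw [hN, hsmul, h1 d hd]
      norm_num) (by
      intro c hc c' hc' hne
      obtain ⟨d, hd, rfl⟩ := Finset.mem_image.1 hc
      obtain ⟨d', hd', rfl⟩ := Finset.mem_image.1 hc'
      have hdd : d ≠ d' := fun h => hne (by rw [h])
      have := h2 d hd d' hd' hdd
      have e : (2 : ℝ) • d - (2 : ℝ) • d' = (2 : ℝ) • (d - d') := by rw [smul_sub]
      rw [hN, e, hsmul, abs_of_pos (by norm_num : (0 : ℝ) < 2)]
      linarith)
    rwa [Finset.card_image_of_injective _ hinj] at this
  let P : ℕ → Prop := fun k => ∃ s : Finset E, s.card = k ∧ (∀ c ∈ s, N c = 1) ∧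
    (∀ c ∈ s, ∀ d ∈ s, c ≠ d → 1 / 2 ≤ N (c - d))
  have hP0 : P 0 := ⟨∅, by simp, by simp, by simp⟩
  have hspec := Nat.findGreatest_spec (P := P) (Nat.zero_le (5 ^ Module.finrank ℝ E)) hP0
  obtain ⟨s, hs, h1, h2⟩ := hspec
  refine ⟨s, hcard s h1 h2, h1, ?_⟩
  intro g hg
  by_contra hcon
  push Not at hcon
  have hgs : g ∉ s := by
    intro hmem
    have := hcon g hmem
    have h0 : N (g - g) = 0 := by
      have := hsmul 0 g
      simpa using this
    rw [h0] at this
    norm_num at this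
  have hP : P (s.card + 1) := by
    refine ⟨insert g s, Finset.card_insert_of_notMem hgs, ?_, ?_⟩
    · intro c hc
      rcases Finset.mem_insert.1 hc with rfl | hc
      · exact hg
      · exact h1 c hc
    · intro c hc d hd hne
      rcases Finset.mem_insert.1 hc with hc1 | hc1
      · rcases Finset.mem_insert.1 hd with hd1 | hd1
        · exact absurd (hc1.trans hd1.symm) hne
        · rw [hc1]
          exact (hcon d hd1).le
      · rcases Finset.mem_insert.1 hd with hd1 | hd1
        · have := (hcon c hc1).le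
          rw [hd1, ← hN, norm_sub_rev, hN]
          exact this
        · exact h2 c hc1 d hd1 hne
  have hle : s.card + 1 ≤ 5 ^ Module.finrank ℝ E := by
    obtain ⟨t, ht, ht1, ht2⟩ := hP
    rw [← ht]
    exact hcard t ht1 ht2
  have := Nat.le_findGreatest hle hP
  omega

/-- Approximation: a seminorm which is at most `c` on a `1/2`-net of the sphere is at most `2 c`. -/
theorem hl_approx {n : ℕ} (G : Submodule ℝ (Fin n → ℝ)) (N F : (Fin n → ℝ) → ℝ)
    (s : Finset G)
    (hsmul : ∀ (c : ℝ) x, N (c • x) = |c| * N x)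
    (hzero : ∀ x, N x = 0 → x = 0) (hnn : ∀ x, 0 ≤ N x)
    (hs : ∀ g ∈ G, N g = 1 → ∃ c ∈ s, N (g - (c : Fin n → ℝ)) ≤ 1 / 2)
    (hFadd : ∀ x y, F (x + y) ≤ F x + F y) (hFsmul : ∀ (c : ℝ) x, F (c • x) = |c| * F x)
    (K : ℝ) (hK : 0 ≤ K) (hFK : ∀ g, F g ≤ K * N g) (c : ℝ) (hc0 : 0 ≤ c)
    (hc : ∀ x ∈ s, F (x : Fin n → ℝ) ≤ c)
    (g : Fin n → ℝ) (hg : g ∈ G) : F g ≤ 2 * c * N g := by
  have key : ∀ k : ℕ, ∀ g ∈ G, F g ≤ (2 * c + K / 2 ^ k) * N g := by
    intro k
    induction k with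
    | zero =>
      intro g hg
      have h1 := hFK g
      have h2 : 0 ≤ 2 * c * N g := mul_nonneg (by linarith) (hnn g)
      calc F g ≤ K * N g := h1
        _ ≤ (2 * c + K / 2 ^ 0) * N g := by
          rw [pow_zero, div_one, add_mul]
          linarith
    | succ k ih =>
      intro g hg
      rcases eq_or_ne (N g) 0 with h0 | h0
      · have hg := hzero g h0
        have : F g = 0 := by
          have := hFsmul 0 g
          rw [zero_smul, abs_zero, zero_mul] at this
          rw [hg]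
          exact this
        rw [this, h0, mul_zero]
      · have hpos : 0 < N g := lt_of_le_of_ne (hnn g) (Ne.symm h0)
        obtain ⟨u, hu⟩ : ∃ u : Fin n → ℝ, u = (N g)⁻¹ • g := ⟨_, rfl⟩
        have hNu : N u = 1 := by
          rw [hu, hsmul, abs_of_pos (inv_pos.2 hpos), inv_mul_cancel₀ h0]
        have huG : u ∈ G := by
          rw [hu]
          exact G.smul_mem _ hg
        obtain ⟨γ, hγ, hd⟩ := hs u huG hNu
        have h1 : F u ≤ F (γ : Fin n → ℝ) + F (u - (γ : Fin n → ℝ)) := by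
          have := hFadd (γ : Fin n → ℝ) (u - (γ : Fin n → ℝ))
          rwa [add_sub_cancel] at this
        have h2 := ih (u - (γ : Fin n → ℝ)) (G.sub_mem huG γ.2)
        have h3 := hc γ hγ
        have hco : 0 ≤ 2 * c + K / 2 ^ k := by positivity
        have h4 : (2 * c + K / 2 ^ k) * N (u - (γ : Fin n → ℝ)) ≤ (2 * c + K / 2 ^ k) * (1 / 2) :=
          mul_le_mul_of_nonneg_left hd hco
        have h5 : F u ≤ 2 * c + K / 2 ^ (k + 1) := by
          have e : K / 2 ^ (k + 1) = K / 2 ^ k * (1 / 2) := by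
            rw [pow_succ]
            field_simp
          rw [e]
          linarith
        have hgu : g = N g • u := by
          rw [hu, smul_smul, mul_inv_cancel₀ h0, one_smul]
        calc F g = N g * F u := by
              conv_lhs => rw [hgu, hFsmul, abs_of_pos hpos]
          _ ≤ N g * (2 * c + K / 2 ^ (k + 1)) := mul_le_mul_of_nonneg_left h5 hpos.le
          _ = _ := mul_comm _ _
  have hlim : Filter.Tendsto (fun k : ℕ => (2 * c + K / 2 ^ k) * N g) Filter.atTop
      (nhds ((2 * c + 0) * N g)) := by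
    refine Filter.Tendsto.mul_const _ (Filter.Tendsto.const_add _ ?_)
    have h := (tendsto_pow_atTop_nhds_zero_of_lt_one (by norm_num : (0 : ℝ) ≤ 1 / 2)
      (by norm_num : (1 / 2 : ℝ) < 1)).const_mul K
    rw [mul_zero] at h
    refine h.congr fun k => ?_
    rw [one_div, inv_pow, div_eq_mul_inv]
  rw [add_zero] at hlim
  exact ge_of_tendsto' hlim fun k => key k g hg

theorem hl_nZ_le_sum (z : Fin W.len → ℝ) : W.nZ z ≤ ∑ i, |z i| := by
  refine W.nZ_le_of_sq (Finset.sum_nonneg fun i _ => abs_nonneg _) fun a ha => ?_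
  have h1 : ∑ i, a i * z i ^ 2 ≤ ∑ i, |z i| * (∑ j, |z j|) := by
    refine Finset.sum_le_sum fun i _ => ?_
    have h2 := W.le_one a ha i
    have h3 : |z i| ≤ ∑ j, |z j| :=
      Finset.single_le_sum (f := fun j => |z j|) (fun j _ => abs_nonneg _) (Finset.mem_univ i)
    calc a i * z i ^ 2 ≤ 1 * z i ^ 2 := mul_le_mul_of_nonneg_right h2 (sq_nonneg _)
      _ = |z i| * |z i| := by rw [one_mul, ← sq_abs, sq]
      _ ≤ |z i| * ∑ j, |z j| := mul_le_mul_of_nonneg_left h3 (abs_nonneg _)
  rw [← Finset.sum_mul, ← sq] at h1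
  exact h1

/-- (HL) A subspace `G` supported in positions `≥ p` with `5 ^ dim G ≤ phi p` is Hilbertian and
complemented through one weight `a`.

PROOF. Put the norm `nX` on `G` (`AddGroupNorm`/`NormedAddCommGroup` on a type synonym, or
`Seminorm`); let `Γ` be a maximal subset of the unit sphere `{g ∈ G | nX g = 1}` with pairwise
distances `≥ 1/2`. `2 • Γ` is `1`-separated in the ball of radius 2, so
`Besicovitch.card_le_of_separated` gives `|Γ| ≤ 5 ^ finrank G ≤ phi p`.
For `γ ∈ Γ` take `a_γ` from `exists_weight`, multiplied by the indicator of the support of `γ`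
(`solid`; `γ / a_γ` does not change). Let `a = (1/2) max_γ a_γ` (`0` if `G = 0`): `a ∈ A` by `W.half`
with `N = p`, `L = |Γ|`.
`Γ` spans `G` (each unit vector is within distance `< 1/2 + ε`... by maximality within `< 1/2`, of some `γ`, so
no proper subspace contains `Γ`: e.g. if all `γ` vanish at `i` then `g i = 0` for all `g ∈ G`:
`|g i| = |(g - γ) i|`; put `m = sup {|g i| : nX g ≤ 1, g ∈ G}`, then `m ≤ m / 2`). So `a i > 0` if some
`g ∈ G` has `g i ≠ 0`.
`|γ i / a i| ≤ 2 |γ i / a_γ i|`, so `nZ (γ / a) ≤ 2 nZ (γ / a_γ) ≤ 2`.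
Let `M = sup {nZ (g / a) : g ∈ G, nX g ≤ 1}` (finite: `nZ (g/a)² ≤ ∑ (g_i/a_i)²`, `|g i| ≤ nX g`).
For a unit vector `g` take `γ` with `nX (g - γ) ≤ 1/2`: `nZ (g/a) ≤ 2 + M/2`. So `M ≤ 4`.
The third claim is `nX_sq_le_of_weight`. -/
theorem hilbertian (G : Submodule ℝ (Fin W.len → ℝ)) (p : ℕ)
    (hsupp : ∀ g ∈ G, ∀ i, g i ≠ 0 → p ≤ W.n + (i : ℕ))
    (hdim : 5 ^ Module.finrank ℝ G ≤ phi p) :
    ∃ a ∈ W.A, (∀ g ∈ G, ∀ i, g i ≠ 0 → 0 < a i) ∧
      (∀ g ∈ G, W.nZ (fun i => g i / a i) ≤ 4 * W.nX g) ∧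
      (∀ g ∈ G, W.nX g ^ 2 ≤ ∑ i, g i ^ 2 / a i) := by
  classical
  -- the norm on `G`
  have hNadd : ∀ x y : G, W.nX ((x + y : G) : Fin W.len → ℝ) ≤ W.nX (x : Fin W.len → ℝ)
      + W.nX (y : Fin W.len → ℝ) := fun x y => by
    rw [Submodule.coe_add]
    exact W.nX_add_le _ _
  have hNsmul : ∀ (c : ℝ) (x : G), W.nX ((c • x : G) : Fin W.len → ℝ) = |c| * W.nX (x : Fin W.len → ℝ) :=
    fun c x => by
      rw [Submodule.coe_smul]
      exact W.nX_smul _ _
  have hNzero : ∀ x : G, W.nX (x : Fin W.len → ℝ) = 0 → x = 0 := fun x hx =>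
    Subtype.ext (W.eq_zero_of_nX_eq_zero hx)
  have hNnn : ∀ x : G, 0 ≤ W.nX (x : Fin W.len → ℝ) := fun x => W.nX_nonneg _
  obtain ⟨s, hscard, hs1, hs2⟩ := hl_net (fun x : G => W.nX (x : Fin W.len → ℝ)) hNadd hNsmul
    hNzero hNnn
  have hs3 : ∀ g ∈ G, W.nX g = 1 → ∃ c ∈ s, W.nX (g - (c : Fin W.len → ℝ)) ≤ 1 / 2 :=
    fun g hg h1 => hs2 ⟨g, hg⟩ h1
  -- the weights
  choose a0 ha0 hpos0 hZ0 using fun g : Fin W.len → ℝ => W.exists_weight g
  let a1 : G → Fin W.len → ℝ := fun γ i => if (γ : Fin W.len → ℝ) i = 0 then 0 else a0 γ i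
  have ha1 : ∀ γ, a1 γ ∈ W.A := by
    intro γ
    refine W.solid (a0 γ) (ha0 γ) (a1 γ) (fun i => ?_) (fun i => ?_)
    · simp only [a1]
      split_ifs
      · exact le_rfl
      · exact W.nonneg _ (ha0 γ) i
    · simp only [a1]
      split_ifs
      · exact W.nonneg _ (ha0 γ) i
      · exact le_rfl
  have ha1nn : ∀ γ i, 0 ≤ a1 γ i := fun γ i => W.nonneg _ (ha1 γ) i
  obtain ⟨a, hadef⟩ : ∃ a : Fin W.len → ℝ, a = fun i => (⨆ γ : s, a1 γ i) / 2 := ⟨_, rfl⟩
  have hle : ∀ γ ∈ s, ∀ i, a1 γ i / 2 ≤ a i := by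
    intro γ hγ i
    have : a1 γ i ≤ ⨆ γ : s, a1 γ i :=
      le_ciSup (f := fun γ : s => a1 γ i) (Set.finite_range _).bddAbove ⟨γ, hγ⟩
    simp only [hadef]
    linarith
  have hann : ∀ i, 0 ≤ a i := by
    intro i
    have : 0 ≤ ⨆ γ : s, a1 γ i := Real.iSup_nonneg fun γ => ha1nn _ _
    simp only [hadef]
    linarith
  have hex : ∀ i, a i ≠ 0 → ∃ γ ∈ s, a i = a1 γ i / 2 := by
    intro i hi
    rcases isEmpty_or_nonempty s with he | hne
    · exfalso
      apply hi
      simp only [hadef]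
      rw [Real.iSup_of_isEmpty, zero_div]
    · obtain ⟨γ, hγ⟩ := exists_eq_ciSup_of_finite (f := fun γ : s => a1 γ i)
      exact ⟨γ, γ.2, by simp only [hadef]; rw [← hγ]⟩
  have haA : a ∈ W.A := by
    have hL : s.card ≤ phi p := hscard.trans hdim
    refine W.half p s.card hL (fun l => a1 (s.equivFin.symm l)) (fun l => ha1 _) a hann ?_
    intro i hi
    obtain ⟨γ, hγ, hγi⟩ := hex i hi
    refine ⟨?_, s.equivFin ⟨γ, hγ⟩, ?_⟩
    · refine hsupp γ γ.2 i ?_
      intro h0
      apply hi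
      rw [hγi]
      simp only [a1]
      rw [if_pos h0, zero_div]
    · rw [Equiv.symm_apply_apply, hγi]
  have hposa : ∀ g ∈ G, ∀ i, g i ≠ 0 → 0 < a i := by
    intro g hg i hgi
    by_contra hcon
    have hai : a i = 0 := le_antisymm (not_lt.1 hcon) (hann i)
    have hzero : ∀ γ ∈ s, (γ : Fin W.len → ℝ) i = 0 := by
      intro γ hγ
      by_contra hne
      have h1 := hle γ hγ i
      have h2 : a1 γ i = a0 γ i := by
        simp only [a1]
        rw [if_neg hne]
      have h3 := hpos0 γ i hne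
      rw [hai, h2] at h1
      linarith
    have this2 := hl_approx G W.nX (fun x => |x i|) s W.nX_smul
      (fun x hx => W.eq_zero_of_nX_eq_zero hx) W.nX_nonneg hs3
      (fun x y => abs_add_le _ _) (fun c x => abs_mul _ _)
      1 zero_le_one (fun x => by
        rw [one_mul]
        exact W.abs_le_nX _ i) 0 le_rfl (fun x hx => by
        rw [hzero x hx, abs_zero]) g hg
    rw [mul_zero, zero_mul] at this2
    exact hgi (abs_eq_zero.1 (le_antisymm this2 (abs_nonneg _)))
  refine ⟨a, haA, hposa, ?_, fun g hg => W.nX_sq_le_of_weight haA g (hposa g hg)⟩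
  intro g hg
  have hfin := hl_approx G W.nX
    (fun x => W.nZ (fun i => x i / a i)) s W.nX_smul
    (fun x hx => W.eq_zero_of_nX_eq_zero hx) W.nX_nonneg hs3
    (fun x y => by
      have e : (fun i => (x + y) i / a i)
          = (fun i => x i / a i) + (fun i => y i / a i) := by
        funext i
        simp only [Pi.add_apply, add_div]
      rw [e]
      exact W.nZ_add_le _ _)
    (fun c x => by
      have e : (fun i => (c • x) i / a i)
          = c • (fun i => x i / a i) := by
        funext i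
        simp only [Pi.smul_apply, smul_eq_mul, mul_div_assoc]
      rw [e]
      exact W.nZ_smul _ _)
    (∑ i, 1 / a i) (Finset.sum_nonneg fun i _ => div_nonneg zero_le_one (hann i)) (fun x => by
      refine (W.hl_nZ_le_sum _).trans ?_
      rw [Finset.sum_mul]
      refine Finset.sum_le_sum fun i _ => ?_
      rw [abs_div, abs_of_nonneg (hann i), div_eq_mul_one_div, mul_comm]
      exact mul_le_mul_of_nonneg_left (W.abs_le_nX _ i) (div_nonneg zero_le_one (hann i)))
    2 zero_le_two (fun γ hγ => by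
      have h1 : W.nZ (fun i => (γ : Fin W.len → ℝ) i / a i)
          ≤ W.nZ ((2 : ℝ) • fun i => (γ : Fin W.len → ℝ) i / a0 γ i) := by
        refine W.nZ_mono fun i => ?_
        by_cases h0 : (γ : Fin W.len → ℝ) i = 0
        · rw [h0, zero_div, abs_zero]
          exact abs_nonneg _
        · have h2 := hle γ hγ i
          have h3 : a1 γ i = a0 γ i := by
            simp only [a1]
            rw [if_neg h0]
          have h4 := hpos0 γ i h0
          rw [h3] at h2
          have h5 : 0 < a i := by linarith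
          rw [Pi.smul_apply, smul_eq_mul, abs_mul, abs_div, abs_div, abs_of_pos h5,
            abs_of_pos h4, abs_of_pos (by norm_num : (0 : ℝ) < 2)]
          rw [← mul_div_assoc, div_le_div_iff₀ h5 h4]
          have := abs_nonneg ((γ : Fin W.len → ℝ) i)
          nlinarith
      have h2 := hZ0 (γ : Fin W.len → ℝ)
      rw [W.nZ_smul, abs_of_pos (by norm_num : (0 : ℝ) < 2)] at h1
      have h3 : W.nX (γ : Fin W.len → ℝ) = 1 := hs1 γ hγ
      rw [h3] at h2
      linarith) g hg
  linarith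

end WS

end Pool.Agent.MP_1b7159_an
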