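import Pool.Agent.Lib.MP_1b7159_an.Space
import Pool.Agent.Lib.MP_1b7159_an.Blocks

/-!
# MP_1b7159_an: the final theorem
-/

set_option autoImplicit false

open Finset

namespace Pool.Agent.MP_1b7159_an

theorem main : ∃ (X : Type) (_ : NormedAddCommGroup X) (_ : NormedSpace ℝ X)
    (_ : CompleteSpace X), BEPS X ∧ ¬ HasType2 X := by
  obtain ⟨V, h0, h1, h2, h3⟩ := exists_blocks
  refine ⟨XX (fun j => (V j).dbl), inferInstance, inferInstance, inferInstance, ?_,
    not_type2_XX (fun j => (V j).dbl) h3⟩
  refine beps_of_traceProp (by norm_num) (traceProp_XX (fun j => (V j).dbl)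
    (fun j => 2 * j + 4) h2 ?_ ?_ ?_)
  · refine le_trans ?_ h0
    norm_num
  · refine le_trans ?_ h0
    norm_num
  · intro j
    have := h1 j
    exact this

end Pool.Agent.MP_1b7159_an
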