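import Pool.Agent.Lib.MP_1b7159_an.Defs

/-!
# MP_1b7159_an: the norms `nZ`, `nX` of a block
-/

set_option autoImplicit false

open Finset

namespace Pool.Agent.MP_1b7159_an

namespace WS

variable (W : WS)

theorem continuous_q (z : Fin W.len → ℝ) :
    Continuous (fun a : Fin W.len → ℝ => ∑ i, a i * z i ^ 2) := by
  fun_prop

theorem bddAbove_q (z : Fin W.len → ℝ) :
    BddAbove ((fun a : Fin W.len → ℝ => ∑ i, a i * z i ^ 2) '' W.A) :=
  (W.compact.image (W.continuous_q z)).bddAbove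

theorem nonempty_q (z : Fin W.len → ℝ) :
    ((fun a : Fin W.len → ℝ => ∑ i, a i * z i ^ 2) '' W.A).Nonempty :=
  ⟨_, 0, W.zero_mem, rfl⟩

theorem sSup_nonneg' (z : Fin W.len → ℝ) :
    0 ≤ sSup ((fun a : Fin W.len → ℝ => ∑ i, a i * z i ^ 2) '' W.A) := by
  refine le_csSup_of_le (W.bddAbove_q z) ⟨0, W.zero_mem, rfl⟩ ?_
  simp

theorem nZ_sq (z : Fin W.len → ℝ) :
    W.nZ z ^ 2 = sSup ((fun a : Fin W.len → ℝ => ∑ i, a i * z i ^ 2) '' W.A) :=
  Real.sq_sqrt (W.sSup_nonneg' z)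

theorem nZ_nonneg (z : Fin W.len → ℝ) : 0 ≤ W.nZ z := Real.sqrt_nonneg _

theorem sum_le_nZ_sq {a : Fin W.len → ℝ} (ha : a ∈ W.A) (z : Fin W.len → ℝ) :
    ∑ i, a i * z i ^ 2 ≤ W.nZ z ^ 2 := by
  rw [nZ_sq]
  exact le_csSup (W.bddAbove_q z) ⟨a, ha, rfl⟩

theorem nZ_sq_le {z : Fin W.len → ℝ} {c : ℝ} (h : ∀ a ∈ W.A, ∑ i, a i * z i ^ 2 ≤ c) :
    W.nZ z ^ 2 ≤ c := by
  rw [nZ_sq]
  refine csSup_le (W.nonempty_q z) ?_
  rintro _ ⟨a, ha, rfl⟩
  exact h a ha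

theorem exists_eq_nZ_sq (z : Fin W.len → ℝ) : ∃ a ∈ W.A, ∑ i, a i * z i ^ 2 = W.nZ z ^ 2 := by
  obtain ⟨a, ha, h⟩ := (W.compact.image (W.continuous_q z)).sSup_mem (W.nonempty_q z)
  exact ⟨a, ha, by rw [nZ_sq]; exact h⟩

theorem nZ_le_of_sq {z : Fin W.len → ℝ} {c : ℝ} (hc : 0 ≤ c)
    (h : ∀ a ∈ W.A, ∑ i, a i * z i ^ 2 ≤ c ^ 2) : W.nZ z ≤ c :=
  (sq_le_sq₀ (W.nZ_nonneg z) hc).1 (W.nZ_sq_le h)

theorem abs_le_nZ (z : Fin W.len → ℝ) (i : Fin W.len) : |z i| ≤ W.nZ z := by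
  have h := W.sum_le_nZ_sq (W.single i) z
  have h2 : ∑ j, (Pi.single i (1 : ℝ) : Fin W.len → ℝ) j * z j ^ 2 = z i ^ 2 := by
    simp [Pi.single_apply]
  rw [h2] at h
  rw [← sq_abs] at h
  exact (sq_le_sq₀ (abs_nonneg _) (W.nZ_nonneg z)).1 h

theorem nZ_mono {z w : Fin W.len → ℝ} (h : ∀ i, |z i| ≤ |w i|) : W.nZ z ≤ W.nZ w := by
  refine W.nZ_le_of_sq (W.nZ_nonneg w) fun a ha => ?_
  refine le_trans ?_ (W.sum_le_nZ_sq ha w)
  refine Finset.sum_le_sum fun i _ => ?_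
  exact mul_le_mul_of_nonneg_left (sq_le_sq.2 (h i)) (W.nonneg a ha i)

theorem nZ_congr_abs {z w : Fin W.len → ℝ} (h : ∀ i, |z i| = |w i|) : W.nZ z = W.nZ w :=
  le_antisymm (W.nZ_mono fun i => (h i).le) (W.nZ_mono fun i => (h i).ge)

theorem nZ_sq_le_sum (z : Fin W.len → ℝ) : W.nZ z ^ 2 ≤ ∑ i, z i ^ 2 := by
  refine W.nZ_sq_le fun a ha => Finset.sum_le_sum fun i _ => ?_
  have := W.le_one a ha i
  nlinarith [sq_nonneg (z i), W.nonneg a ha i]

theorem nZ_zero : W.nZ 0 = 0 := by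
  have h := W.nZ_sq_le_sum 0
  simp only [Pi.zero_apply, ne_eq, OfNat.ofNat_ne_zero, not_false_eq_true, zero_pow,
    Finset.sum_const_zero] at h
  have := W.nZ_nonneg 0
  nlinarith

theorem eq_zero_of_nZ_eq_zero {z : Fin W.len → ℝ} (h : W.nZ z = 0) : z = 0 := by
  funext i
  have := W.abs_le_nZ z i
  rw [h] at this
  simpa using this

theorem nZ_smul (c : ℝ) (z : Fin W.len → ℝ) : W.nZ (c • z) = |c| * W.nZ z := by
  have key : ∀ (c : ℝ) (z : Fin W.len → ℝ), W.nZ (c • z) ≤ |c| * W.nZ z := by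
    intro c z
    refine W.nZ_le_of_sq (mul_nonneg (abs_nonneg _) (W.nZ_nonneg z)) fun a ha => ?_
    have h := W.sum_le_nZ_sq ha z
    have : ∑ i, a i * (c • z) i ^ 2 = c ^ 2 * ∑ i, a i * z i ^ 2 := by
      rw [Finset.mul_sum]
      refine Finset.sum_congr rfl fun i _ => ?_
      simp only [Pi.smul_apply, smul_eq_mul]
      ring
    rw [this, mul_pow, sq_abs]
    exact mul_le_mul_of_nonneg_left h (sq_nonneg c)
  refine le_antisymm (key c z) ?_
  rcases eq_or_ne c 0 with rfl | hc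
  · simp [W.nZ_nonneg]
  · have h := key c⁻¹ (c • z)
    rw [smul_smul, inv_mul_cancel₀ hc, one_smul, abs_inv] at h
    have hc' : 0 < |c| := abs_pos.2 hc
    calc |c| * W.nZ z ≤ |c| * (|c|⁻¹ * W.nZ (c • z)) := mul_le_mul_of_nonneg_left h hc'.le
      _ = W.nZ (c • z) := by field_simp

theorem nZ_neg (z : Fin W.len → ℝ) : W.nZ (-z) = W.nZ z :=
  W.nZ_congr_abs fun i => by simp

/-- Cauchy–Schwarz in one weight. -/
theorem cs_weight {n : ℕ} (a u v : Fin n → ℝ) (ha : ∀ i, 0 ≤ a i) :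
    (∑ i, a i * (u i * v i)) ^ 2 ≤ (∑ i, a i * u i ^ 2) * ∑ i, a i * v i ^ 2 := by
  have h := Finset.sum_mul_sq_le_sq_mul_sq Finset.univ (fun i => Real.sqrt (a i) * u i)
    (fun i => Real.sqrt (a i) * v i)
  have e1 : ∑ i, Real.sqrt (a i) * u i * (Real.sqrt (a i) * v i) = ∑ i, a i * (u i * v i) := by
    refine Finset.sum_congr rfl fun i _ => ?_
    have := Real.mul_self_sqrt (ha i)
    calc Real.sqrt (a i) * u i * (Real.sqrt (a i) * v i)
        = (Real.sqrt (a i) * Real.sqrt (a i)) * (u i * v i) := by ring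
      _ = _ := by rw [this]
  have e2 : ∀ w : Fin n → ℝ, ∑ i, (Real.sqrt (a i) * w i) ^ 2 = ∑ i, a i * w i ^ 2 := by
    intro w
    refine Finset.sum_congr rfl fun i _ => ?_
    rw [mul_pow, Real.sq_sqrt (ha i)]
  rw [e1, e2, e2] at h
  exact h

theorem nZ_add_le (z w : Fin W.len → ℝ) : W.nZ (z + w) ≤ W.nZ z + W.nZ w := by
  refine W.nZ_le_of_sq (add_nonneg (W.nZ_nonneg z) (W.nZ_nonneg w)) fun a ha => ?_
  have h1 := W.sum_le_nZ_sq ha z
  have h2 := W.sum_le_nZ_sq ha w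
  have h3 := cs_weight a z w (W.nonneg a ha)
  have e : ∑ i, a i * (z + w) i ^ 2
      = ∑ i, a i * z i ^ 2 + 2 * ∑ i, a i * (z i * w i) + ∑ i, a i * w i ^ 2 := by
    rw [Finset.mul_sum, ← Finset.sum_add_distrib, ← Finset.sum_add_distrib]
    refine Finset.sum_congr rfl fun i _ => ?_
    simp only [Pi.add_apply]
    ring
  have hz := W.nZ_nonneg z
  have hw := W.nZ_nonneg w
  have h4 : (∑ i, a i * (z i * w i)) ≤ W.nZ z * W.nZ w := by
    refine abs_le_of_sq_le_sq' ?_ (mul_nonneg hz hw) |>.2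
    refine h3.trans ?_
    rw [mul_pow]
    refine mul_le_mul h1 h2 ?_ (sq_nonneg _)
    exact Finset.sum_nonneg fun i _ => mul_nonneg (W.nonneg a ha i) (sq_nonneg _)
  rw [e]
  nlinarith

theorem nZ_sum_le {κ : Type*} (s : Finset κ) (z : κ → Fin W.len → ℝ) :
    W.nZ (∑ k ∈ s, z k) ≤ ∑ k ∈ s, W.nZ (z k) := by
  classical
  induction s using Finset.induction_on with
  | empty => simp [W.nZ_zero]
  | insert k s hk ih =>
    rw [Finset.sum_insert hk, Finset.sum_insert hk]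
    exact (W.nZ_add_le _ _).trans (by linarith)

/-! ### the dual norm -/

theorem pair_le_sum (g z : Fin W.len → ℝ) (hz : W.nZ z ≤ 1) : ∑ i, g i * z i ≤ ∑ i, |g i| := by
  refine Finset.sum_le_sum fun i _ => ?_
  have h1 := W.abs_le_nZ z i
  calc g i * z i ≤ |g i * z i| := le_abs_self _
    _ = |g i| * |z i| := abs_mul _ _
    _ ≤ |g i| * 1 := mul_le_mul_of_nonneg_left (h1.trans hz) (abs_nonneg _)
    _ = |g i| := mul_one _

theorem bddAbove_X (g : Fin W.len → ℝ) :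
    BddAbove {r : ℝ | ∃ z : Fin W.len → ℝ, W.nZ z ≤ 1 ∧ r = ∑ i, g i * z i} := by
  refine ⟨∑ i, |g i|, ?_⟩
  rintro r ⟨z, hz, rfl⟩
  exact W.pair_le_sum g z hz

theorem nonempty_X (g : Fin W.len → ℝ) :
    {r : ℝ | ∃ z : Fin W.len → ℝ, W.nZ z ≤ 1 ∧ r = ∑ i, g i * z i}.Nonempty :=
  ⟨0, 0, by rw [W.nZ_zero]; exact zero_le_one, by simp⟩

theorem nX_nonneg (g : Fin W.len → ℝ) : 0 ≤ W.nX g :=
  le_csSup (W.bddAbove_X g) ⟨0, by rw [W.nZ_zero]; exact zero_le_one, by simp⟩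

theorem pair_le (g z : Fin W.len → ℝ) : ∑ i, g i * z i ≤ W.nX g * W.nZ z := by
  rcases eq_or_ne (W.nZ z) 0 with h0 | h0
  · have := W.eq_zero_of_nZ_eq_zero h0
    subst this
    simp [W.nZ_zero]
  · have hpos : 0 < W.nZ z := lt_of_le_of_ne (W.nZ_nonneg z) (Ne.symm h0)
    have h1 : W.nZ ((W.nZ z)⁻¹ • z) ≤ 1 := by
      rw [W.nZ_smul, abs_of_pos (inv_pos.2 hpos), inv_mul_cancel₀ h0]
    have h2 : ∑ i, g i * ((W.nZ z)⁻¹ • z) i ≤ W.nX g :=
      le_csSup (W.bddAbove_X g) ⟨_, h1, rfl⟩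
    have h3 : ∑ i, g i * ((W.nZ z)⁻¹ • z) i = (W.nZ z)⁻¹ * ∑ i, g i * z i := by
      rw [Finset.mul_sum]
      refine Finset.sum_congr rfl fun i _ => ?_
      simp only [Pi.smul_apply, smul_eq_mul]
      ring
    rw [h3] at h2
    calc ∑ i, g i * z i = W.nZ z * ((W.nZ z)⁻¹ * ∑ i, g i * z i) := by field_simp
      _ ≤ W.nZ z * W.nX g := mul_le_mul_of_nonneg_left h2 hpos.le
      _ = W.nX g * W.nZ z := mul_comm _ _

theorem abs_pair_le (g z : Fin W.len → ℝ) : |∑ i, g i * z i| ≤ W.nX g * W.nZ z := by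
  rw [abs_le]
  constructor
  · have := W.pair_le g (-z)
    rw [W.nZ_neg] at this
    simp only [Pi.neg_apply, mul_neg, Finset.sum_neg_distrib] at this
    linarith
  · exact W.pair_le g z

theorem nX_le {g : Fin W.len → ℝ} {c : ℝ} (h : ∀ z, W.nZ z ≤ 1 → ∑ i, g i * z i ≤ c) :
    W.nX g ≤ c := by
  refine csSup_le (W.nonempty_X g) ?_
  rintro _ ⟨z, hz, rfl⟩
  exact h z hz

theorem nX_zero : W.nX 0 = 0 :=
  le_antisymm (W.nX_le fun z _ => by simp) (W.nX_nonneg 0)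

theorem nX_add_le (g h : Fin W.len → ℝ) : W.nX (g + h) ≤ W.nX g + W.nX h := by
  refine W.nX_le fun z hz => ?_
  have h1 := W.pair_le g z
  have h2 := W.pair_le h z
  have e : ∑ i, (g + h) i * z i = ∑ i, g i * z i + ∑ i, h i * z i := by
    rw [← Finset.sum_add_distrib]
    exact Finset.sum_congr rfl fun i _ => by simp only [Pi.add_apply]; ring
  rw [e]
  have := W.nX_nonneg g
  have := W.nX_nonneg h
  nlinarith [W.nZ_nonneg z]

theorem nX_smul (c : ℝ) (g : Fin W.len → ℝ) : W.nX (c • g) = |c| * W.nX g := by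
  have key : ∀ (c : ℝ) (g : Fin W.len → ℝ), W.nX (c • g) ≤ |c| * W.nX g := by
    intro c g
    refine W.nX_le fun z hz => ?_
    have h1 := W.abs_pair_le g z
    have e : ∑ i, (c • g) i * z i = c * ∑ i, g i * z i := by
      rw [Finset.mul_sum]
      exact Finset.sum_congr rfl fun i _ => by simp only [Pi.smul_apply, smul_eq_mul]; ring
    rw [e]
    calc c * ∑ i, g i * z i ≤ |c * ∑ i, g i * z i| := le_abs_self _
      _ = |c| * |∑ i, g i * z i| := abs_mul _ _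
      _ ≤ |c| * (W.nX g * W.nZ z) := mul_le_mul_of_nonneg_left h1 (abs_nonneg _)
      _ ≤ |c| * (W.nX g * 1) := by
          refine mul_le_mul_of_nonneg_left ?_ (abs_nonneg _)
          exact mul_le_mul_of_nonneg_left hz (W.nX_nonneg g)
      _ = |c| * W.nX g := by ring
  refine le_antisymm (key c g) ?_
  rcases eq_or_ne c 0 with rfl | hc
  · simp [W.nX_nonneg]
  · have h := key c⁻¹ (c • g)
    rw [smul_smul, inv_mul_cancel₀ hc, one_smul, abs_inv] at h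
    have hc' : 0 < |c| := abs_pos.2 hc
    calc |c| * W.nX g ≤ |c| * (|c|⁻¹ * W.nX (c • g)) := mul_le_mul_of_nonneg_left h hc'.le
      _ = W.nX (c • g) := by field_simp

theorem abs_le_nX (g : Fin W.len → ℝ) (i : Fin W.len) : |g i| ≤ W.nX g := by
  have h1 : W.nZ (Pi.single i (1 : ℝ)) ≤ 1 := by
    refine W.nZ_le_of_sq zero_le_one fun a ha => ?_
    have : ∑ j, a j * (Pi.single i (1 : ℝ) : Fin W.len → ℝ) j ^ 2 = a i := by
      simp [Pi.single_apply]
    rw [this]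
    simpa using W.le_one a ha i
  have h2 := W.abs_pair_le g (Pi.single i 1)
  have h3 : ∑ j, g j * (Pi.single i (1 : ℝ) : Fin W.len → ℝ) j = g i := by
    simp [Pi.single_apply]
  rw [h3] at h2
  calc |g i| ≤ W.nX g * W.nZ (Pi.single i 1) := h2
    _ ≤ W.nX g * 1 := mul_le_mul_of_nonneg_left h1 (W.nX_nonneg g)
    _ = W.nX g := mul_one _

theorem nX_single_le (i : Fin W.len) (c : ℝ) : W.nX (Pi.single i c) ≤ |c| := by
  refine W.nX_le fun z hz => ?_
  have : ∑ j, (Pi.single i c : Fin W.len → ℝ) j * z j = c * z i := by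
    simp [Pi.single_apply]
  rw [this]
  calc c * z i ≤ |c * z i| := le_abs_self _
    _ = |c| * |z i| := abs_mul _ _
    _ ≤ |c| * 1 := mul_le_mul_of_nonneg_left ((W.abs_le_nZ z i).trans hz) (abs_nonneg _)
    _ = |c| := mul_one _

theorem eq_zero_of_nX_eq_zero {g : Fin W.len → ℝ} (h : W.nX g = 0) : g = 0 := by
  funext i
  have := W.abs_le_nX g i
  rw [h] at this
  simpa using this

theorem nX_mono {g h : Fin W.len → ℝ} (hgh : ∀ i, |g i| ≤ |h i|) : W.nX g ≤ W.nX h := by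
  refine W.nX_le fun z hz => ?_
  have h1 : ∑ i, g i * z i ≤ ∑ i, h i * (SignType.sign (h i) * |z i|) := by
    refine Finset.sum_le_sum fun i _ => ?_
    calc g i * z i ≤ |g i * z i| := le_abs_self _
      _ = |g i| * |z i| := abs_mul _ _
      _ ≤ |h i| * |z i| := mul_le_mul_of_nonneg_right (hgh i) (abs_nonneg _)
      _ = h i * (SignType.sign (h i) * |z i|) := by
          rw [← mul_assoc, self_mul_sign]
  refine h1.trans ?_
  have h2 := W.pair_le h (fun i => (SignType.sign (h i) : ℝ) * |z i|)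
  have h3 : W.nZ (fun i => (SignType.sign (h i) : ℝ) * |z i|) ≤ 1 := by
    refine (W.nZ_mono fun i => ?_).trans hz
    rw [abs_mul, abs_abs]
    have : |((SignType.sign (h i) : SignType) : ℝ)| ≤ 1 := by
      rcases SignType.trichotomy (SignType.sign (h i)) with hs | hs | hs <;> rw [hs] <;> simp
    nlinarith [abs_nonneg (z i)]
  calc _ ≤ W.nX h * W.nZ (fun i => (SignType.sign (h i) : ℝ) * |z i|) := h2
    _ ≤ W.nX h * 1 := mul_le_mul_of_nonneg_left h3 (W.nX_nonneg h)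
    _ = W.nX h := mul_one _

theorem nX_congr_abs {g h : Fin W.len → ℝ} (hgh : ∀ i, |g i| = |h i|) : W.nX g = W.nX h :=
  le_antisymm (W.nX_mono fun i => (hgh i).le) (W.nX_mono fun i => (hgh i).ge)

/-- (F1) -/
theorem nX_sq_le_of_weight {a : Fin W.len → ℝ} (ha : a ∈ W.A) (g : Fin W.len → ℝ)
    (hpos : ∀ i, g i ≠ 0 → 0 < a i) : W.nX g ^ 2 ≤ ∑ i, g i ^ 2 / a i := by
  have hnn : 0 ≤ ∑ i, g i ^ 2 / a i :=
    Finset.sum_nonneg fun i _ => div_nonneg (sq_nonneg _) (W.nonneg a ha i)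
  have : W.nX g ≤ Real.sqrt (∑ i, g i ^ 2 / a i) := by
    refine W.nX_le fun z hz => ?_
    have h1 := cs_weight a (fun i => g i / a i) z (W.nonneg a ha)
    have e1 : ∑ i, a i * (g i / a i * z i) = ∑ i, g i * z i := by
      refine Finset.sum_congr rfl fun i _ => ?_
      by_cases hg : g i = 0
      · simp [hg]
      · have := (hpos i hg).ne'
        field_simp
    have e2 : ∑ i, a i * (g i / a i) ^ 2 = ∑ i, g i ^ 2 / a i := by
      refine Finset.sum_congr rfl fun i _ => ?_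
      by_cases hg : g i = 0
      · simp [hg]
      · have := (hpos i hg).ne'
        field_simp
    rw [e1, e2] at h1
    have h2 := W.sum_le_nZ_sq ha z
    have h3 : W.nZ z ^ 2 ≤ 1 := by
      have := W.nZ_nonneg z
      nlinarith
    refine Real.le_sqrt_of_sq_le ?_
    refine h1.trans ?_
    calc (∑ i, g i ^ 2 / a i) * ∑ i, a i * z i ^ 2 ≤ (∑ i, g i ^ 2 / a i) * 1 :=
          mul_le_mul_of_nonneg_left (h2.trans h3) hnn
      _ = _ := mul_one _
  calc W.nX g ^ 2 ≤ Real.sqrt (∑ i, g i ^ 2 / a i) ^ 2 :=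
        pow_le_pow_left₀ (W.nX_nonneg g) this 2
    _ = _ := Real.sq_sqrt hnn

end WS

end Pool.Agent.MP_1b7159_an
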