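import Pool.Agent.Lib.MP_1b7159_an.Space
import Pool.Agent.Lib.MP_1b7159_an.Blocks

/-!
# MP_1b7159_an: real and complex scalars
-/

set_option autoImplicit false

open Finset
open scoped ENNReal

namespace Pool.Agent.MP_1b7159_an

/-- The bilinear extension property for subspaces of a normed space over `𝕜` (`ℝ` or `ℂ`): every bounded
bilinear form on a closed subspace `Y` extends to a bounded bilinear form on `X`. -/
def BEPSOver (𝕜 : Type*) [RCLike 𝕜] (X : Type*) [NormedAddCommGroup X] [NormedSpace 𝕜 X] : Prop :=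
  ∀ Y : Submodule 𝕜 X, IsClosed (Y : Set X) → ∀ B : Y →ₗ[𝕜] Y →ₗ[𝕜] 𝕜,
    (∃ M : ℝ, ∀ y z : Y, ‖B y z‖ ≤ M * ‖y‖ * ‖z‖) →
    ∃ B' : X →ₗ[𝕜] X →ₗ[𝕜] 𝕜, (∃ M : ℝ, ∀ x z : X, ‖B' x z‖ ≤ M * ‖x‖ * ‖z‖) ∧
      ∀ y z : Y, B' (y : X) (z : X) = B y z

/-- Rademacher type 2. The mean is over all `2 ^ n` choices of signs. -/
def RademacherType2 (X : Type*) [NormedAddCommGroup X] : Prop :=
  ∃ C : ℝ, ∀ (n : ℕ) (x : Fin n → X),
    Real.sqrt ((∑ ε : Fin n → Bool, ‖∑ i, (if ε i then x i else - x i)‖ ^ 2) / 2 ^ n)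
      ≤ C * Real.sqrt (∑ i, ‖x i‖ ^ 2)

theorem hasType2_of_rademacher {X : Type*} [NormedAddCommGroup X] [NormedSpace ℝ X]
    (h : RademacherType2 X) : HasType2 X := by
  obtain ⟨C, hC⟩ := h
  refine ⟨C, fun n x => ?_⟩
  have h1 := hC n x
  have e : ∀ ε : Fin n → Bool, (∑ i, (if ε i then (1 : ℝ) else -1) • x i)
      = ∑ i, (if ε i then x i else - x i) := by
    intro ε
    refine Finset.sum_congr rfl fun i _ => ?_
    split_ifs
    · rw [one_smul]
    · rw [neg_smul, one_smul]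
  simp_rw [e]
  set E := (∑ ε : Fin n → Bool, ‖∑ i, (if ε i then x i else - x i)‖ ^ 2) / 2 ^ n with hE
  have hE0 : 0 ≤ E := by positivity
  have hS0 : 0 ≤ ∑ i, ‖x i‖ ^ 2 := Finset.sum_nonneg fun i _ => sq_nonneg _
  calc E = Real.sqrt E ^ 2 := (Real.sq_sqrt hE0).symm
    _ ≤ (C * Real.sqrt (∑ i, ‖x i‖ ^ 2)) ^ 2 := pow_le_pow_left₀ (Real.sqrt_nonneg _) h1 2
    _ = C ^ 2 * ∑ i, ‖x i‖ ^ 2 := by rw [mul_pow, Real.sq_sqrt hS0]

/-- A module structure over `𝕜` from a real one and an operator `J` with `J ^ 2 = -1`. -/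
@[instance_reducible] def kModule (𝕜 : Type*) [RCLike 𝕜] {X : Type*} [AddCommGroup X] [Module ℝ X] (J : X →ₗ[ℝ] X)
    (hJ : ∀ x, J (J x) = - x) : Module 𝕜 X where
  smul c x := (RCLike.re c : ℝ) • x + (RCLike.im c : ℝ) • J x
  one_smul x := by
    show (RCLike.re (1 : 𝕜) : ℝ) • x + (RCLike.im (1 : 𝕜) : ℝ) • J x = x
    rw [RCLike.one_re, RCLike.one_im, one_smul, zero_smul, add_zero]
  mul_smul c d x := by
    show (RCLike.re (c * d) : ℝ) • x + (RCLike.im (c * d) : ℝ) • J x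
      = (RCLike.re c : ℝ) • ((RCLike.re d : ℝ) • x + (RCLike.im d : ℝ) • J x)
        + (RCLike.im c : ℝ) • J ((RCLike.re d : ℝ) • x + (RCLike.im d : ℝ) • J x)
    rw [map_add, map_smul, map_smul, hJ, RCLike.mul_re, RCLike.mul_im]
    module
  smul_zero c := by
    show (RCLike.re c : ℝ) • (0 : X) + (RCLike.im c : ℝ) • J 0 = 0
    rw [map_zero, smul_zero, smul_zero, add_zero]
  smul_add c x y := by
    show (RCLike.re c : ℝ) • (x + y) + (RCLike.im c : ℝ) • J (x + y)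
      = ((RCLike.re c : ℝ) • x + (RCLike.im c : ℝ) • J x)
        + ((RCLike.re c : ℝ) • y + (RCLike.im c : ℝ) • J y)
    rw [map_add]
    module
  add_smul c d x := by
    show (RCLike.re (c + d) : ℝ) • x + (RCLike.im (c + d) : ℝ) • J x
      = ((RCLike.re c : ℝ) • x + (RCLike.im c : ℝ) • J x)
        + ((RCLike.re d : ℝ) • x + (RCLike.im d : ℝ) • J x)
    rw [map_add, map_add]
    module
  zero_smul x := by
    show (RCLike.re (0 : 𝕜) : ℝ) • x + (RCLike.im (0 : 𝕜) : ℝ) • J x = 0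
    rw [map_zero, map_zero, zero_smul, zero_smul, add_zero]

/-- From real to general scalars. -/
theorem beps_over (𝕜 : Type*) [RCLike 𝕜] {X : Type*} [NormedAddCommGroup X] [NormedSpace ℝ X]
    [NormedSpace 𝕜 X] (hc : ∀ (r : ℝ) (x : X), (r : 𝕜) • x = r • x) (h : BEPS X) :
    BEPSOver 𝕜 X := by
  intro Y hY B hB
  obtain ⟨M, hM⟩ := hB
  have hcY : ∀ (r : ℝ) (x : X), x ∈ Y → r • x ∈ Y := by
    intro r x hx
    rw [← hc]
    exact Y.smul_mem _ hx
  -- the real subspace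
  let Y' : Submodule ℝ X :=
    { carrier := Y
      zero_mem' := Y.zero_mem
      add_mem' := fun hx hy => Y.add_mem hx hy
      smul_mem' := fun r x hx => hcY r x hx }
  have hY' : IsClosed (Y' : Set X) := hY
  let R : Y' →ₗ[ℝ] Y' →ₗ[ℝ] ℝ := LinearMap.mk₂ ℝ
    (fun y z => RCLike.re (B ⟨y.1, y.2⟩ ⟨z.1, z.2⟩))
    (by
      intro y y' z
      have : (⟨(y + y' : Y').1, (y + y' : Y').2⟩ : Y) = ⟨y.1, y.2⟩ + ⟨y'.1, y'.2⟩ := rfl
      rw [this, map_add, LinearMap.add_apply, map_add])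
    (by
      intro r y z
      have : (⟨(r • y : Y').1, (r • y : Y').2⟩ : Y) = (r : 𝕜) • ⟨y.1, y.2⟩ := by
        apply Subtype.ext
        show r • y.1 = (r : 𝕜) • y.1
        rw [hc]
      rw [this, map_smul, LinearMap.smul_apply, smul_eq_mul, RCLike.re_ofReal_mul, smul_eq_mul])
    (by
      intro y z z'
      have : (⟨(z + z' : Y').1, (z + z' : Y').2⟩ : Y) = ⟨z.1, z.2⟩ + ⟨z'.1, z'.2⟩ := rfl
      rw [this, map_add, map_add])
    (by
      intro r y z
      have : (⟨(r • z : Y').1, (r • z : Y').2⟩ : Y) = (r : 𝕜) • ⟨z.1, z.2⟩ := by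
        apply Subtype.ext
        show r • z.1 = (r : 𝕜) • z.1
        rw [hc]
      rw [this, map_smul, smul_eq_mul, RCLike.re_ofReal_mul, smul_eq_mul])
  obtain ⟨R', ⟨M', hM'⟩, hR'⟩ := h Y' hY' R ⟨M, fun y z =>
    (RCLike.abs_re_le_norm _).trans (hM _ _)⟩
  have hR'' : ∀ (y z : Y), R' (y : X) (z : X) = RCLike.re (B y z) := fun y z =>
    hR' ⟨y.1, y.2⟩ ⟨z.1, z.2⟩
  have hRs : ∀ (r : ℝ) (x z : X), R' ((r : 𝕜) • x) z = r * R' x z := by
    intro r x z
    rw [hc, map_smul, LinearMap.smul_apply, smul_eq_mul]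
  have hRs' : ∀ (r : ℝ) (x z : X), R' x ((r : 𝕜) • z) = r * R' x z := by
    intro r x z
    rw [hc, map_smul, smul_eq_mul]
  have hM0 : ∀ x z : X, |R' x z| ≤ |M'| * ‖x‖ * ‖z‖ := by
    intro x z
    refine (hM' x z).trans ?_
    gcongr
    exact le_abs_self _
  rcases RCLike.I_mul_I_ax (K := 𝕜) with hI | hI
  · -- real case
    have hcr : ∀ c : 𝕜, c = ((RCLike.re c : ℝ) : 𝕜) := by
      intro c
      have := RCLike.re_add_im c
      rw [hI, mul_zero, add_zero] at this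
      exact this.symm
    refine ⟨LinearMap.mk₂ 𝕜 (fun x z => ((R' x z : ℝ) : 𝕜)) ?_ ?_ ?_ ?_, ⟨|M'|, ?_⟩, ?_⟩
    · intro x x' z
      rw [map_add, LinearMap.add_apply]
      push_cast
      rfl
    · intro c x z
      rw [hcr c, hRs]
      push_cast
      simp
    · intro x z z'
      rw [map_add]
      push_cast
      rfl
    · intro c x z
      rw [hcr c, hRs']
      push_cast
      simp
    · intro x z
      show ‖((R' x z : ℝ) : 𝕜)‖ ≤ _
      rw [RCLike.norm_ofReal]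
      exact hM0 x z
    · intro y z
      show ((R' (y : X) (z : X) : ℝ) : 𝕜) = B y z
      rw [hR'', ← hcr]
  · -- complex case
    have hIIx : ∀ x : X, (RCLike.I : 𝕜) • (RCLike.I : 𝕜) • x = - x := by
      intro x
      rw [smul_smul, hI, neg_smul, one_smul]
    have hcx : ∀ (c : 𝕜) (x : X), c • x = ((RCLike.re c : ℝ) : 𝕜) • x
        + ((RCLike.im c : ℝ) : 𝕜) • ((RCLike.I : 𝕜) • x) := by
      intro c x
      rw [smul_smul, ← add_smul, RCLike.re_add_im]
    have hnI : ∀ x : X, ‖(RCLike.I : 𝕜) • x‖ ≤ ‖x‖ := by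
      intro x
      have h1 : ‖(RCLike.I : 𝕜)‖ ≤ 1 := by
        have h2 : ‖(RCLike.I : 𝕜)‖ * ‖(RCLike.I : 𝕜)‖ = 1 := by
          rw [← norm_mul, hI, norm_neg, norm_one]
        nlinarith [norm_nonneg (RCLike.I : 𝕜)]
      calc ‖(RCLike.I : 𝕜) • x‖ = ‖(RCLike.I : 𝕜)‖ * ‖x‖ := norm_smul _ _
        _ ≤ 1 * ‖x‖ := mul_le_mul_of_nonneg_right h1 (norm_nonneg _)
        _ = ‖x‖ := one_mul _
    let C : X → X → 𝕜 := fun x z => ((R' x z : ℝ) : 𝕜)
      - RCLike.I * ((R' ((RCLike.I : 𝕜) • x) z : ℝ) : 𝕜)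
    have hCdef : ∀ x z, C x z = ((R' x z : ℝ) : 𝕜)
      - RCLike.I * ((R' ((RCLike.I : 𝕜) • x) z : ℝ) : 𝕜) := fun _ _ => rfl
    have hCadd : ∀ x x' z, C (x + x') z = C x z + C x' z := by
      intro x x' z
      rw [hCdef, hCdef, hCdef, smul_add, map_add, map_add, LinearMap.add_apply,
        LinearMap.add_apply]
      push_cast
      ring
    have hCadd' : ∀ x z z', C x (z + z') = C x z + C x z' := by
      intro x z z'
      rw [hCdef, hCdef, hCdef, map_add, map_add]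
      push_cast
      ring
    have hCr : ∀ (r : ℝ) x z, C ((r : 𝕜) • x) z = r * C x z := by
      intro r x z
      rw [hCdef, hCdef, smul_comm, hRs, hRs]
      push_cast
      ring
    have hCr' : ∀ (r : ℝ) x z, C x ((r : 𝕜) • z) = r * C x z := by
      intro r x z
      rw [hCdef, hCdef, hRs', hRs']
      push_cast
      ring
    have hCI : ∀ x z, C ((RCLike.I : 𝕜) • x) z = RCLike.I * C x z := by
      intro x z
      rw [hCdef, hCdef, hIIx, map_neg, LinearMap.neg_apply]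
      push_cast
      linear_combination ((R' ((RCLike.I : 𝕜) • x) z : ℝ) : 𝕜) * hI
    have hCs : ∀ (c : 𝕜) x z, C (c • x) z = c * C x z := by
      intro c x z
      rw [hcx, hCadd, hCr, hCr, hCI]
      conv_rhs => rw [← RCLike.re_add_im c]
      ring
    let D : X → X → 𝕜 := fun x z => (1 / 2 : 𝕜) * (C x z - RCLike.I * C x ((RCLike.I : 𝕜) • z))
    have hDdef : ∀ x z, D x z = (1 / 2 : 𝕜) * (C x z - RCLike.I * C x ((RCLike.I : 𝕜) • z)) :=
      fun _ _ => rfl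
    have hDI : ∀ x z, D x ((RCLike.I : 𝕜) • z) = RCLike.I * D x z := by
      intro x z
      have hneg : C x (-z) = - C x z := by
        rw [hCdef, hCdef, map_neg, map_neg]
        push_cast
        ring
      rw [hDdef, hDdef, hIIx, hneg]
      linear_combination (1 / 2 : 𝕜) * C x ((RCLike.I : 𝕜) • z) * hI
    refine ⟨LinearMap.mk₂ 𝕜 D ?_ ?_ ?_ ?_, ⟨2 * |M'|, ?_⟩, ?_⟩
    · intro x x' z
      rw [hDdef, hDdef, hDdef, hCadd, hCadd]
      ring
    · intro c x z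
      rw [hDdef, hDdef, hCs, hCs, smul_eq_mul]
      ring
    · intro x z z'
      rw [hDdef, hDdef, hDdef, smul_add, hCadd', hCadd']
      ring
    · intro c x z
      have hDadd : ∀ z z', D x (z + z') = D x z + D x z' := by
        intro z z'
        rw [hDdef, hDdef, hDdef, smul_add, hCadd', hCadd']
        ring
      have hDr : ∀ (r : ℝ) z, D x ((r : 𝕜) • z) = r * D x z := by
        intro r z
        rw [hDdef, hDdef, smul_comm, hCr', hCr']
        ring
      rw [hcx, hDadd, hDr, hDr, hDI, smul_eq_mul]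
      conv_rhs => rw [← RCLike.re_add_im c]
      ring
    · intro x z
      show ‖D x z‖ ≤ _
      have hIn : ‖(RCLike.I : 𝕜)‖ ≤ 1 := by
        have h2 : ‖(RCLike.I : 𝕜)‖ * ‖(RCLike.I : 𝕜)‖ = 1 := by
          rw [← norm_mul, hI, norm_neg, norm_one]
        nlinarith [norm_nonneg (RCLike.I : 𝕜)]
      have hCb : ∀ x z, ‖C x z‖ ≤ 2 * (|M'| * ‖x‖ * ‖z‖) := by
        intro x z
        rw [hCdef]
        have h1 := hM0 x z
        have h2 := hM0 ((RCLike.I : 𝕜) • x) z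
        have h3 : |M'| * ‖(RCLike.I : 𝕜) • x‖ * ‖z‖ ≤ |M'| * ‖x‖ * ‖z‖ := by
          gcongr
          exact hnI x
        calc ‖((R' x z : ℝ) : 𝕜) - RCLike.I * ((R' ((RCLike.I : 𝕜) • x) z : ℝ) : 𝕜)‖
            ≤ ‖((R' x z : ℝ) : 𝕜)‖ + ‖RCLike.I * ((R' ((RCLike.I : 𝕜) • x) z : ℝ) : 𝕜)‖ :=
              norm_sub_le _ _
          _ = |R' x z| + ‖(RCLike.I : 𝕜)‖ * |R' ((RCLike.I : 𝕜) • x) z| := by
              rw [norm_mul, RCLike.norm_ofReal, RCLike.norm_ofReal]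
          _ ≤ |R' x z| + 1 * |R' ((RCLike.I : 𝕜) • x) z| := by gcongr
          _ ≤ _ := by linarith
      rw [hDdef]
      have h1 := hCb x z
      have h2 := hCb x ((RCLike.I : 𝕜) • z)
      have h3 : |M'| * ‖x‖ * ‖(RCLike.I : 𝕜) • z‖ ≤ |M'| * ‖x‖ * ‖z‖ := by
        gcongr
        exact hnI z
      have h4 : ‖(1 / 2 : 𝕜)‖ = 1 / 2 := by
        rw [norm_div, norm_one, RCLike.norm_ofNat]
      calc ‖(1 / 2 : 𝕜) * (C x z - RCLike.I * C x ((RCLike.I : 𝕜) • z))‖
          = (1 / 2) * ‖C x z - RCLike.I * C x ((RCLike.I : 𝕜) • z)‖ := by rw [norm_mul, h4]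
        _ ≤ (1 / 2) * (‖C x z‖ + ‖RCLike.I * C x ((RCLike.I : 𝕜) • z)‖) := by
            gcongr
            exact norm_sub_le _ _
        _ = (1 / 2) * (‖C x z‖ + ‖(RCLike.I : 𝕜)‖ * ‖C x ((RCLike.I : 𝕜) • z)‖) := by
            rw [norm_mul]
        _ ≤ (1 / 2) * (‖C x z‖ + 1 * ‖C x ((RCLike.I : 𝕜) • z)‖) := by gcongr
        _ ≤ 2 * |M'| * ‖x‖ * ‖z‖ := by linarith
    · intro y z
      show D (y : X) (z : X) = B y z
      have hCY : ∀ y z : Y, C (y : X) (z : X) = B y z := by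
        intro y z
        have e1 : R' ((RCLike.I : 𝕜) • (y : X)) (z : X) = RCLike.re (B ((RCLike.I : 𝕜) • y) z) :=
          hR'' ((RCLike.I : 𝕜) • y) z
        rw [hCdef, e1, hR'', map_smul, LinearMap.smul_apply, smul_eq_mul, RCLike.I_mul_re]
        push_cast
        conv_rhs => rw [← RCLike.re_add_im (B y z)]
        ring
      have e2 : C (y : X) ((RCLike.I : 𝕜) • (z : X)) = B y ((RCLike.I : 𝕜) • z) :=
        hCY y ((RCLike.I : 𝕜) • z)
      rw [hDdef, e2, hCY, map_smul, smul_eq_mul]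
      linear_combination (-(1 / 2 : 𝕜)) * B y z * hI

/-- The 𝕜-structure of a doubled block. -/
@[instance_reducible] noncomputable def dblNormedSpace (𝕜 : Type*) [RCLike 𝕜] (V : WS2) : NormedSpace 𝕜 V.dbl.XSp :=
  { kModule 𝕜 (X := V.dbl.XSp) (WS2.JJ (len := V.len)) (fun z => WS2.JJ_JJ z) with
    norm_smul_le := by
      intro c g
      have h := V.dbl_nX_rot (RCLike.re c) (RCLike.im c) g
      have e : Real.sqrt ((RCLike.re c : ℝ) ^ 2 + (RCLike.im c : ℝ) ^ 2) = ‖c‖ := by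
        rw [Real.sqrt_eq_iff_mul_self_eq (by positivity) (norm_nonneg _), ← sq,
          RCLike.norm_sq_eq_def]
        ring
      rw [e] at h
      exact h }

/-- The final theorem, for all scalar fields. -/
theorem main_over (𝕜 : Type) [RCLike 𝕜] : ∃ (X : Type) (_ : NormedAddCommGroup X)
    (_ : NormedSpace 𝕜 X) (_ : CompleteSpace X), BEPSOver 𝕜 X ∧ ¬ RademacherType2 X := by
  obtain ⟨V, h0, h1, h2, h3⟩ := exists_blocks
  let _ : ∀ j, NormedSpace 𝕜 ((V j).dbl.XSp) := fun j => dblNormedSpace 𝕜 (V j)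
  have hreal : BEPS (XX (fun j => (V j).dbl)) := by
    refine beps_of_traceProp (by norm_num) (traceProp_XX (fun j => (V j).dbl)
      (fun j => 2 * j + 4) h2 ?_ ?_ ?_)
    · refine le_trans ?_ h0
      norm_num
    · refine le_trans ?_ h0
      norm_num
    · intro j
      have := h1 j
      exact this
  have hc : ∀ (r : ℝ) (x : XX (fun j => (V j).dbl)), (r : 𝕜) • x = r • x := by
    intro r x
    ext1
    funext j
    show (r : 𝕜) • (x j) = r • (x j)
    show (RCLike.re (r : 𝕜) : ℝ) • (x j) + (RCLike.im (r : 𝕜) : ℝ) • _ = r • (x j)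
    rw [RCLike.ofReal_re, RCLike.ofReal_im, zero_smul, add_zero]
  refine ⟨XX (fun j => (V j).dbl), inferInstance, inferInstance, inferInstance,
    beps_over 𝕜 hc hreal, fun h => not_type2_XX (fun j => (V j).dbl) h3 (hasType2_of_rademacher h)⟩

end Pool.Agent.MP_1b7159_an
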