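import Pool.Agent.Lib.MP_1b7159_an.Norms

/-!
# MP_1b7159_an JOB QCORE: the duality step of section 6
-/

set_option autoImplicit false

open Finset

namespace Pool.Agent.MP_1b7159_an

/-- The duality step of section 6. PROOF. Put `Q = ∑ g l l`, `t i l = ⟪F l, e i⟫` (`e i` standard basis).
As `F l = ∑ i, t i l • e i`:
`Q = ∑_l ∑_j ⟨u l j, β_j (F l)⟩ = ∑_i ∑_j ⟨∑_l t i l • u l j, β_j e_i⟩ ≤ ∑_i (∑_j nZ(∑_l t i l u l j)²)^{1/2} (∑_j nX (β_j e_i)²)^{1/2}`
`≤ ∑_i (C q(t i))^{1/2} (∑_j nX (β_j e_i)²)^{1/2} ≤ (C ∑_i q (t i))^{1/2}` where `q t = ∑ t_l t_l' g l l'`, and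
`∑_i q (t i) = ∑_{l,l'} g l l' ∑_i ⟪F l,e i⟫⟪F l',e i⟫ = ∑_l g l l = Q`. So `Q ≤ (C Q)^{1/2}`, i.e. `Q ≤ C` (if `Q ≤ 0` trivial). -/
theorem q_core (W : ℕ → WS) (J : ℕ) {n : ℕ}
    (β : ∀ j, EuclideanSpace ℝ (Fin n) →ₗ[ℝ] (Fin (W j).len → ℝ))
    (hβ : ∑ i : Fin n, ∑ j ∈ range J, (W j).nX (β j (EuclideanSpace.single i 1)) ^ 2 ≤ 1)
    (C : ℝ) (hC : 0 ≤ C) (s : ℕ) (F : Fin s → EuclideanSpace ℝ (Fin n)) (hF : Orthonormal ℝ F)
    (u : Fin s → ∀ j, Fin (W j).len → ℝ) (g : Fin s → Fin s → ℝ)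
    (hg : ∀ l, ∑ j ∈ range J, ∑ i, u l j i * β j (F l) i = g l l)
    (hu : ∀ t : Fin s → ℝ, ∑ j ∈ range J, (W j).nZ (fun i => ∑ l, t l * u l j i) ^ 2
      ≤ C * ∑ l, ∑ l', t l * t l' * g l l') :
    ∑ l, g l l ≤ C := by
  classical
  -- coordinates
  have hFl : ∀ l, F l = ∑ i, F l i • (EuclideanSpace.single i (1 : ℝ) : EuclideanSpace ℝ (Fin n)) := by
    intro l
    ext k
    simp [Finset.sum_apply, Pi.single_apply]
  have hβF : ∀ l j k, β j (F l) k = ∑ i, F l i * β j (EuclideanSpace.single i 1) k := by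
    intro l j k
    conv_lhs => rw [hFl l]
    rw [map_sum, Finset.sum_apply]
    refine Finset.sum_congr rfl fun i _ => ?_
    rw [map_smul, Pi.smul_apply, smul_eq_mul]
  -- rewrite `Q`
  have hQ1 : ∑ l, g l l = ∑ i : Fin n, ∑ j ∈ range J,
      ∑ k, β j (EuclideanSpace.single i 1) k * ∑ l, F l i * u l j k := by
    calc ∑ l, g l l = ∑ l, ∑ j ∈ range J, ∑ k, u l j k * β j (F l) k :=
          Finset.sum_congr rfl fun l _ => (hg l).symm
      _ = ∑ l, ∑ j ∈ range J, ∑ k, ∑ i,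
            β j (EuclideanSpace.single i 1) k * (F l i * u l j k) := by
          refine Finset.sum_congr rfl fun l _ => Finset.sum_congr rfl fun j _ =>
            Finset.sum_congr rfl fun k _ => ?_
          rw [hβF, Finset.mul_sum]
          exact Finset.sum_congr rfl fun i _ => by ring
      _ = ∑ l, ∑ j ∈ range J, ∑ i, ∑ k,
            β j (EuclideanSpace.single i 1) k * (F l i * u l j k) := by
          refine Finset.sum_congr rfl fun l _ => Finset.sum_congr rfl fun j _ =>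
            Finset.sum_comm
      _ = ∑ l, ∑ i, ∑ j ∈ range J, ∑ k,
            β j (EuclideanSpace.single i 1) k * (F l i * u l j k) :=
          Finset.sum_congr rfl fun l _ => Finset.sum_comm
      _ = ∑ i, ∑ l, ∑ j ∈ range J, ∑ k,
            β j (EuclideanSpace.single i 1) k * (F l i * u l j k) := Finset.sum_comm
      _ = ∑ i, ∑ j ∈ range J, ∑ l, ∑ k,
            β j (EuclideanSpace.single i 1) k * (F l i * u l j k) :=
          Finset.sum_congr rfl fun i _ => Finset.sum_comm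
      _ = _ := by
          refine Finset.sum_congr rfl fun i _ => Finset.sum_congr rfl fun j _ => ?_
          rw [Finset.sum_comm]
          exact Finset.sum_congr rfl fun k _ => by rw [Finset.mul_sum]
  -- orthonormality
  have hort : ∀ l l', ∑ i, F l i * F l' i = if l = l' then (1 : ℝ) else 0 := by
    intro l l'
    have h := (orthonormal_iff_ite.1 hF) l l'
    rw [← h, PiLp.inner_apply]
    refine Finset.sum_congr rfl fun i _ => ?_
    simp [mul_comm]
  have hQ2 : ∑ i : Fin n, ∑ l, ∑ l', F l i * F l' i * g l l' = ∑ l, g l l := by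
    rw [Finset.sum_comm]
    refine Finset.sum_congr rfl fun l _ => ?_
    rw [Finset.sum_comm]
    have : ∀ l', ∑ i : Fin n, F l i * F l' i * g l l' = (if l = l' then (1 : ℝ) else 0) * g l l' := by
      intro l'
      rw [← hort l l', Finset.sum_mul]
    rw [Finset.sum_congr rfl fun l' _ => this l']
    simp
  -- Cauchy-Schwarz over pairs
  set S : Finset (Fin n × ℕ) := Finset.univ ×ˢ range J with hS
  have hle : ∑ l, g l l ≤ ∑ p ∈ S, (W p.2).nX (β p.2 (EuclideanSpace.single p.1 1)) *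
      (W p.2).nZ (fun k => ∑ l, F l p.1 * u l p.2 k) := by
    rw [hQ1, hS, Finset.sum_product]
    refine Finset.sum_le_sum fun i _ => Finset.sum_le_sum fun j _ => ?_
    exact (W j).pair_le _ _
  have hcs := Finset.sum_mul_sq_le_sq_mul_sq S
    (fun p => (W p.2).nX (β p.2 (EuclideanSpace.single p.1 1)))
    (fun p => (W p.2).nZ (fun k => ∑ l, F l p.1 * u l p.2 k))
  have hA : ∑ p ∈ S, (W p.2).nX (β p.2 (EuclideanSpace.single p.1 1)) ^ 2 ≤ 1 := by
    rw [hS, Finset.sum_product]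
    exact hβ
  have hB : ∑ p ∈ S, (W p.2).nZ (fun k => ∑ l, F l p.1 * u l p.2 k) ^ 2 ≤ C * ∑ l, g l l := by
    rw [hS, Finset.sum_product]
    calc _ ≤ ∑ i : Fin n, C * ∑ l, ∑ l', F l i * F l' i * g l l' :=
          Finset.sum_le_sum fun i _ => hu (fun l => F l i)
      _ = C * ∑ l, g l l := by rw [← Finset.mul_sum, hQ2]
  rcases le_or_gt (∑ l, g l l) 0 with h0 | h0
  · exact h0.trans hC
  · have hB0 : 0 ≤ ∑ p ∈ S, (W p.2).nZ (fun k => ∑ l, F l p.1 * u l p.2 k) ^ 2 :=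
      Finset.sum_nonneg fun p _ => sq_nonneg _
    have h1 : (∑ l, g l l) ^ 2 ≤ 1 * (C * ∑ l, g l l) := by
      calc (∑ l, g l l) ^ 2 ≤ (∑ p ∈ S, (W p.2).nX (β p.2 (EuclideanSpace.single p.1 1)) *
            (W p.2).nZ (fun k => ∑ l, F l p.1 * u l p.2 k)) ^ 2 :=
            pow_le_pow_left₀ h0.le hle 2
        _ ≤ _ := hcs
        _ ≤ 1 * (C * ∑ l, g l l) := mul_le_mul hA hB hB0 zero_le_one
    nlinarith

end Pool.Agent.MP_1b7159_an
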