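import Pool.Agent.Lib.MP_1b7159_an.BlockL
import Pool.Agent.Lib.MP_1b7159_an.QCore

/-!
# MP_1b7159_an JOB QMAIN: the main lemma (Q), section 6
-/

set_option autoImplicit false

open Finset

namespace Pool.Agent.MP_1b7159_an

/-- lower end of the spectral blocks -/
def lo (N : ℕ → ℕ) : ℕ → ℕ
  | 0 => 0
  | b + 1 => N b ^ 3

theorem sum_fiber_div {s R len : ℕ} (a : Fin R → Fin len → ℝ) (x : Fin s → Fin len → ℝ)
    (rr : Fin s → Fin R) (t : Fin s → ℝ) (q : Fin len) :
    ∑ r, (∑ l, if rr l = r then t l * x l q else 0) / a r q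
      = ∑ l, t l * (x l q / a (rr l) q) := by
  have h : ∀ r, (∑ l, if rr l = r then t l * x l q else 0) / a r q
      = ∑ l, if rr l = r then t l * (x l q / a (rr l) q) else 0 := by
    intro r
    rw [Finset.sum_div]
    refine Finset.sum_congr rfl fun l _ => ?_
    split_ifs with h
    · rw [h, mul_div_assoc]
    · rw [zero_div]
  rw [Finset.sum_congr rfl fun r _ => h r, Finset.sum_comm]
  refine Finset.sum_congr rfl fun l _ => ?_
  rw [Finset.sum_ite_eq]
  simp

theorem sum_fiber_sq {s R len : ℕ} (a : Fin R → Fin len → ℝ) (x : Fin s → Fin len → ℝ)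
    (rr : Fin s → Fin R) (t : Fin s → ℝ) :
    ∑ r, ∑ q, (∑ l, if rr l = r then t l * x l q else 0) ^ 2 / a r q
      = ∑ l, ∑ l', t l * t l' *
        (if rr l = rr l' then ∑ q, x l q * x l' q / a (rr l) q else 0) := by
  have e : ∀ r q, (∑ l, if rr l = r then t l * x l q else 0) ^ 2 / a r q
      = ∑ l, ∑ l', if rr l = r then
          (if rr l' = r then t l * t l' * (x l q * x l' q / a r q) else 0) else 0 := by
    intro r q
    rw [sq, Finset.sum_mul_sum, Finset.sum_div]
    refine Finset.sum_congr rfl fun l _ => ?_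
    rw [Finset.sum_div]
    refine Finset.sum_congr rfl fun l' _ => ?_
    split_ifs <;> ring
  calc ∑ r, ∑ q, (∑ l, if rr l = r then t l * x l q else 0) ^ 2 / a r q
      = ∑ r, ∑ q, ∑ l, ∑ l', (if rr l = r then
          (if rr l' = r then t l * t l' * (x l q * x l' q / a r q) else 0) else 0) :=
        Finset.sum_congr rfl fun r _ => Finset.sum_congr rfl fun q _ => e r q
    _ = ∑ r, ∑ l, ∑ l', ∑ q, (if rr l = r then
          (if rr l' = r then t l * t l' * (x l q * x l' q / a r q) else 0) else 0) := by
        refine Finset.sum_congr rfl fun r _ => ?_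
        rw [Finset.sum_comm]
        refine Finset.sum_congr rfl fun l _ => ?_
        rw [Finset.sum_comm]
    _ = ∑ l, ∑ l', ∑ r, ∑ q, (if rr l = r then
          (if rr l' = r then t l * t l' * (x l q * x l' q / a r q) else 0) else 0) := by
        rw [Finset.sum_comm]
        refine Finset.sum_congr rfl fun l _ => ?_
        rw [Finset.sum_comm]
    _ = _ := by
        refine Finset.sum_congr rfl fun l _ => Finset.sum_congr rfl fun l' _ => ?_
        rw [Finset.sum_eq_single (rr l)]
        · rw [Finset.sum_congr rfl fun q _ => if_pos rfl]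
          by_cases h : rr l' = rr l
          · rw [Finset.sum_congr rfl fun q _ => if_pos h, if_pos h.symm, Finset.mul_sum]
          · rw [Finset.sum_congr rfl fun q _ => if_neg h, if_neg (Ne.symm h)]
            simp
        · intro r _ hr
          refine Finset.sum_eq_zero fun q _ => ?_
          rw [if_neg (Ne.symm hr)]
        · simp

section

variable {n n0 : ℕ}

/-- the map `v ↦ ∑ v_m f_m` -/
noncomputable def FF (f : Fin n0 → EuclideanSpace ℝ (Fin n)) :
    EuclideanSpace ℝ (Fin n0) →ₗ[ℝ] EuclideanSpace ℝ (Fin n) where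
  toFun v := ∑ m, v m • f m
  map_add' v w := by
    rw [← Finset.sum_add_distrib]
    refine Finset.sum_congr rfl fun m _ => ?_
    rw [← add_smul]
    rfl
  map_smul' c v := by
    rw [RingHom.id_apply, Finset.smul_sum]
    refine Finset.sum_congr rfl fun m _ => ?_
    rw [smul_smul]
    rfl

theorem FF_apply (f : Fin n0 → EuclideanSpace ℝ (Fin n)) (v : EuclideanSpace ℝ (Fin n0)) :
    FF f v = ∑ m, v m • f m := rfl

theorem FF_orthonormal {f : Fin n0 → EuclideanSpace ℝ (Fin n)} (hf : Orthonormal ℝ f) {s : ℕ}
    {v : Fin s → EuclideanSpace ℝ (Fin n0)} (hv : Orthonormal ℝ v) :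
    Orthonormal ℝ (fun l => FF f (v l)) := by
  rw [orthonormal_iff_ite] at hv ⊢
  intro l l'
  rw [← hv l l', FF_apply, FF_apply, hf.inner_sum]
  rw [PiLp.inner_apply]
  refine Finset.sum_congr rfl fun m _ => ?_
  simp [mul_comm]

/-- vectors supported in `m < hi`, whose image vanishes at positions `< p`. -/
def UU {len : ℕ} (nn : ℕ) (B : EuclideanSpace ℝ (Fin n0) →ₗ[ℝ] (Fin len → ℝ)) (hi p : ℕ) :
    Submodule ℝ (EuclideanSpace ℝ (Fin n0)) where
  carrier := {v | (∀ m, v m ≠ 0 → (m : ℕ) < hi) ∧ ∀ i : Fin len, nn + (i : ℕ) < p → B v i = 0}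
  zero_mem' := by
    refine ⟨fun m hm => absurd rfl hm, fun i _ => ?_⟩
    rw [map_zero]
    rfl
  add_mem' := by
    rintro v w ⟨h1, h2⟩ ⟨h3, h4⟩
    refine ⟨fun m hm => ?_, fun i hi => ?_⟩
    · by_contra hcon
      apply hm
      show v m + w m = 0
      have e1 : v m = 0 := by
        by_contra h; exact hcon (h1 m h)
      have e2 : w m = 0 := by
        by_contra h; exact hcon (h3 m h)
      rw [e1, e2, add_zero]
    · rw [map_add]
      show B v i + B w i = 0
      rw [h2 i hi, h4 i hi, add_zero]
  smul_mem' := by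
    rintro c v ⟨h1, h2⟩
    refine ⟨fun m hm => ?_, fun i hi => ?_⟩
    · apply h1
      intro h
      apply hm
      show c * v m = 0
      rw [h, mul_zero]
    · rw [map_smul]
      show c * B v i = 0
      rw [h2 i hi, mul_zero]

theorem mem_UU {len : ℕ} {nn : ℕ} {B : EuclideanSpace ℝ (Fin n0) →ₗ[ℝ] (Fin len → ℝ)} {hi p : ℕ}
    {v : EuclideanSpace ℝ (Fin n0)} : v ∈ UU nn B hi p ↔
      (∀ m, v m ≠ 0 → (m : ℕ) < hi) ∧ ∀ i : Fin len, nn + (i : ℕ) < p → B v i = 0 := Iff.rfl

theorem finrank_UU {len : ℕ} (nn : ℕ) (B : EuclideanSpace ℝ (Fin n0) →ₗ[ℝ] (Fin len → ℝ))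
    (hi p : ℕ) : Module.finrank ℝ (UU nn B hi p) ≤ hi := by
  classical
  let φ : UU nn B hi p →ₗ[ℝ] (Fin hi → ℝ) :=
    { toFun := fun v i => if h : (i : ℕ) < n0 then (v : EuclideanSpace ℝ (Fin n0)) ⟨i, h⟩ else 0
      map_add' := by
        intro v w
        funext i
        by_cases h : (i : ℕ) < n0
        · simp [h]
        · simp [h]
      map_smul' := by
        intro c v
        funext i
        by_cases h : (i : ℕ) < n0
        · simp [h]
        · simp [h] }
  have hφ : Function.Injective φ := by
    rw [injective_iff_map_eq_zero]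
    intro v hv
    ext m
    by_contra hm
    have h1 := v.2.1 m hm
    have h2 := congrFun hv ⟨m, h1⟩
    apply hm
    have h3 : φ v ⟨m, h1⟩ = (v : EuclideanSpace ℝ (Fin n0)) m := by
      show (if h : (m : ℕ) < n0 then (v : EuclideanSpace ℝ (Fin n0)) ⟨m, h⟩ else 0) = _
      rw [dif_pos m.2]
    rw [← h3, h2]
    rfl
  have := LinearMap.finrank_le_finrank_of_injective hφ
  rwa [Module.finrank_fin_fun] at this

/-- the vector of a functional -/
theorem exists_vec (φ : EuclideanSpace ℝ (Fin n0) →ₗ[ℝ] ℝ) :
    ∃ w : EuclideanSpace ℝ (Fin n0), ∀ v, inner ℝ w v = φ v := by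
  refine ⟨(InnerProductSpace.toDual ℝ _).symm (LinearMap.toContinuousLinearMap φ), fun v => ?_⟩
  rw [InnerProductSpace.toDual_symm_apply]
  rfl

end

/-- (Q), section 6 of the notes. -/
theorem main_Q (W : ℕ → WS) (k : ℕ → ℕ)
    (hk : ∀ j, ∀ z : Fin (W j).len → ℝ, ∑ i, z i ^ 2 ≤ 2 ^ (k j) * (W j).nZ z ^ 2)
    (hn0 : (100 * (k 0 + 3)) ^ 9 ≤ (W 0).n)
    (hn : ∀ j, ((W j).n + (W j).len + 100 * (k (j + 1) + 3)) ^ 9 ≤ (W (j + 1)).n)
    (N : ℕ → ℕ) (hN0 : 16 ≤ N 0) (hN0' : N 0 ≤ (W 0).n) (hNs : ∀ b, N (b + 1) = N b ^ 9)
    (J : ℕ) {n : ℕ} (β : ∀ j, EuclideanSpace ℝ (Fin n) →ₗ[ℝ] (Fin (W j).len → ℝ))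
    (hβ : ∑ i : Fin n, ∑ j ∈ range J, (W j).nX (β j (EuclideanSpace.single i 1)) ^ 2 ≤ 1)
    {n0 : ℕ} (f : Fin n0 → EuclideanSpace ℝ (Fin n)) (hf : Orthonormal ℝ f) :
    ∃ Λ : ℕ → Finset (EuclideanSpace ℝ (Fin n0)), Λ 0 = ∅ ∧
      (∀ b, 50 * (Λ (b + 1)).card ≤ N b ^ 2) ∧
      ∀ (s : ℕ) (bb : Fin s → ℕ) (v : Fin s → EuclideanSpace ℝ (Fin n0)), Orthonormal ℝ v →
        (∀ l m, v l m ≠ 0 → lo N (bb l) ≤ (m : ℕ) ∧ (m : ℕ) < N (bb l)) →
        (∀ l, ∀ w ∈ Λ (bb l), inner ℝ w (v l) = 0) →
        ∑ l, ∑ j ∈ range J, (W j).nX (β j (∑ m, v l m • f m)) ^ 2 ≤ 2072 := by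
  classical
  -- arithmetic of `N`
  have hN16 : ∀ b, 16 ≤ N b := by
    intro b
    induction b with
    | zero => exact hN0
    | succ b ih =>
      rw [hNs]
      calc 16 ≤ N b := ih
        _ ≤ N b ^ 9 := Nat.le_self_pow (by norm_num) _
  have hNstep : ∀ b, 2 * N b ≤ N (b + 1) := by
    intro b
    rw [hNs]
    have h1 := hN16 b
    calc 2 * N b ≤ N b * N b := by nlinarith
      _ = N b ^ 2 := by ring
      _ ≤ N b ^ 9 := Nat.pow_le_pow_right (by omega) (by norm_num)
  have hNmono : Monotone N := monotone_nat_of_le_succ fun b => by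
    have := hNstep b; omega
  have hNpow : ∀ b, 2 ^ (b + 3) ≤ N b := by
    intro b
    induction b with
    | zero => have := hN16 0; norm_num; omega
    | succ b ih =>
      have := hNstep b
      calc 2 ^ (b + 1 + 3) = 2 * 2 ^ (b + 3) := by ring
        _ ≤ N (b + 1) := by omega
  have hNlt : ∀ b, b + 3 < N b := fun b => (Nat.lt_two_pow_self).trans_le (hNpow b)
  -- positions
  have hstep : ∀ j, (W j).n + (W j).len ≤ (W (j + 1)).n := fun j => by
    refine le_trans ?_ (hn j)
    refine le_trans ?_ (Nat.le_self_pow (by norm_num) _)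
    omega
  have hsep : ∀ j j', j < j' → (W j).n + (W j).len ≤ (W j').n := by
    intro j j' h
    induction j' with
    | zero => omega
    | succ j' ih =>
      rcases Nat.lt_succ_iff_lt_or_eq.1 h with h' | h'
      · have h1 := ih h'
        have h2 := hstep j'
        omega
      · subst h'; exact hstep j
  have hn0j : ∀ j, (W 0).n ≤ (W j).n := by
    intro j
    rcases Nat.eq_zero_or_pos j with h | h
    · rw [h]
    · have := hsep 0 j h; omega
  -- the scales `bj`
  have hbj : ∀ j, ∃ b, N b ≤ (W j).n ∧ (W j).n < N (b + 1) := by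
    intro j
    have hex : ∃ b, (W j).n < N (b + 1) := ⟨(W j).n, by have := hNlt ((W j).n + 1); omega⟩
    refine ⟨Nat.find hex, ?_, Nat.find_spec hex⟩
    rcases Nat.eq_zero_or_pos (Nat.find hex) with h | h
    · rw [h]; exact hN0'.trans (hn0j j)
    · have h1 := Nat.find_min hex (m := Nat.find hex - 1) (by omega)
      rw [Nat.sub_add_cancel h] at h1
      omega
  choose bj hbj1 hbj2 using hbj
  have hMj : ∀ j j', j < j' → (W j).n + (W j).len + 100 * (k j' + 3) < N (bj j') := by
    intro j j' h
    obtain ⟨i, rfl⟩ : ∃ i, j' = i + 1 := ⟨j' - 1, by omega⟩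
    have h1 : (W j).n + (W j).len ≤ (W i).n + (W i).len := by
      rcases Nat.lt_succ_iff_lt_or_eq.1 h with h' | h'
      · have := hsep j i h'; omega
      · rw [h']
    have h2 := hbj2 (i + 1)
    rw [hNs] at h2
    have h3 := lt_of_pow_lt_pow_left₀ 9 (Nat.zero_le _) ((hn i).trans_lt h2)
    linarith
  have hkj : ∀ j, 100 * (k j + 3) < N (bj j) := by
    intro j
    rcases Nat.eq_zero_or_pos j with h | h
    · rw [h]
      have h2 := hbj2 0
      rw [hNs] at h2
      exact lt_of_pow_lt_pow_left₀ 9 (Nat.zero_le _) (hn0.trans_lt h2)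
    · have h3 := hMj 0 j h
      linarith
  set B : ∀ j, EuclideanSpace ℝ (Fin n0) →ₗ[ℝ] (Fin (W j).len → ℝ) :=
    fun j => (β j).comp (FF f) with hB
  set pp : ℕ → ℕ → ℕ := fun j r => if r = 0 then 0 else N (bj j + r - 1) with hpp
  -- apply the block lemma
  have hfr : ∀ j (r : Fin (n0 + 1)), Module.finrank ℝ ((UU (W j).n (B j) (N (bj j + (r : ℕ)))
      (pp j r)).map (B j)) ≤ (max (W j).n (pp j r)) ^ 9 := by
    intro j r
    refine (Submodule.finrank_map_le _ _).trans ((finrank_UU _ _ _ _).trans ?_)
    by_cases hr : (r : ℕ) = 0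
    · rw [hr, add_zero]
      calc N (bj j) ≤ (W j).n := hbj1 j
        _ ≤ max (W j).n (pp j 0) := le_max_left _ _
        _ ≤ _ := Nat.le_self_pow (by norm_num) _
    · have h1 : pp j r = N (bj j + r - 1) := if_neg hr
      have h2 : bj j + (r : ℕ) = (bj j + r - 1) + 1 := by omega
      rw [h1]
      calc N (bj j + (r : ℕ)) = N (bj j + r - 1) ^ 9 := by
            conv_lhs => rw [h2]
            rw [hNs]
        _ ≤ _ := Nat.pow_le_pow_left (le_max_right _ _) 9
  have hkm : ∀ j (r : Fin (n0 + 1)), k j + 3 ≤ max (W j).n (pp j r) := by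
    intro j r
    have h1 := hkj j
    have h2 := hbj1 j
    have h3 := le_max_left (W j).n (pp j r)
    omega
  have hrm : ∀ j (r : Fin (n0 + 1)), 2 ^ ((r : ℕ) + 1) ≤ max (W j).n (pp j r) := by
    intro j r
    by_cases hr : (r : ℕ) = 0
    · have h1 := hkm j r
      rw [hr] at h1 ⊢
      norm_num
      omega
    · have h1 : pp j r = N (bj j + r - 1) := if_neg hr
      rw [h1]
      calc 2 ^ ((r : ℕ) + 1) ≤ 2 ^ (bj j + r - 1 + 3) :=
            Nat.pow_le_pow_right (by norm_num) (by omega)
        _ ≤ N (bj j + r - 1) := hNpow _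
        _ ≤ _ := le_max_right _ _
  have hBL := fun j => (W j).block_lemma (k j) (hk j) (n0 + 1)
    (fun r => (UU (W j).n (B j) (N (bj j + (r : ℕ))) (pp j r)).map (B j))
    (fun r => max (W j).n (pp j r))
    (by
      rintro r g ⟨v, hv, rfl⟩ i hi
      refine max_le (Nat.le_add_right _ _) ?_
      by_contra hcon
      exact hi (hv.2 i (by omega)))
    (by
      intro r
      refine le_trans ?_ (five_pow_le_phi _)
      exact Nat.pow_le_pow_right (by norm_num) (hfr j r))
    (by
      intro r
      refine le_trans ?_ (poly_le_phi _)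
      have h1 := hfr j r
      have h2 := hkm j r
      have h3 := hrm j r
      set m := max (W j).n (pp j r)
      calc 32 * Module.finrank ℝ ((UU (W j).n (B j) (N (bj j + (r : ℕ))) (pp j r)).map (B j))
            * (k j + 1) * 2 ^ ((r : ℕ) + 1)
          ≤ 32 * m ^ 9 * m * m := by
            gcongr
            omega
        _ = 32 * m ^ 11 := by ring
        _ ≤ 32 * (m + 1) ^ 11 := by gcongr; omega)
    (by
      intro r
      refine (hkm j r).trans (le_trans ?_ (poly_le_phi _))
      set m := max (W j).n (pp j r)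
      calc m ≤ m + 1 := by omega
        _ ≤ (m + 1) ^ 11 := Nat.le_self_pow (by norm_num) _
        _ ≤ 32 * (m + 1) ^ 11 := by omega)
  choose a S ha1 ha2 ha3 ha4 using hBL
  -- the scale of an index
  have hscex : ∀ m : ℕ, ∃ b, m < N b := fun m => ⟨m, by have := hNlt m; omega⟩
  set sc : ℕ → ℕ := fun m => Nat.find (hscex m) with hsc
  have hsc1 : ∀ m b, m < N b → sc m ≤ b := fun m b h => Nat.find_min' _ h
  have hsc2 : ∀ m b, lo N b ≤ m → b ≤ sc m := by
    intro m b h
    cases b with
    | zero => omega
    | succ b =>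
      by_contra hcon
      have h1 : m < N (sc m) := Nat.find_spec (hscex m)
      have h2 : N (sc m) ≤ N b := hNmono (by omega)
      have h3 : N b ≤ N b ^ 3 := Nat.le_self_pow (by norm_num) _
      have h4 : N b ^ 3 ≤ m := h
      omega
  choose vec hvec using fun φ : EuclideanSpace ℝ (Fin n0) →ₗ[ℝ] ℝ => exists_vec φ
  set fi : ℕ → Fin (n0 + 1) := fun r => ⟨min r n0, by omega⟩ with hfi
  -- rows (0)
  set posf : ℕ → ℕ → (EuclideanSpace ℝ (Fin n0) →ₗ[ℝ] ℝ) := fun j q =>
    if h : q - (W j).n < (W j).len then (LinearMap.proj ⟨q - (W j).n, h⟩).comp (B j) else 0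
    with hposf
  set jq : ℕ → ℕ := fun q =>
    if h : ∃ j, (W j).n ≤ q ∧ q < (W j).n + (W j).len then Classical.choose h else 0 with hjq
  have hjq' : ∀ j (i : Fin (W j).len), jq ((W j).n + (i : ℕ)) = j := by
    intro j i
    have hi := i.2
    have h : ∃ j', (W j').n ≤ (W j).n + (i : ℕ) ∧
      (W j).n + (i : ℕ) < (W j').n + (W j').len := ⟨j, by omega, by omega⟩
    have e : jq ((W j).n + (i : ℕ)) = Classical.choose h := dif_pos h
    rw [e]
    obtain ⟨h1, h2⟩ := Classical.choose_spec h
    generalize Classical.choose h = j' at h1 h2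
    by_contra hne
    rcases lt_or_gt_of_ne hne with h3 | h3
    · have := hsep _ _ h3; omega
    · have := hsep _ _ h3; omega
  set R0 : ℕ → Finset (EuclideanSpace ℝ (Fin n0)) := fun b =>
    ((range (N b)).filter (fun q => (W 0).n ≤ q)).image (fun q => vec (posf (jq q) q)) with hR0
  -- rows (i)
  set lev : ℕ → ℕ → ℕ → Fin n0 → (EuclideanSpace ℝ (Fin n0) →ₗ[ℝ] ℝ) := fun j r' i m =>
    ∑ q ∈ S j (fi (sc m - bj j)) i ∩ S j (fi r') i,
      ((B j (EuclideanSpace.single m 1) q / a j (fi (sc m - bj j)) q) * (1 / a j (fi r') q)) •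
        ((LinearMap.proj q).comp (B j)) with hlev
  set R1 : ℕ → Finset (EuclideanSpace ℝ (Fin n0)) := fun b =>
    if h : ∃ j, bj j ≤ b ∧ N b < (W j).n + (W j).len then
      ((range (k (Classical.choose h) + 1)) ×ˢ
        (Finset.univ.filter (fun m : Fin n0 => (m : ℕ) < N b))).image
        (fun x => vec (lev (Classical.choose h) (b + 1 - bj (Classical.choose h)) x.1 x.2))
    else ∅ with hR1
  have hown : ∀ b j j', bj j ≤ b → N b < (W j).n + (W j).len → bj j' ≤ b →
      N b < (W j').n + (W j').len → j = j' := by
    have key : ∀ b j j', j < j' → N b < (W j).n + (W j).len → bj j' ≤ b → False := by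
      intro b j j' h h1 h2
      have h3 := hMj j j' h
      have h4 := hNmono h2
      omega
    intro b j j' h1 h2 h3 h4
    by_contra hne
    rcases lt_or_gt_of_ne hne with h5 | h5
    · exact key b j j' h5 h2 h3
    · exact key b j' j h5 h4 h1
  set Λ : ℕ → Finset (EuclideanSpace ℝ (Fin n0)) := fun b =>
    match b with
    | 0 => ∅
    | b + 1 => R0 b ∪ R1 b with hΛdef
  refine ⟨Λ, rfl, fun b => ?_, ?_⟩
  · -- counting
    have hc0 : (R0 b).card ≤ N b := by
      refine Finset.card_image_le.trans ((Finset.card_filter_le _ _).trans ?_)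
      rw [Finset.card_range]
    have hcf : (Finset.univ.filter (fun m : Fin n0 => (m : ℕ) < N b)).card ≤ N b := by
      calc (Finset.univ.filter (fun m : Fin n0 => (m : ℕ) < N b)).card
          ≤ (range (N b)).card := by
            refine Finset.card_le_card_of_injOn (fun m => (m : ℕ)) ?_ ?_
            · intro m hm
              have := (Finset.mem_filter.1 hm).2
              simpa using this
            · intro m _ m' _ h
              exact Fin.ext h
        _ = N b := Finset.card_range _
    have hU : (Λ (b + 1)).card ≤ (R0 b).card + (R1 b).card := Finset.card_union_le _ _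
    by_cases h : ∃ j, bj j ≤ b ∧ N b < (W j).n + (W j).len
    · have hc1 : (R1 b).card ≤ (k (Classical.choose h) + 1) * N b := by
        have e : R1 b = ((range (k (Classical.choose h) + 1)) ×ˢ
          (Finset.univ.filter (fun m : Fin n0 => (m : ℕ) < N b))).image
          (fun x => vec (lev (Classical.choose h) (b + 1 - bj (Classical.choose h)) x.1 x.2)) :=
          dif_pos h
        rw [e]
        refine Finset.card_image_le.trans ?_
        rw [Finset.card_product, Finset.card_range]
        exact Nat.mul_le_mul_left _ hcf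
      obtain ⟨h1, h2⟩ := Classical.choose_spec h
      generalize Classical.choose h = j at h1 h2 hc1
      have h3 := hkj j
      have h4 := hNmono h1
      calc 50 * (Λ (b + 1)).card ≤ 50 * (N b + (k j + 1) * N b) := by
            have := hU.trans (Nat.add_le_add hc0 hc1)
            omega
        _ = (50 * (k j + 2)) * N b := by ring
        _ ≤ N b * N b := Nat.mul_le_mul_right _ (by omega)
        _ = N b ^ 2 := by ring
    · have e : R1 b = ∅ := dif_neg h
      rw [e, Finset.card_empty, add_zero] at hU
      by_cases h' : N b ≤ (W 0).n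
      · have h0 : (R0 b).card = 0 := by
          rw [Finset.card_eq_zero, hR0]
          show Finset.image _ _ = ∅
          rw [Finset.image_eq_empty, Finset.filter_eq_empty_iff]
          intro q hq
          have := Finset.mem_range.1 hq
          omega
        rw [h0] at hU
        have : (Λ (b + 1)).card = 0 := by omega
        rw [this]
        omega
      · have h1 := hkj 0
        have h2 := hbj1 0
        have h3 : 50 ≤ N b := by omega
        calc 50 * (Λ (b + 1)).card ≤ 50 * N b := by
              have := hU.trans hc0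
              omega
          _ ≤ N b * N b := Nat.mul_le_mul_right _ h3
          _ = N b ^ 2 := by ring
  · -- the main estimate
    intro s bb v hv hsupp hΛ
    have hbb : ∀ l, bb l ≤ n0 := by
      intro l
      have h1 : v l ≠ 0 := hv.ne_zero l
      obtain ⟨m, hm⟩ : ∃ m, v l m ≠ 0 := by
        by_contra hcon
        push Not at hcon
        apply h1
        ext m
        exact hcon m
      obtain ⟨h2, h3⟩ := hsupp l m hm
      cases hbl : bb l with
      | zero => omega
      | succ b =>
        rw [hbl] at h2
        have h4 : N b ^ 3 ≤ (m : ℕ) := h2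
        have h5 : N b ≤ N b ^ 3 := Nat.le_self_pow (by norm_num) _
        have h6 := hNlt b
        have h7 := m.2
        omega
    set rr : ℕ → Fin s → Fin (n0 + 1) := fun j l => fi (bb l - bj j) with hrr
    have hrrv : ∀ j l, ((rr j l : Fin (n0 + 1)) : ℕ) = bb l - bj j := by
      intro j l
      show min (bb l - bj j) n0 = _
      have := hbb l
      omega
    -- rows (0) kill
    have hkill : ∀ l j (i : Fin (W j).len), ∀ b, bb l = b + 1 → (W j).n + (i : ℕ) < N b →
        B j (v l) i = 0 := by
      intro l j i b hb hi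
      have hmemq : vec (posf (jq ((W j).n + (i : ℕ))) ((W j).n + (i : ℕ))) ∈ Λ (b + 1) := by
        refine Finset.mem_union_left _ ?_
        refine Finset.mem_image.2 ⟨(W j).n + (i : ℕ), ?_, rfl⟩
        refine Finset.mem_filter.2 ⟨Finset.mem_range.2 hi, ?_⟩
        have := hn0j j
        omega
      rw [← hb] at hmemq
      have h1 := hΛ l _ hmemq
      rw [hvec, hjq'] at h1
      have h2 : (W j).n + (i : ℕ) - (W j).n < (W j).len := by
        have := i.2
        omega
      have h3 : posf j ((W j).n + (i : ℕ)) = (LinearMap.proj ⟨(W j).n + (i : ℕ) - (W j).n, h2⟩).comp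
        (B j) := dif_pos h2
      rw [h3] at h1
      have h4 : (⟨(W j).n + (i : ℕ) - (W j).n, h2⟩ : Fin (W j).len) = i := by
        apply Fin.ext
        show (W j).n + (i : ℕ) - (W j).n = (i : ℕ)
        omega
      rw [h4] at h1
      exact h1
    have hmem : ∀ j l, B j (v l) ∈ (UU (W j).n (B j) (N (bj j + ((rr j l : Fin (n0 + 1)) : ℕ)))
        (pp j (rr j l))).map (B j) := by
      intro j l
      refine ⟨v l, ⟨fun m hm => ?_, fun i hi => ?_⟩, rfl⟩
      · have h1 := (hsupp l m hm).2
        refine h1.trans_le (hNmono ?_)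
        rw [hrrv]
        omega
      · by_cases hr : ((rr j l : Fin (n0 + 1)) : ℕ) = 0
        · have h1 : pp j (rr j l) = 0 := if_pos hr
          omega
        · have h1 : pp j (rr j l) = N (bj j + (rr j l) - 1) := if_neg hr
          rw [h1] at hi
          have h2 := hrrv j l
          have h3 : bb l = (bj j + ((rr j l : Fin (n0 + 1)) : ℕ) - 1) + 1 := by omega
          exact hkill l j i _ h3 hi
    -- the combined vectors
    have hcomb : ∀ j (t : Fin s → ℝ) (r : Fin (n0 + 1)),
        (fun q => ∑ l, if rr j l = r then t l * B j (v l) q else 0)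
          = B j (∑ l, if rr j l = r then t l • v l else 0) := by
      intro j t r
      rw [map_sum]
      funext q
      rw [Finset.sum_apply]
      refine Finset.sum_congr rfl fun l _ => ?_
      split_ifs
      · rw [map_smul]; rfl
      · rw [map_zero]; rfl
    have hgmem : ∀ j (t : Fin s → ℝ) (r : Fin (n0 + 1)),
        (fun q => ∑ l, if rr j l = r then t l * B j (v l) q else 0) ∈
          (UU (W j).n (B j) (N (bj j + (r : ℕ))) (pp j r)).map (B j) := by
      intro j t r
      rw [hcomb, map_sum]
      refine Submodule.sum_mem _ fun l _ => ?_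
      split_ifs with h
      · rw [map_smul]
        refine Submodule.smul_mem _ _ ?_
        have := hmem j l
        rwa [h] at this
      · rw [map_zero]
        exact Submodule.zero_mem _
    -- level orthogonality
    have hlevort : ∀ j (t : Fin s → ℝ), ∀ i ≤ k j, ∀ r r' : Fin (n0 + 1), r < r' →
        ∑ q ∈ S j r i ∩ S j r' i,
          ((∑ l, if rr j l = r then t l * B j (v l) q else 0) / a j r q) *
          ((∑ l, if rr j l = r' then t l * B j (v l) q else 0) / a j r' q) = 0 := by
      intro j t i hi r r' hr
      set w : EuclideanSpace ℝ (Fin n0) := ∑ l, if rr j l = r then t l • v l else 0 with hw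
      have e1 : ∀ q, (∑ l, if rr j l = r then t l * B j (v l) q else 0) = B j w q := fun q =>
        congrFun (hcomb j t r) q
      have hwsupp : ∀ m, w m ≠ 0 → ∃ l, rr j l = r ∧ v l m ≠ 0 := by
        intro m hm
        by_contra hcon
        push Not at hcon
        apply hm
        rw [hw]
        rw [WithLp.ofLp_sum, Finset.sum_apply]
        refine Finset.sum_eq_zero fun l _ => ?_
        split_ifs with h
        · show t l * v l m = 0
          rw [hcon l h, mul_zero]
        · rfl
      -- for each l with rr j l = r'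
      have e2 : ∀ l, rr j l = r' → ∑ q ∈ S j r i ∩ S j r' i,
          (B j w q / a j r q) * (B j (v l) q / a j r' q) = 0 := by
        intro l hl
        have hl1 := hrrv j l
        rw [hl] at hl1
        have hrr' : (r : ℕ) < (r' : ℕ) := hr
        obtain ⟨b, hb⟩ : ∃ b, bb l = b + 1 := ⟨bb l - 1, by omega⟩
        by_cases hown' : N b < (W j).n + (W j).len
        · have hex : ∃ j, bj j ≤ b ∧ N b < (W j).n + (W j).len := ⟨j, by omega, hown'⟩
          have hjeq : Classical.choose hex = j :=
            hown b _ _ (Classical.choose_spec hex).1 (Classical.choose_spec hex).2 (by omega) hown'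
          -- rows
          have hrow : ∀ m : Fin n0, (m : ℕ) < N b → lev j (b + 1 - bj j) i m (v l) = 0 := by
            intro m hm
            have hmemq : vec (lev j (b + 1 - bj j) i m) ∈ Λ (b + 1) := by
              refine Finset.mem_union_right _ ?_
              have e : R1 b = ((range (k (Classical.choose hex) + 1)) ×ˢ
                (Finset.univ.filter (fun m : Fin n0 => (m : ℕ) < N b))).image
                (fun x => vec (lev (Classical.choose hex)
                  (b + 1 - bj (Classical.choose hex)) x.1 x.2)) := dif_pos hex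
              rw [e]
              refine Finset.mem_image.2 ⟨(i, m), ?_, ?_⟩
              · rw [Finset.mem_product]
                refine ⟨?_, ?_⟩
                · rw [hjeq, Finset.mem_range]
                  show i < k j + 1
                  omega
                · exact Finset.mem_filter.2 ⟨Finset.mem_univ _, hm⟩
              · rw [hjeq]
            have h1 := hΛ l _ (by rw [hb]; exact hmemq)
            rw [hvec] at h1
            exact h1
          have hfr' : fi (b + 1 - bj j) = r' := by
            rw [← hb]; exact hl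
          -- expand w
          have hwexp : B j w = ∑ m, w m • B j (EuclideanSpace.single m 1) := by
            conv_lhs => rw [show w = ∑ m, w m • EuclideanSpace.single m (1 : ℝ) from by
              ext m'
              rw [WithLp.ofLp_sum, Finset.sum_apply]
              simp [Pi.single_apply]]
            rw [map_sum]
            refine Finset.sum_congr rfl fun m _ => ?_
            rw [map_smul]
          have hterm : ∀ m, w m * ∑ q ∈ S j r i ∩ S j r' i,
              (B j (EuclideanSpace.single m 1) q / a j r q) * (B j (v l) q / a j r' q) = 0 := by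
            intro m
            by_cases hm : w m = 0
            · rw [hm, zero_mul]
            · obtain ⟨l', hl', hm'⟩ := hwsupp m hm
              obtain ⟨g1, g2⟩ := hsupp l' m hm'
              have g3 : sc m = bb l' := le_antisymm (hsc1 _ _ g2) (hsc2 _ _ g1)
              have g4 := hrrv j l'
              rw [hl'] at g4
              have g5 : bb l' ≤ b := by omega
              have g6 := hrow m (g2.trans_le (hNmono g5))
              have g7 : fi (sc m - bj j) = r := by rw [g3]; exact hl'
              rw [hlev] at g6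
              simp only [g7, hfr'] at g6
              rw [LinearMap.sum_apply] at g6
              rw [← mul_zero (w m), ← g6]
              congr 1
              refine Finset.sum_congr rfl fun q _ => ?_
              rw [LinearMap.smul_apply, smul_eq_mul]
              show _ = _ * (B j (v l) q)
              ring
          have : ∑ q ∈ S j r i ∩ S j r' i, (B j w q / a j r q) * (B j (v l) q / a j r' q)
              = ∑ m, w m * ∑ q ∈ S j r i ∩ S j r' i,
                (B j (EuclideanSpace.single m 1) q / a j r q) * (B j (v l) q / a j r' q) := by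
            simp_rw [Finset.mul_sum]
            rw [Finset.sum_comm]
            refine Finset.sum_congr rfl fun q _ => ?_
            rw [hwexp, Finset.sum_apply, Finset.sum_div, Finset.sum_mul]
            refine Finset.sum_congr rfl fun m _ => ?_
            show w m * (B j (EuclideanSpace.single m 1) q) / a j r q * _ = _
            ring
          rw [this]
          exact Finset.sum_eq_zero fun m _ => hterm m
        · refine Finset.sum_eq_zero fun q _ => ?_
          have : B j (v l) q = 0 := hkill l j q b hb (by have := q.2; omega)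
          rw [this]
          simp
      have e3 : ∑ q ∈ S j r i ∩ S j r' i,
          ((∑ l, if rr j l = r then t l * B j (v l) q else 0) / a j r q) *
          ((∑ l, if rr j l = r' then t l * B j (v l) q else 0) / a j r' q)
          = ∑ l, ∑ q ∈ S j r i ∩ S j r' i, (B j w q / a j r q) *
            ((if rr j l = r' then t l * B j (v l) q else 0) / a j r' q) := by
        rw [Finset.sum_comm]
        refine Finset.sum_congr rfl fun q _ => ?_
        rw [e1, Finset.sum_div, Finset.mul_sum]
      rw [e3]
      refine Finset.sum_eq_zero fun l _ => ?_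
      by_cases h : rr j l = r'
      · simp only [if_pos h]
        have := e2 l h
        rw [← mul_zero (t l), ← this, Finset.mul_sum]
        refine Finset.sum_congr rfl fun q _ => ?_
        ring
      · simp [if_neg h]
    -- conclusion
    set g : Fin s → Fin s → ℝ := fun l l' => ∑ j ∈ range J,
      (if rr j l = rr j l' then ∑ q, B j (v l) q * B j (v l') q / a j (rr j l) q else 0) with hg
    have hcore := q_core W J β hβ 2072 (by norm_num) s (fun l => FF f (v l)) (FF_orthonormal hf hv)
      (fun l j q => B j (v l) q / a j (rr j l) q) g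
      (by
        intro l
        show _ = ∑ j ∈ range J, _
        refine Finset.sum_congr rfl fun j _ => ?_
        rw [if_pos rfl]
        refine Finset.sum_congr rfl fun q _ => ?_
        show B j (v l) q / a j (rr j l) q * B j (v l) q = _
        ring)
      (by
        intro t
        have h1 : ∀ j, (W j).nZ (fun q => ∑ l, t l * (B j (v l) q / a j (rr j l) q)) ^ 2
            ≤ 2072 * ∑ l, ∑ l', t l * t l' *
              (if rr j l = rr j l' then ∑ q, B j (v l) q * B j (v l') q / a j (rr j l) q else 0) := by
          intro j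
          have h2 := ha4 j (fun r q => ∑ l, if rr j l = r then t l * B j (v l) q else 0)
            (fun r => hgmem j t r) (hlevort j t)
          rw [sum_fiber_sq (a j) (fun l => B j (v l)) (rr j) t] at h2
          simp only [sum_fiber_div (a j) (fun l => B j (v l)) (rr j) t] at h2
          exact h2
        refine (Finset.sum_le_sum fun j _ => h1 j).trans (le_of_eq ?_)
        rw [← Finset.mul_sum]
        congr 1
        rw [Finset.sum_comm]
        refine Finset.sum_congr rfl fun l _ => ?_
        rw [Finset.sum_comm]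
        refine Finset.sum_congr rfl fun l' _ => ?_
        rw [← Finset.mul_sum])
    refine le_trans ?_ hcore
    refine Finset.sum_le_sum fun l _ => ?_
    show _ ≤ ∑ j ∈ range J, _
    refine Finset.sum_le_sum fun j _ => ?_
    rw [if_pos rfl]
    refine (ha3 j (rr j l) (B j (v l)) (hmem j l)).trans (le_of_eq ?_)
    refine Finset.sum_congr rfl fun q _ => ?_
    rw [sq]

end Pool.Agent.MP_1b7159_an
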