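import Mathlib

/-!
# MP_1b7159_an: two finite dimensional linear algebra lemmas (SVD of a bilinear form; good families)
-/

set_option autoImplicit false

open Finset

namespace Pool.Agent.MP_1b7159_an


/-- Singular value decomposition of a bilinear form on a Euclidean space. -/
theorem exists_svd {V : Type*} [NormedAddCommGroup V] [InnerProductSpace ℝ V]
    [FiniteDimensional ℝ V] (b : V →ₗ[ℝ] V →ₗ[ℝ] ℝ) :
    ∃ (n0 : ℕ) (f g : Fin n0 → V) (s : Fin n0 → ℝ), Orthonormal ℝ f ∧ Orthonormal ℝ g ∧
      Antitone s ∧ (∀ m, 0 < s m) ∧ (∀ m m', b (f m) (g m') = if m = m' then s m else 0) ∧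
      ∀ (t : ℕ) (e : OrthonormalBasis (Fin t) ℝ V), ∑ i, b (e i) (e i) ≤ ∑ m, s m := by
  classical
  -- the operator
  let e0 := stdOrthonormalBasis ℝ V
  let T : V →ₗ[ℝ] V := ∑ i, (LinearMap.flip b (e0 i)).smulRight (e0 i)
  have hT : ∀ v w, inner ℝ (T v) w = b v w := by
    intro v w
    have h1 : T v = ∑ i, b v (e0 i) • e0 i := by
      simp [T, LinearMap.sum_apply]
    rw [h1, sum_inner]
    have h2 : b v w = b v (∑ i, inner ℝ (e0 i) w • e0 i) := by
      rw [e0.sum_repr' w]
    rw [h2, map_sum]
    refine Finset.sum_congr rfl (fun i _ => ?_)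
    rw [real_inner_smul_left, map_smul, smul_eq_mul, mul_comm]
  have hn : Module.finrank ℝ V = Module.finrank ℝ V := rfl
  set n := Module.finrank ℝ V with hndef
  let S : V →ₗ[ℝ] V := LinearMap.adjoint T ∘ₗ T
  have hpos : S.IsPositive := LinearMap.isPositive_adjoint_comp_self T
  have hsym : S.IsSymmetric := hpos.isSymmetric
  let eb : OrthonormalBasis (Fin n) ℝ V := hsym.eigenvectorBasis hn
  let ev : Fin n → ℝ := hsym.eigenvalues hn
  have hanti : Antitone ev := hsym.eigenvalues_antitone hn
  have hnn : ∀ i, 0 ≤ ev i := fun i => hpos.nonneg_eigenvalues hn i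
  have hinner : ∀ m m', inner ℝ (T (eb m)) (T (eb m')) = if m = m' then ev m else 0 := by
    intro m m'
    have h1 : inner ℝ (T (eb m)) (T (eb m')) = inner ℝ (S (eb m)) (eb m') := by
      simp only [S, LinearMap.comp_apply]
      rw [LinearMap.adjoint_inner_left]
    rw [h1]
    have h2 : S (eb m) = (ev m) • eb m := by
      exact hsym.apply_eigenvectorBasis hn m
    rw [h2, real_inner_smul_left]
    have h3 := orthonormal_iff_ite.1 eb.orthonormal m m'
    rw [h3]
    split_ifs <;> simp
  have hnorm : ∀ m, ‖T (eb m)‖ = Real.sqrt (ev m) := by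
    intro m
    rw [norm_eq_sqrt_real_inner, hinner]
    simp
  set P : Finset (Fin n) := Finset.univ.filter (fun m => 0 < ev m) with hP
  have hP_le : P.card ≤ n := by
    have := Finset.card_le_univ P
    simpa using this
  have hpos1 : ∀ m : Fin P.card, 0 < ev (Fin.castLE hP_le m) := by
    intro m
    by_contra hcon
    have hsub : P ⊆ Finset.univ.filter (fun j : Fin n => (j : ℕ) < (m : ℕ)) := by
      intro j hj
      have hj' : 0 < ev j := by simpa [hP] using hj
      simp only [Finset.mem_filter, Finset.mem_univ, true_and]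
      by_contra hjm
      have : Fin.castLE hP_le m ≤ j := by
        rw [Fin.le_def]; simpa using (not_lt.1 hjm)
      have := hanti this
      linarith
    have hc := Finset.card_le_card hsub
    have hc2 : (Finset.univ.filter (fun j : Fin n => (j : ℕ) < (m : ℕ))).card ≤ (m : ℕ) := by
      have : (Finset.univ.filter (fun j : Fin n => (j : ℕ) < (m : ℕ))).card
          = ((Finset.univ.filter (fun j : Fin n => (j : ℕ) < (m : ℕ))).map Fin.valEmbedding).card :=
        (Finset.card_map _).symm
      rw [this]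
      calc _ ≤ (Finset.range (m : ℕ)).card := by
            apply Finset.card_le_card
            intro x hx
            simp only [Finset.mem_map, Finset.mem_filter, Finset.mem_univ, true_and,
              Fin.valEmbedding_apply] at hx
            obtain ⟨a, ha, rfl⟩ := hx
            exact Finset.mem_range.2 ha
        _ = (m : ℕ) := Finset.card_range _
    have := m.2
    omega
  have hpos2 : ∀ j : Fin n, 0 < ev j → (j : ℕ) < P.card := by
    intro j hj
    have hsub : (Finset.Iic j) ⊆ P := by
      intro i hi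
      have hij : i ≤ j := Finset.mem_Iic.1 hi
      have := hanti hij
      simp only [hP, Finset.mem_filter, Finset.mem_univ, true_and]
      linarith
    have hc := Finset.card_le_card hsub
    rw [Fin.card_Iic] at hc
    omega
  have hspos : ∀ m : Fin P.card, 0 < Real.sqrt (ev (Fin.castLE hP_le m)) := fun m =>
    Real.sqrt_pos.2 (hpos1 m)
  have hinj : Function.Injective (Fin.castLE hP_le) := Fin.castLE_injective hP_le
  refine ⟨P.card, fun m => eb (Fin.castLE hP_le m),
    fun m => (Real.sqrt (ev (Fin.castLE hP_le m)))⁻¹ • T (eb (Fin.castLE hP_le m)),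
    fun m => Real.sqrt (ev (Fin.castLE hP_le m)), ?_, ?_, ?_, hspos, ?_, ?_⟩
  · exact eb.orthonormal.comp _ hinj
  · rw [orthonormal_iff_ite]
    intro i j
    rw [real_inner_smul_left, real_inner_smul_right, hinner]
    by_cases hij : i = j
    · subst hij
      simp only [if_true]
      have h1 := hspos i
      have h2 : Real.sqrt (ev (Fin.castLE hP_le i)) * Real.sqrt (ev (Fin.castLE hP_le i))
        = ev (Fin.castLE hP_le i) := Real.mul_self_sqrt (hnn _)
      generalize Real.sqrt (ev (Fin.castLE hP_le i)) = q at *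
      rw [← h2]
      field_simp
    · have : Fin.castLE hP_le i ≠ Fin.castLE hP_le j := fun h => hij (hinj h)
      rw [if_neg this, if_neg hij]
      simp
  · intro i j hij
    apply Real.sqrt_le_sqrt
    apply hanti
    rw [Fin.le_def]; simpa using hij
  · intro m m'
    rw [← hT, real_inner_smul_right, hinner]
    by_cases hmm : m = m'
    · subst hmm
      simp only [if_true]
      have h1 := hspos m
      have h2 : Real.sqrt (ev (Fin.castLE hP_le m)) * Real.sqrt (ev (Fin.castLE hP_le m))
        = ev (Fin.castLE hP_le m) := Real.mul_self_sqrt (hnn _)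
      generalize Real.sqrt (ev (Fin.castLE hP_le m)) = q at *
      rw [← h2]
      field_simp
    · have : Fin.castLE hP_le m ≠ Fin.castLE hP_le m' := fun h => hmm (hinj h)
      rw [if_neg this, if_neg hmm]
      simp
  · intro t e
    have h1 : ∀ i, b (e i) (e i) = ∑ m, inner ℝ (eb m) (e i) * inner ℝ (e i) (T (eb m)) := by
      intro i
      rw [← hT]
      conv_lhs => rw [← eb.sum_repr' (e i)]
      rw [map_sum, sum_inner]
      refine Finset.sum_congr rfl (fun m _ => ?_)
      rw [map_smul, real_inner_smul_left, eb.sum_repr' (e i)]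
      congr 1
      exact real_inner_comm _ _
    have h2 : ∑ i, b (e i) (e i) = ∑ m, inner ℝ (eb m) (T (eb m)) := by
      rw [Finset.sum_congr rfl (fun i _ => h1 i), Finset.sum_comm]
      refine Finset.sum_congr rfl (fun m _ => ?_)
      exact e.sum_inner_mul_inner (eb m) (T (eb m))
    rw [h2]
    have h3 : ∑ m, inner ℝ (eb m) (T (eb m)) ≤ ∑ m, Real.sqrt (ev m) := by
      apply Finset.sum_le_sum
      intro m _
      have := real_inner_le_norm (eb m) (T (eb m))
      rw [hnorm, eb.orthonormal.1 m, one_mul] at this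
      exact this
    refine h3.trans (le_of_eq ?_)
    symm
    have h4 : ∑ m : Fin P.card, Real.sqrt (ev (Fin.castLE hP_le m))
        = ∑ m ∈ Finset.univ.map (Fin.castLEEmb hP_le), Real.sqrt (ev m) := by
      rw [Finset.sum_map]
      rfl
    rw [h4]
    apply Finset.sum_subset (Finset.subset_univ _)
    intro j _ hj
    rw [Real.sqrt_eq_zero']
    by_contra hcon
    have hlt := hpos2 j (not_le.1 hcon)
    apply hj
    rw [Finset.mem_map]
    exact ⟨⟨j, hlt⟩, Finset.mem_univ _, by ext; rfl⟩



/-- Inside the coordinate subspace `{lo ≤ m < hi}` of `ℝ^{n0}` the orthogonal complement of `Λ` has an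
orthonormal basis `v` which carries all of the trace of `diag s` except at most `|Λ| * smax`. -/
theorem exists_good_family {n0 : ℕ} (s : Fin n0 → ℝ) (hs : ∀ m, 0 ≤ s m) (lo hi : ℕ)
    (Λ : Finset (EuclideanSpace ℝ (Fin n0))) (smax : ℝ) (hsm : 0 ≤ smax)
    (h : ∀ m : Fin n0, lo ≤ (m : ℕ) → (m : ℕ) < hi → s m ≤ smax) :
    ∃ (t : ℕ) (v : Fin t → EuclideanSpace ℝ (Fin n0)), Orthonormal ℝ v ∧
      (∀ l m, v l m ≠ 0 → lo ≤ (m : ℕ) ∧ (m : ℕ) < hi) ∧
      (∀ l, ∀ w ∈ Λ, inner ℝ w (v l) = 0) ∧
      ∑ m ∈ Finset.univ.filter (fun m : Fin n0 => lo ≤ (m : ℕ) ∧ (m : ℕ) < hi), s m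
        ≤ ∑ l, ∑ m, s m * (v l m) ^ 2 + Λ.card * smax := by
  classical
  set I : Finset (Fin n0) := Finset.univ.filter (fun m : Fin n0 => lo ≤ (m : ℕ) ∧ (m : ℕ) < hi)
    with hI
  let J : Finset (EuclideanSpace ℝ (Fin n0)) := (Iᶜ).image (fun m => EuclideanSpace.single m (1:ℝ))
  let S : Finset (EuclideanSpace ℝ (Fin n0)) := Λ ∪ J
  let K : Submodule ℝ (EuclideanSpace ℝ (Fin n0)) := (Submodule.span ℝ (S : Set (EuclideanSpace ℝ (Fin n0))))ᗮ
  let b := stdOrthonormalBasis ℝ K
  have hcardS : S.card + I.card ≤ Λ.card + n0 := by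
    have h1 : S.card ≤ Λ.card + J.card := Finset.card_union_le _ _
    have h2 : J.card ≤ (Iᶜ).card := Finset.card_image_le
    have h3 : I.card + (Iᶜ).card = n0 := by simp [Finset.card_add_card_compl]
    omega
  have hdim : I.card ≤ Module.finrank ℝ K + Λ.card := by
    have h1 := Submodule.finrank_add_finrank_orthogonal
      (Submodule.span ℝ (S : Set (EuclideanSpace ℝ (Fin n0))))
    have h2 : Module.finrank ℝ (Submodule.span ℝ (S : Set (EuclideanSpace ℝ (Fin n0)))) ≤ S.card :=
      finrank_span_finset_le_card S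
    have h3 : Module.finrank ℝ (EuclideanSpace ℝ (Fin n0)) = n0 := by simp
    have h4 : Module.finrank ℝ K = Module.finrank ℝ
      ((Submodule.span ℝ (S : Set (EuclideanSpace ℝ (Fin n0))))ᗮ) := rfl
    omega
  have hperp : ∀ l, ∀ w ∈ S, inner ℝ w ((b l : K) : EuclideanSpace ℝ (Fin n0)) = 0 := by
    intro l w hw
    exact (Submodule.mem_orthogonal _ _).1 (b l).2 w (Submodule.subset_span (by exact_mod_cast hw))
  have horth : Orthonormal ℝ (fun l => ((b l : K) : EuclideanSpace ℝ (Fin n0))) :=
    b.orthonormal.comp_linearIsometry K.subtypeₗᵢ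
  have hsupp : ∀ l m, ((b l : K) : EuclideanSpace ℝ (Fin n0)) m ≠ 0 → m ∈ I := by
    intro l m hm
    by_contra hmI
    apply hm
    have := hperp l (EuclideanSpace.single m (1:ℝ)) (by
      refine Finset.mem_union_right _ (Finset.mem_image.2 ⟨m, by simpa using hmI, rfl⟩))
    simpa [EuclideanSpace.inner_single_left] using this
  refine ⟨Module.finrank ℝ K, fun l => ((b l : K) : EuclideanSpace ℝ (Fin n0)), horth, ?_, ?_, ?_⟩
  · intro l m hm
    have := hsupp l m hm
    simpa [hI] using this
  · intro l w hw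
    exact hperp l w (Finset.mem_union_left _ hw)
  · set v : Fin (Module.finrank ℝ K) → EuclideanSpace ℝ (Fin n0) :=
      fun l => ((b l : K) : EuclideanSpace ℝ (Fin n0)) with hv
    have hq1 : ∀ m, ∑ l, (v l m) ^ 2 ≤ 1 := by
      intro m
      have := horth.sum_inner_products_le (s := Finset.univ) (EuclideanSpace.single m (1:ℝ))
      simpa [EuclideanSpace.inner_single_right] using this
    have hq2 : ∀ l, ∑ m ∈ I, (v l m) ^ 2 = 1 := by
      intro l
      have h1 : ‖v l‖ ^ 2 = 1 := by rw [horth.1 l]; norm_num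
      rw [EuclideanSpace.real_norm_sq_eq] at h1
      rw [← h1]
      apply Finset.sum_subset (Finset.subset_univ _)
      intro m _ hm
      by_contra hne
      exact hm (hsupp l m (by intro h0; apply hne; simp only [hv]; rw [h0]; norm_num))
    have hsw : ∑ l, ∑ m, s m * (v l m) ^ 2 = ∑ m ∈ I, s m * ∑ l, (v l m) ^ 2 := by
      rw [Finset.sum_comm]
      rw [← Finset.sum_subset (Finset.subset_univ I)]
      · exact Finset.sum_congr rfl (fun m _ => by rw [Finset.mul_sum])
      · intro m _ hm
        apply Finset.sum_eq_zero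
        intro l _
        have : v l m = 0 := by
          by_contra hne
          exact hm (hsupp l m hne)
        rw [this]; ring
    have hsum : ∑ m ∈ I, ∑ l, (v l m) ^ 2 = (Module.finrank ℝ K : ℝ) := by
      rw [Finset.sum_comm]
      simp [hq2]
    have hkey : ∑ m ∈ I, s m - ∑ m ∈ I, s m * ∑ l, (v l m) ^ 2 ≤
        ∑ m ∈ I, smax * (1 - ∑ l, (v l m) ^ 2) := by
      rw [← Finset.sum_sub_distrib]
      apply Finset.sum_le_sum
      intro m hm
      have hm' : lo ≤ (m : ℕ) ∧ (m : ℕ) < hi := by simpa [hI] using hm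
      have := h m hm'.1 hm'.2
      nlinarith [hq1 m]
    have hlast : ∑ m ∈ I, smax * (1 - ∑ l, (v l m) ^ 2) = smax * (I.card - (Module.finrank ℝ K : ℝ)) := by
      rw [← Finset.mul_sum, Finset.sum_sub_distrib, hsum]
      simp
    have hd : (I.card : ℝ) ≤ (Module.finrank ℝ K : ℝ) + Λ.card := by exact_mod_cast hdim
    rw [hsw]
    have : smax * (I.card - (Module.finrank ℝ K : ℝ)) ≤ Λ.card * smax := by nlinarith
    linarith

end Pool.Agent.MP_1b7159_an
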