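import Pool.Agent.Lib.MP_1b7159_an.Defs

/-!
# MP_1b7159_an JOB TENSOR: from the trace property to (BEPS), section 8
-/

set_option autoImplicit false

open Finset

namespace Pool.Agent.MP_1b7159_an

/-- The trace property with constant `C`. -/
def TraceProp (X : Type*) [NormedAddCommGroup X] [NormedSpace ℝ X] (C : ℝ) : Prop :=
  ∀ (n : ℕ) (α β : EuclideanSpace ℝ (Fin n) →ₗ[ℝ] X),
    ∑ i : Fin n, ‖α (EuclideanSpace.single i 1)‖ ^ 2 ≤ 1 →
    ∑ i : Fin n, ‖β (EuclideanSpace.single i 1)‖ ^ 2 ≤ 1 →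
    ∀ (V : Submodule ℝ (EuclideanSpace ℝ (Fin n))) (b : V →ₗ[ℝ] V →ₗ[ℝ] ℝ),
      (∀ v w : V, |b v w| ≤ ‖β (v : EuclideanSpace ℝ (Fin n))‖ * ‖α (w : EuclideanSpace ℝ (Fin n))‖) →
      ∀ (t : ℕ) (e : OrthonormalBasis (Fin t) ℝ V), ∑ i, b (e i) (e i) ≤ C

section TA

open scoped InnerProductSpace

variable {E Z : Type*} [NormedAddCommGroup E] [InnerProductSpace ℝ E] [FiniteDimensional ℝ E]
  [AddCommGroup Z] [Module ℝ Z] {ι κ : Type*} [Fintype ι] [Fintype κ]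

theorem ta_proj (V : Submodule ℝ E) (f : OrthonormalBasis κ ℝ V) (x : E) :
    V.starProjection x = ∑ k, ⟪(f k : E), x⟫_ℝ • (f k : E) := by
  rw [Submodule.starProjection_apply, f.orthogonalProjectionOnto_apply_eq_sum]
  simp

theorem ta_half (e : OrthonormalBasis ι ℝ E) (Ψ : E →ₗ[ℝ] E →ₗ[ℝ] Z)
    (V : Submodule ℝ E) (f : OrthonormalBasis κ ℝ V) :
    ∑ i, Ψ (V.starProjection (e i)) (e i) = ∑ k, Ψ (f k) (f k) := by
  have h1 : ∀ i, Ψ (V.starProjection (e i)) (e i)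
      = ∑ k, ⟪(f k : E), e i⟫_ℝ • Ψ (f k) (e i) := by
    intro i
    rw [ta_proj V f, map_sum, LinearMap.sum_apply]
    simp
  rw [Finset.sum_congr rfl fun i _ => h1 i, Finset.sum_comm]
  refine Finset.sum_congr rfl fun k _ => ?_
  have h2 : ∑ i, ⟪(f k : E), e i⟫_ℝ • Ψ (f k) (e i) = Ψ (f k) (∑ i, ⟪e i, (f k : E)⟫_ℝ • e i) := by
    rw [map_sum]
    refine Finset.sum_congr rfl fun i _ => ?_
    rw [map_smul, real_inner_comm]
  rw [h2, e.sum_repr']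

theorem ta_half' (e : OrthonormalBasis ι ℝ E) (Ψ : E →ₗ[ℝ] E →ₗ[ℝ] Z)
    (V : Submodule ℝ E) (f : OrthonormalBasis κ ℝ V) :
    ∑ i, Ψ (e i) (V.starProjection (e i)) = ∑ k, Ψ (f k) (f k) :=
  ta_half e Ψ.flip V f

variable {X : Type*} [AddCommGroup X] [Module ℝ X]

/-- A linear map whose `adjoint` kills `h`. -/
theorem ta_mem (e : OrthonormalBasis ι ℝ E) (Y : Submodule ℝ X) (β : E →ₗ[ℝ] X) (K : Submodule ℝ E)
    (h : ∀ φ : X →ₗ[ℝ] ℝ, (∀ y ∈ Y, φ y = 0) → ∑ i, φ (β (e i)) • e i ∈ K)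
    {η : E} (hη : η ∈ Kᗮ) : β η ∈ Y := by
  obtain ⟨π, hπ⟩ := LinearMap.exists_leftInverse_of_injective Y.subtype (Submodule.ker_subtype Y)
  have hπ' : ∀ y : Y, π (y : X) = y := fun y => LinearMap.congr_fun hπ y
  have key : β η - (π (β η) : X) = 0 := by
    rw [← Module.forall_dual_apply_eq_zero_iff ℝ]
    intro ψ
    let φ : X →ₗ[ℝ] ℝ := ψ ∘ₗ (LinearMap.id - Y.subtype ∘ₗ π)
    have hφ : ∀ x, φ x = ψ (x - (π x : X)) := fun x => rfl
    have h0 : ∀ y ∈ Y, φ y = 0 := by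
      intro y hy
      rw [hφ, hπ' ⟨y, hy⟩]
      simp
    have h1 := h φ h0
    have h2 : ⟪∑ i, φ (β (e i)) • e i, η⟫_ℝ = 0 := hη _ h1
    rw [sum_inner] at h2
    have h3 : φ (β η) = ∑ i, ⟪φ (β (e i)) • e i, η⟫_ℝ := by
      conv_lhs => rw [← e.sum_repr' η]
      rw [map_sum, map_sum]
      refine Finset.sum_congr rfl fun i _ => ?_
      rw [map_smul, map_smul, real_inner_smul_left, smul_eq_mul, mul_comm]
    rw [← hφ, h3, h2]
  have : β η = (π (β η) : X) := sub_eq_zero.1 key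
  rw [this]
  exact (π (β η)).2

open scoped TensorProduct in
theorem ta_lift (e : OrthonormalBasis ι ℝ E) (Y : Submodule ℝ X) (α β : E →ₗ[ℝ] X)
    {m : ℕ} (y y' : Fin m → Y) (c : ℝ)
    (h : ∑ i, β (e i) ⊗ₜ[ℝ] α (e i) = c • ∑ l, (y l : X) ⊗ₜ[ℝ] (y' l : X))
    (Φ : X →ₗ[ℝ] X →ₗ[ℝ] Z) :
    ∑ i, Φ (β (e i)) (α (e i)) = c • ∑ l, Φ (y l) (y' l) := by
  have h1 := congrArg (TensorProduct.lift Φ) h
  rw [map_sum, map_smul, map_sum] at h1
  simpa using h1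

open scoped TensorProduct in
theorem ta_lift0 (e : OrthonormalBasis ι ℝ E) (Y : Submodule ℝ X) (α β : E →ₗ[ℝ] X)
    {m : ℕ} (y y' : Fin m → Y) (c : ℝ)
    (h : ∑ i, β (e i) ⊗ₜ[ℝ] α (e i) = c • ∑ l, (y l : X) ⊗ₜ[ℝ] (y' l : X))
    (V0 : Submodule ℝ E) (hα : ∀ x, α (V0.starProjection x) = α x)
    (Φ : X →ₗ[ℝ] X →ₗ[ℝ] Z) :
    ∑ i, Φ (β (V0.starProjection (e i))) (α (e i)) = c • ∑ l, Φ (y l) (y' l) := by
  rw [← ta_lift e Y α β y y' c h Φ]
  have h1 := ta_half e (Φ.compl₁₂ β α) V0 (stdOrthonormalBasis ℝ V0)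
  have h2 := ta_half' e (Φ.compl₁₂ β α) V0 (stdOrthonormalBasis ℝ V0)
  have h3 := h1.trans h2.symm
  simp only [LinearMap.compl₁₂_apply, hα] at h3
  exact h3

open scoped TensorProduct in
/-- The reduction to `V`. -/
theorem ta_core (e : OrthonormalBasis ι ℝ E) (Y : Submodule ℝ X) (α β : E →ₗ[ℝ] X)
    {m : ℕ} (y y' : Fin m → Y) (c : ℝ)
    (h : ∑ i, β (e i) ⊗ₜ[ℝ] α (e i) = c • ∑ l, (y l : X) ⊗ₜ[ℝ] (y' l : X)) :
    ∃ V : Submodule ℝ E, (∀ v ∈ V, β v ∈ Y) ∧ (∀ v ∈ V, α v ∈ Y) ∧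
      ∀ (t : ℕ) (f : OrthonormalBasis (Fin t) ℝ V) (Φ : X →ₗ[ℝ] X →ₗ[ℝ] ℝ),
        ∑ k, Φ (β (f k)) (α (f k)) = c * ∑ l, Φ (y l) (y' l) := by
  set V0 : Submodule ℝ E := (LinearMap.ker α)ᗮ with hV0
  have hV0' : V0ᗮ = LinearMap.ker α := Submodule.orthogonal_orthogonal _
  have hα : ∀ x, α (V0.starProjection x) = α x := by
    intro x
    have h1 : x - V0.starProjection x ∈ LinearMap.ker α :=
      hV0'.le (Submodule.sub_starProjection_mem_orthogonal x)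
    rw [LinearMap.mem_ker, map_sub] at h1
    exact (sub_eq_zero.1 h1).symm
  let β0 : E →ₗ[ℝ] X := β ∘ₗ (V0.starProjection : E →L[ℝ] E).toLinearMap
  have hβ0 : ∀ x, β0 x = β (V0.starProjection x) := fun x => rfl
  set V : Submodule ℝ E := (LinearMap.ker β0)ᗮ with hV
  have hV' : Vᗮ = LinearMap.ker β0 := Submodule.orthogonal_orthogonal _
  have hβV : ∀ x, β0 (V.starProjection x) = β0 x := by
    intro x
    have h1 : x - V.starProjection x ∈ LinearMap.ker β0 :=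
      hV'.le (Submodule.sub_starProjection_mem_orthogonal x)
    rw [LinearMap.mem_ker, map_sub] at h1
    exact (sub_eq_zero.1 h1).symm
  have hle : V ≤ V0 := by
    refine Submodule.orthogonal_le ?_
    intro x hx
    rw [← hV0'] at hx
    rw [LinearMap.mem_ker, hβ0]
    have : V0.starProjection x = 0 := (Submodule.starProjection_apply_eq_zero_iff V0).2 hx
    rw [this, map_zero]
  have hβ0V : ∀ v ∈ V, β0 v = β v := by
    intro v hv
    rw [hβ0, Submodule.starProjection_eq_self_iff.2 (hle hv)]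
  refine ⟨V, fun v hv => ?_, fun v hv => ?_, fun t f Φ => ?_⟩
  · refine ta_mem e Y β (LinearMap.ker α) (fun φ hφ => ?_) (hle hv)
    rw [LinearMap.mem_ker, map_sum]
    have h1 := ta_lift e Y α β y y' c h ((LinearMap.lsmul ℝ X).comp φ)
    have h2 : ∀ l, ((LinearMap.lsmul ℝ X).comp φ) (y l : X) (y' l : X) = 0 := by
      intro l
      rw [LinearMap.comp_apply, hφ _ (y l).2]
      simp
    rw [Finset.sum_congr rfl fun l _ => h2 l] at h1
    simp only [Finset.sum_const_zero, smul_zero] at h1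
    rw [← h1]
    refine Finset.sum_congr rfl fun i _ => ?_
    rw [map_smul]
    rfl
  · refine ta_mem e Y α (LinearMap.ker β0) (fun φ hφ => ?_) hv
    rw [LinearMap.mem_ker, map_sum]
    have h1 := ta_lift0 e Y α β y y' c h V0 hα ((LinearMap.lsmul ℝ X).comp φ).flip
    have h2 : ∀ l, ((LinearMap.lsmul ℝ X).comp φ).flip (y l : X) (y' l : X) = 0 := by
      intro l
      rw [LinearMap.flip_apply, LinearMap.comp_apply, hφ _ (y' l).2]
      simp
    rw [Finset.sum_congr rfl fun l _ => h2 l] at h1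
    simp only [Finset.sum_const_zero, smul_zero] at h1
    rw [← h1]
    refine Finset.sum_congr rfl fun i _ => ?_
    rw [map_smul]
    rfl
  · have h1 := ta_half e (Φ.compl₁₂ β0 α) V f
    simp only [LinearMap.compl₁₂_apply, hβV] at h1
    have h2 := ta_lift0 e Y α β y y' c h V0 hα Φ
    rw [smul_eq_mul] at h2
    rw [← h2]
    refine Eq.trans ?_ h1.symm
    refine Finset.sum_congr rfl fun k _ => ?_
    rw [hβ0V _ (f k).2]

end TA

/-- Section 8 (claim). If `∑ x_i ⊗ x'_i = ∑ y_l ⊗ y'_l` in `X ⊗ X` with `y_l, y'_l ∈ Y`, then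
`∑ B(y_l, y'_l) ≤ C M ∑ ‖x_i‖ ‖x'_i‖`. -/
theorem tensor_claim {X : Type*} [NormedAddCommGroup X] [NormedSpace ℝ X] {C : ℝ} (hC : 0 ≤ C)
    (hX : TraceProp X C) (Y : Submodule ℝ X) (B : Y →ₗ[ℝ] Y →ₗ[ℝ] ℝ)
    (M : ℝ) (hM : 0 ≤ M) (hB : ∀ y z : Y, |B y z| ≤ M * ‖y‖ * ‖z‖) {n m : ℕ} (x x' : Fin n → X) (y y' : Fin m → Y)
    (h : ∑ i, (TensorProduct.tmul ℝ (x i) (x' i)) =
      ∑ l, (TensorProduct.tmul ℝ (y l : X) (y' l : X))) :
    ∑ l, B (y l) (y' l) ≤ C * M * ∑ i, ‖x i‖ * ‖x' i‖ := by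
  obtain ⟨π, hπ⟩ := LinearMap.exists_leftInverse_of_injective Y.subtype (Submodule.ker_subtype Y)
  have hπ' : ∀ y : Y, π (y : X) = y := fun y => LinearMap.congr_fun hπ y
  rcases hM.eq_or_lt with hM0 | hMpos
  · have h0 : ∀ l, B (y l) (y' l) = 0 := by
      intro l
      have := hB (y l) (y' l)
      rw [← hM0] at this
      simpa using this
    rw [Finset.sum_congr rfl fun l _ => h0 l, ← hM0]
    simp
  set S := ∑ i, ‖x i‖ * ‖x' i‖ with hS
  have hS0 : 0 ≤ S := Finset.sum_nonneg fun i _ => mul_nonneg (norm_nonneg _) (norm_nonneg _)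
  let Φ : X →ₗ[ℝ] X →ₗ[ℝ] ℝ := B.compl₁₂ π π
  have hΦ : ∀ y z : Y, Φ (y : X) (z : X) = B y z := by
    intro y z
    simp only [Φ, LinearMap.compl₁₂_apply, hπ']
  rcases hS0.eq_or_lt with hS0' | hSpos
  · have h1 : ∀ i, TensorProduct.tmul ℝ (x i) (x' i) = 0 := by
      intro i
      have h2 := (Finset.sum_eq_zero_iff_of_nonneg
        (fun i _ => mul_nonneg (norm_nonneg (x i)) (norm_nonneg (x' i)))).1 hS0'.symm i
          (Finset.mem_univ i)
      rcases mul_eq_zero.1 h2 with h3 | h3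
      · rw [norm_eq_zero.1 h3, TensorProduct.zero_tmul]
      · rw [norm_eq_zero.1 h3, TensorProduct.tmul_zero]
    rw [Finset.sum_congr rfl fun i _ => h1 i, Finset.sum_const_zero] at h
    have h2 := congrArg (TensorProduct.lift Φ) h
    rw [map_zero, map_sum] at h2
    have h3 : ∑ l, B (y l) (y' l) = 0 := by
      rw [h2]
      refine Finset.sum_congr rfl fun l _ => ?_
      rw [TensorProduct.lift.tmul, hΦ]
    rw [h3, ← hS0']
    simp
  -- the main case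
  let a : Fin n → ℝ := fun i => Real.sqrt (‖x i‖ * ‖x' i‖)
  have ha : ∀ i, a i ^ 2 = ‖x i‖ * ‖x' i‖ := fun i =>
    Real.sq_sqrt (mul_nonneg (norm_nonneg _) (norm_nonneg _))
  have ha0 : ∀ i, 0 ≤ a i := fun i => Real.sqrt_nonneg _
  let r : ℝ := (Real.sqrt S)⁻¹
  have hr : r ^ 2 = S⁻¹ := by
    simp only [r, inv_pow, Real.sq_sqrt hS0]
  have hr0 : 0 ≤ r := inv_nonneg.2 (Real.sqrt_nonneg _)
  let e := EuclideanSpace.basisFun (Fin n) ℝ
  let β : EuclideanSpace ℝ (Fin n) →ₗ[ℝ] X := e.toBasis.constr ℝ fun i => (r * (a i / ‖x i‖)) • x i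
  let α : EuclideanSpace ℝ (Fin n) →ₗ[ℝ] X := e.toBasis.constr ℝ fun i => (r * (a i / ‖x' i‖)) • x' i
  have hβe : ∀ i, β (e i) = (r * (a i / ‖x i‖)) • x i := by
    intro i
    have := e.toBasis.constr_basis ℝ (fun i => (r * (a i / ‖x i‖)) • x i) i
    rwa [OrthonormalBasis.coe_toBasis] at this
  have hαe : ∀ i, α (e i) = (r * (a i / ‖x' i‖)) • x' i := by
    intro i
    have := e.toBasis.constr_basis ℝ (fun i => (r * (a i / ‖x' i‖)) • x' i) i
    rwa [OrthonormalBasis.coe_toBasis] at this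
  have hnorm : ∀ (i : Fin n) (u : X), (‖u‖ = 0 → a i = 0) → ‖(r * (a i / ‖u‖)) • u‖ ^ 2 = S⁻¹ * (‖x i‖ * ‖x' i‖) := by
    intro i u hu
    rw [norm_smul, Real.norm_eq_abs, abs_of_nonneg (mul_nonneg hr0 (div_nonneg (ha0 i) (norm_nonneg _)))]
    rcases eq_or_ne ‖u‖ 0 with h0 | h0
    · rw [h0, ← ha i, hu h0]
      simp
    · have : r * (a i / ‖u‖) * ‖u‖ = r * a i := by field_simp
      rw [this, mul_pow, hr, ha]
  have hx0 : ∀ i, ‖x i‖ = 0 → a i = 0 := by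
    intro i h0
    have := ha i
    rw [h0, zero_mul] at this
    exact pow_eq_zero_iff (two_ne_zero) |>.1 this
  have hx0' : ∀ i, ‖x' i‖ = 0 → a i = 0 := by
    intro i h0
    have := ha i
    rw [h0, mul_zero] at this
    exact pow_eq_zero_iff (two_ne_zero) |>.1 this
  have hsum : ∑ i, S⁻¹ * (‖x i‖ * ‖x' i‖) = 1 := by
    rw [← Finset.mul_sum, ← hS, inv_mul_cancel₀ hSpos.ne']
  have hβ1 : ∑ i : Fin n, ‖β (EuclideanSpace.single i 1)‖ ^ 2 ≤ 1 := by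
    refine le_of_eq (Eq.trans (Finset.sum_congr rfl fun i _ => ?_) hsum)
    have : (EuclideanSpace.single i 1 : EuclideanSpace ℝ (Fin n)) = e i := by simp [e]
    rw [this, hβe, hnorm i _ (hx0 i)]
  have hα1 : ∑ i : Fin n, ‖α (EuclideanSpace.single i 1)‖ ^ 2 ≤ 1 := by
    refine le_of_eq (Eq.trans (Finset.sum_congr rfl fun i _ => ?_) hsum)
    have : (EuclideanSpace.single i 1 : EuclideanSpace ℝ (Fin n)) = e i := by simp [e]
    rw [this, hαe, hnorm i _ (hx0' i)]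
  have hten : ∑ i, TensorProduct.tmul ℝ (β (e i)) (α (e i))
      = S⁻¹ • ∑ l, TensorProduct.tmul ℝ (y l : X) (y' l : X) := by
    rw [← h, Finset.smul_sum]
    refine Finset.sum_congr rfl fun i _ => ?_
    rw [hβe, hαe, TensorProduct.smul_tmul_smul]
    rcases eq_or_ne ‖x i‖ 0 with h0 | h0
    · rw [norm_eq_zero.1 h0, TensorProduct.zero_tmul, smul_zero, smul_zero]
    rcases eq_or_ne ‖x' i‖ 0 with h0' | h0'
    · rw [norm_eq_zero.1 h0', TensorProduct.tmul_zero, smul_zero, smul_zero]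
    congr 1
    have h3 : r * (a i / ‖x i‖) * (r * (a i / ‖x' i‖)) = r ^ 2 * a i ^ 2 / (‖x i‖ * ‖x' i‖) := by
      field_simp
    rw [h3, hr, ha]
    field_simp
  obtain ⟨V, hV1, hV2, hV3⟩ := ta_core e Y α β y y' S⁻¹ hten
  let βV : V →ₗ[ℝ] Y := (β ∘ₗ V.subtype).codRestrict Y fun v => hV1 _ v.2
  let αV : V →ₗ[ℝ] Y := (α ∘ₗ V.subtype).codRestrict Y fun v => hV2 _ v.2
  have hkey := hX n α β hα1 hβ1 V (M⁻¹ • B.compl₁₂ βV αV) (fun v w => by
    have h1 : (M⁻¹ • B.compl₁₂ βV αV) v w = M⁻¹ * B (βV v) (αV w) := rfl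
    rw [h1, abs_mul, abs_of_nonneg (inv_nonneg.2 hM)]
    have h2 := hB (βV v) (αV w)
    have h3 : ‖βV v‖ = ‖β (v : EuclideanSpace ℝ (Fin n))‖ := rfl
    have h4 : ‖αV w‖ = ‖α (w : EuclideanSpace ℝ (Fin n))‖ := rfl
    rw [h3, h4] at h2
    rw [inv_mul_le_iff₀ hMpos]
    linarith) _ (stdOrthonormalBasis ℝ V)
  have h1 : ∀ k, (M⁻¹ • B.compl₁₂ βV αV) (stdOrthonormalBasis ℝ V k) (stdOrthonormalBasis ℝ V k)
      = M⁻¹ * Φ (β (stdOrthonormalBasis ℝ V k)) (α (stdOrthonormalBasis ℝ V k)) := by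
    intro k
    change M⁻¹ * B (βV _) (αV _) = _
    rw [← hΦ]
    rfl
  rw [Finset.sum_congr rfl fun k _ => h1 k, ← Finset.mul_sum, hV3] at hkey
  have h2 : ∑ l, Φ (y l) (y' l) = ∑ l, B (y l) (y' l) :=
    Finset.sum_congr rfl fun l _ => hΦ _ _
  rw [h2] at hkey
  have h3 : M⁻¹ * (S⁻¹ * ∑ l, B (y l) (y' l)) = (∑ l, B (y l) (y' l)) / (M * S) := by
    field_simp
  rw [h3, div_le_iff₀ (mul_pos hMpos hSpos)] at hkey
  linarith

section HB

open scoped TensorProduct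

variable {X : Type*} [NormedAddCommGroup X] [NormedSpace ℝ X]

/-- The set of the values of the representations of `z`. -/
def tbSet (K : ℝ) (z : X ⊗[ℝ] X) : Set ℝ :=
  {r | ∃ (n : ℕ) (x x' : Fin n → X), z = ∑ i, x i ⊗ₜ[ℝ] x' i ∧ r = K * ∑ i, ‖x i‖ * ‖x' i‖}

/-- The projective seminorm (times `K`). -/
noncomputable def tbN (K : ℝ) (z : X ⊗[ℝ] X) : ℝ := sInf (tbSet K z)

theorem tbSet_add {K : ℝ} {z w : X ⊗[ℝ] X} {r s : ℝ} (hr : r ∈ tbSet K z) (hs : s ∈ tbSet K w) :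
    r + s ∈ tbSet K (z + w) := by
  obtain ⟨n, x, x', hz, hr⟩ := hr
  obtain ⟨m, u, u', hw, hs⟩ := hs
  refine ⟨n + m, Fin.append x u, Fin.append x' u', ?_, ?_⟩
  · rw [Fin.sum_univ_add, hz, hw]
    simp only [Fin.append_left, Fin.append_right]
  · rw [Fin.sum_univ_add, hr, hs, ← mul_add]
    simp only [Fin.append_left, Fin.append_right]

theorem tbSet_tmul (K : ℝ) (x x' : X) : K * (‖x‖ * ‖x'‖) ∈ tbSet K (x ⊗ₜ[ℝ] x') :=
  ⟨1, fun _ => x, fun _ => x', by simp, by simp⟩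

theorem tbSet_smul {K : ℝ} {z : X ⊗[ℝ] X} {r c : ℝ} (hc : 0 ≤ c) (hr : r ∈ tbSet K z) :
    c * r ∈ tbSet K (c • z) := by
  obtain ⟨n, x, x', hz, hr⟩ := hr
  refine ⟨n, fun i => c • x i, x', ?_, ?_⟩
  · rw [hz, Finset.smul_sum]
    rfl
  · rw [hr]
    have : ∑ i, ‖c • x i‖ * ‖x' i‖ = c * ∑ i, ‖x i‖ * ‖x' i‖ := by
      rw [Finset.mul_sum]
      refine Finset.sum_congr rfl fun i _ => ?_
      rw [norm_smul, Real.norm_eq_abs, abs_of_nonneg hc, mul_assoc]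
    rw [this]
    ring

theorem tbSet_nonempty (K : ℝ) (z : X ⊗[ℝ] X) : (tbSet K z).Nonempty := by
  induction z using TensorProduct.induction_on with
  | zero => exact ⟨0, 0, fun _ => 0, fun _ => 0, by simp, by simp⟩
  | tmul x y => exact ⟨_, tbSet_tmul K x y⟩
  | add x y hx hy =>
    obtain ⟨r, hr⟩ := hx
    obtain ⟨s, hs⟩ := hy
    exact ⟨r + s, tbSet_add hr hs⟩

theorem tbSet_bdd {K : ℝ} (hK : 0 ≤ K) (z : X ⊗[ℝ] X) : BddBelow (tbSet K z) := by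
  refine ⟨0, ?_⟩
  rintro r ⟨n, x, x', -, rfl⟩
  exact mul_nonneg hK (Finset.sum_nonneg fun i _ => mul_nonneg (norm_nonneg _) (norm_nonneg _))

theorem tbN_add {K : ℝ} (hK : 0 ≤ K) (z w : X ⊗[ℝ] X) : tbN K (z + w) ≤ tbN K z + tbN K w := by
  refine le_of_forall_pos_le_add fun ε hε => ?_
  obtain ⟨r, hr, hr2⟩ := exists_lt_of_csInf_lt (tbSet_nonempty K z)
    (show sInf (tbSet K z) < tbN K z + ε / 2 by unfold tbN; linarith)
  obtain ⟨s, hs, hs2⟩ := exists_lt_of_csInf_lt (tbSet_nonempty K w)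
    (show sInf (tbSet K w) < tbN K w + ε / 2 by unfold tbN; linarith)
  have : tbN K (z + w) ≤ r + s := csInf_le (tbSet_bdd hK _) (tbSet_add hr hs)
  linarith

theorem tbN_smul {K : ℝ} (hK : 0 ≤ K) (c : ℝ) (hc : 0 < c) (z : X ⊗[ℝ] X) :
    tbN K (c • z) = c * tbN K z := by
  have key : ∀ (c : ℝ) (_ : 0 < c) (z : X ⊗[ℝ] X), tbN K (c • z) ≤ c * tbN K z := by
    intro c hc z
    have h1 : c⁻¹ * tbN K (c • z) ≤ tbN K z := by
      refine le_csInf (tbSet_nonempty K z) fun r hr => ?_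
      have : tbN K (c • z) ≤ c * r := csInf_le (tbSet_bdd hK _) (tbSet_smul hc.le hr)
      rw [inv_mul_le_iff₀ hc]
      exact this
    rwa [inv_mul_le_iff₀ hc] at h1
  refine le_antisymm (key c hc z) ?_
  have h := key c⁻¹ (inv_pos.2 hc) (c • z)
  rw [smul_smul, inv_mul_cancel₀ hc.ne', one_smul] at h
  rwa [le_inv_mul_iff₀ hc] at h

end HB

/-- Section 8: Hahn–Banach on `X ⊗ X`. PROOF. `N z = sInf {∑ ‖x_i‖ ‖x'_i‖ | z = ∑ x_i ⊗ x'_i}` is sublinear; the functional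
`∑ y_l ⊗ y'_l ↦ ∑ B y_l y'_l` on the image of `Y ⊗ Y` is well defined and `≤ C M N` by `tensor_claim`; extend it with
`exists_extension_of_le_sublinear` and put `B' x x' = g (x ⊗ x')`, `|B' x x'| ≤ C M ‖x‖ ‖x'‖` . -/
theorem beps_of_traceProp {X : Type*} [NormedAddCommGroup X] [NormedSpace ℝ X] {C : ℝ}
    (hC : 0 ≤ C) (hX : TraceProp X C) : BEPS X := by
  intro Y _ B ⟨M0, hM0⟩
  set M := |M0| with hMdef
  have hM : 0 ≤ M := abs_nonneg _
  have hB : ∀ y z : Y, |B y z| ≤ M * ‖y‖ * ‖z‖ := by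
    intro y z
    refine (hM0 y z).trans ?_
    have : M0 ≤ M := le_abs_self _
    gcongr
  have hK : 0 ≤ C * M := mul_nonneg hC hM
  obtain ⟨π, hπ⟩ := LinearMap.exists_leftInverse_of_injective Y.subtype (Submodule.ker_subtype Y)
  have hπ' : ∀ y : Y, π (y : X) = y := fun y => LinearMap.congr_fun hπ y
  let L : TensorProduct ℝ X X →ₗ[ℝ] ℝ := TensorProduct.lift (B.compl₁₂ π π)
  have hL : ∀ x x' : X, L (TensorProduct.tmul ℝ x x') = B (π x) (π x') := fun x x' => by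
    simp [L]
  let D : Submodule ℝ (TensorProduct ℝ X X) :=
    LinearMap.range (TensorProduct.map Y.subtype Y.subtype)
  have hD : ∀ z ∈ D, ∃ (m : ℕ) (y y' : Fin m → Y),
      z = ∑ l, TensorProduct.tmul ℝ (y l : X) (y' l : X) := by
    rintro z ⟨w, rfl⟩
    induction w using TensorProduct.induction_on with
    | zero => exact ⟨0, fun _ => 0, fun _ => 0, by simp⟩
    | tmul a b => exact ⟨1, fun _ => a, fun _ => b, by simp⟩
    | add a b ha hb =>
      obtain ⟨m, y, y', h1⟩ := ha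
      obtain ⟨k, u, u', h2⟩ := hb
      refine ⟨m + k, Fin.append y u, Fin.append y' u', ?_⟩
      rw [Fin.sum_univ_add, map_add, h1, h2]
      simp only [Fin.append_left, Fin.append_right]
  let f : TensorProduct ℝ X X →ₗ.[ℝ] ℝ := ⟨D, L.domRestrict D⟩
  obtain ⟨g, hg1, hg2⟩ := exists_extension_of_le_sublinear f (tbN (C * M))
    (fun c hc z => tbN_smul hK c hc z) (tbN_add hK) (by
      rintro ⟨z, hz⟩
      change L z ≤ tbN (C * M) z
      obtain ⟨m, y, y', hzy⟩ := hD z hz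
      refine le_csInf (tbSet_nonempty _ _) ?_
      rintro r ⟨n, x, x', hzx, rfl⟩
      have h1 := tensor_claim hC hX Y B M hM hB x x' y y' (hzx.symm.trans hzy)
      have h2 : L z = ∑ l, B (y l) (y' l) := by
        rw [hzy, map_sum]
        refine Finset.sum_congr rfl fun l _ => ?_
        rw [hL, hπ', hπ']
      rw [h2]
      exact h1)
  have hgle : ∀ x x' : X, g (TensorProduct.tmul ℝ x x') ≤ C * M * ‖x‖ * ‖x'‖ := by
    intro x x'
    refine (hg2 _).trans ?_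
    refine (csInf_le (tbSet_bdd hK _) (tbSet_tmul (C * M) x x')).trans ?_
    exact le_of_eq (by ring)
  refine ⟨(TensorProduct.mk ℝ X X).compr₂ g, ⟨C * M, fun x z => ?_⟩, fun y z => ?_⟩
  · change |g (TensorProduct.tmul ℝ x z)| ≤ _
    rw [abs_le]
    constructor
    · have h := hgle (-x) z
      rw [TensorProduct.neg_tmul, map_neg, norm_neg] at h
      linarith
    · exact hgle x z
  · change g (TensorProduct.tmul ℝ (y : X) (z : X)) = _
    have hmem : TensorProduct.tmul ℝ (y : X) (z : X) ∈ D :=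
      ⟨TensorProduct.tmul ℝ y z, by simp⟩
    have h1 : g (TensorProduct.tmul ℝ (y : X) (z : X)) = L (TensorProduct.tmul ℝ (y : X) (z : X)) :=
      hg1 ⟨_, hmem⟩
    rw [h1, hL, hπ', hπ']

end Pool.Agent.MP_1b7159_an
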