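import Pool.Agent.Lib.MP_1b7159_an.QMain
import Pool.Agent.Lib.MP_1b7159_an.SVD

/-!
# MP_1b7159_an: the trace theorem (FIN), section 7
-/

set_option autoImplicit false

open Finset Classical

namespace Pool.Agent.MP_1b7159_an


theorem trA_two_pow (N : ℕ → ℕ) (hN0 : 16 ≤ N 0) (hNs : ∀ b, N (b + 1) = N b ^ 9) (b : ℕ) :
    16 * 2 ^ b ≤ N b := by
  induction b with
  | zero => simpa using hN0
  | succ b ih =>
    rw [hNs]
    have h1 : 16 ≤ N b := le_trans (by nlinarith [Nat.one_le_two_pow (n := b)]) ih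
    have h2 : 2 ≤ N b ^ 8 := by
      calc 2 ≤ 16 ^ 8 := by norm_num
        _ ≤ N b ^ 8 := Nat.pow_le_pow_left h1 8
    calc 16 * 2 ^ (b + 1) = 2 * (16 * 2 ^ b) := by ring
      _ ≤ N b ^ 8 * N b := Nat.mul_le_mul h2 ih
      _ = N b ^ 9 := by ring

theorem trA_pos (N : ℕ → ℕ) (hN0 : 16 ≤ N 0) (hNs : ∀ b, N (b + 1) = N b ^ 9) (b : ℕ) :
    1 ≤ N b := by
  have := trA_two_pow N hN0 hNs b
  have h2 := Nat.one_le_two_pow (n := b)
  omega

theorem trA_N_mono (N : ℕ → ℕ) (_hN0 : 16 ≤ N 0) (hNs : ∀ b, N (b + 1) = N b ^ 9) :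
    Monotone N := by
  apply monotone_nat_of_le_succ
  intro b
  rw [hNs]
  exact Nat.le_self_pow (by norm_num) _

theorem trA_N_le_lo (N : ℕ → ℕ) (hN0 : 16 ≤ N 0) (hNs : ∀ b, N (b + 1) = N b ^ 9) {b c : ℕ}
    (h : b < c) : N b ≤ lo N c := by
  obtain ⟨d, rfl⟩ : ∃ d, c = d + 1 := ⟨c - 1, by omega⟩
  show N b ≤ N d ^ 3
  exact le_trans (trA_N_mono N hN0 hNs (by omega)) (Nat.le_self_pow (by norm_num) _)

theorem trA_le_lo (N : ℕ → ℕ) (hN0 : 16 ≤ N 0) (hNs : ∀ b, N (b + 1) = N b ^ 9) (n0 b : ℕ)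
    (h : n0 + 1 ≤ b) : n0 ≤ lo N b := by
  have h1 : N n0 ≤ lo N b := trA_N_le_lo N hN0 hNs (by omega)
  have h2 := trA_two_pow N hN0 hNs n0
  have h3 : n0 < 2 ^ n0 := Nat.lt_two_pow_self
  omega

/-- antitone nonnegative: `s m ≤ S / (m + 1)` -/
theorem trA_anti {n0 : ℕ} (s : Fin n0 → ℝ) (hs : Antitone s) (hs0 : ∀ m, 0 ≤ s m) (m : Fin n0) :
    ((m : ℕ) + 1 : ℝ) * s m ≤ ∑ i, s i := by
  calc ((m : ℕ) + 1 : ℝ) * s m = ∑ i ∈ Finset.Iic m, s m := by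
        rw [Finset.sum_const, nsmul_eq_mul, Fin.card_Iic]
        push_cast; ring
    _ ≤ ∑ i ∈ Finset.Iic m, s i := by
        apply Finset.sum_le_sum
        intro i hi
        exact hs (Finset.mem_Iic.mp hi)
    _ ≤ ∑ i, s i := Finset.sum_le_sum_of_subset_of_nonneg (Finset.subset_univ _)
        (fun i _ _ => hs0 i)

theorem trA_geom (B : ℕ) : ∑ b ∈ range B, (1 : ℝ) / (16 * 2 ^ b) ≤ 1 / 8 := by
  have h : ∀ B : ℕ, ∑ b ∈ range B, (1 : ℝ) / (16 * 2 ^ b) = 1 / 8 - 1 / (8 * 2 ^ B) := by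
    intro B
    induction B with
    | zero => norm_num
    | succ B ih =>
      rw [Finset.sum_range_succ, ih, pow_succ]
      have : (2 : ℝ) ^ B ≠ 0 := by positivity
      field_simp
      ring
  rw [h]
  have : (0 : ℝ) ≤ 1 / (8 * 2 ^ B) := by positivity
  linarith

/-- two nonneg numbers -/
theorem trA_amgm (x a b : ℝ) (ha : 0 ≤ a) (hb : 0 ≤ b) (h : x ^ 2 ≤ a * b) :
    x ≤ (a + b) / 2 := by
  nlinarith [sq_nonneg (a - b), sq_nonneg (x - (a + b) / 2), sq_nonneg (x + (a + b) / 2)]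

theorem one_system (W : ℕ → WS) (k : ℕ → ℕ)
    (hk : ∀ j, ∀ z : Fin (W j).len → ℝ, ∑ i, z i ^ 2 ≤ 2 ^ (k j) * (W j).nZ z ^ 2)
    (hn0 : (100 * (k 0 + 3)) ^ 9 ≤ (W 0).n)
    (hn : ∀ j, ((W j).n + (W j).len + 100 * (k (j + 1) + 3)) ^ 9 ≤ (W (j + 1)).n)
    (N : ℕ → ℕ) (hN0 : 16 ≤ N 0) (hN0' : N 0 ≤ (W 0).n) (hNs : ∀ b, N (b + 1) = N b ^ 9)
    (J : ℕ) {n : ℕ} (α β : ∀ j, EuclideanSpace ℝ (Fin n) →ₗ[ℝ] (Fin (W j).len → ℝ))
    (hα : ∑ i : Fin n, ∑ j ∈ range J, (W j).nX (α j (EuclideanSpace.single i 1)) ^ 2 ≤ 1)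
    (hβ : ∑ i : Fin n, ∑ j ∈ range J, (W j).nX (β j (EuclideanSpace.single i 1)) ^ 2 ≤ 1)
    {n0 : ℕ} (f g : Fin n0 → EuclideanSpace ℝ (Fin n)) (hf : Orthonormal ℝ f)
    (hg : Orthonormal ℝ g) (s : Fin n0 → ℝ) (hs : Antitone s) (hs0 : ∀ m, 0 ≤ s m)
    (hb : ∀ v : Fin n0 → ℝ, (∑ m, s m * v m ^ 2) ^ 2 ≤
      (∑ j ∈ range J, (W j).nX (β j (∑ m, v m • f m)) ^ 2) *
      (∑ j ∈ range J, (W j).nX (α j (∑ m, v m • g m)) ^ 2)) :
    ∑ m ∈ Finset.univ.filter (fun m : Fin n0 => ∃ b, lo N b ≤ (m : ℕ) ∧ (m : ℕ) < N b), s m ≤ 2072 + (∑ m, s m) / 4 := by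
  obtain ⟨Λβ, hβ0, hβc, hβm⟩ := main_Q W k hk hn0 hn N hN0 hN0' hNs J β hβ f hf
  obtain ⟨Λα, hα0, hαc, hαm⟩ := main_Q W k hk hn0 hn N hN0 hN0' hNs J α hα g hg
  set S : ℝ := ∑ m, s m with hS
  have hS0 : 0 ≤ S := Finset.sum_nonneg (fun m _ => hs0 m)
  -- smax
  let smax : ℕ → ℝ := fun b => match b with
    | 0 => S
    | b + 1 => S / (N b : ℝ) ^ 3
  have hsmax0 : ∀ b, 0 ≤ smax b := by
    intro b
    cases b with
    | zero => exact hS0
    | succ b => exact div_nonneg hS0 (by positivity)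
  have hsmax : ∀ b, ∀ m : Fin n0, lo N b ≤ (m : ℕ) → (m : ℕ) < N b → s m ≤ smax b := by
    intro b m h1 _
    have h3 := trA_anti s hs hs0 m
    cases b with
    | zero =>
      show s m ≤ S
      have : (0 : ℝ) ≤ ((m : ℕ) : ℝ) := Nat.cast_nonneg _
      nlinarith [hs0 m]
    | succ b =>
      show s m ≤ S / (N b : ℝ) ^ 3
      have h1' : N b ^ 3 ≤ (m : ℕ) := h1
      have h4 : ((N b : ℝ)) ^ 3 ≤ ((m : ℕ) : ℝ) := by exact_mod_cast h1'
      have h5 : (0 : ℝ) < (N b : ℝ) ^ 3 := by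
        have := trA_pos N hN0 hNs b
        positivity
      rw [le_div_iff₀ h5]
      nlinarith [hs0 m]
  choose t v hvo hvs hvΛ hvt using fun b : ℕ => exists_good_family s hs0 (lo N b) (N b)
    (Λβ b ∪ Λα b) (smax b) (hsmax0 b) (hsmax b)
  -- B
  let B : ℕ := n0 + 1
  let I := Σ b : Fin B, Fin (t b)
  let e : Fin (Fintype.card I) ≃ I := (Fintype.equivFin I).symm
  let v' : Fin (Fintype.card I) → EuclideanSpace ℝ (Fin n0) := fun l => v (e l).1 (e l).2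
  let bb : Fin (Fintype.card I) → ℕ := fun l => ((e l).1 : ℕ)
  have hsupp : ∀ l m, v' l m ≠ 0 → lo N (bb l) ≤ (m : ℕ) ∧ (m : ℕ) < N (bb l) := by
    intro l m hlm
    exact hvs _ _ m hlm
  have horthI : Orthonormal ℝ (fun x : I => v x.1 x.2) := by
    constructor
    · intro x
      exact (hvo x.1).1 x.2
    · rintro ⟨b, l⟩ ⟨b', l'⟩ hne
      by_cases hbb : b = b'
      · subst hbb
        have hll : l ≠ l' := by
          rintro rfl
          exact hne rfl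
        exact (hvo b).2 hll
      · -- disjoint supports
        show inner ℝ (v b l) (v b' l') = 0
        rw [PiLp.inner_apply]
        apply Finset.sum_eq_zero
        intro m _
        by_cases h1 : v b l m = 0
        · rw [h1]; simp
        · by_cases h2 : v b' l' m = 0
          · rw [h2]; simp
          · exfalso
            obtain ⟨p1, p2⟩ := hvs b l m h1
            obtain ⟨q1, q2⟩ := hvs b' l' m h2
            have hne' : (b : ℕ) ≠ b' := fun h => hbb (Fin.ext h)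
            rcases lt_or_gt_of_ne hne' with h | h
            · have := trA_N_le_lo N hN0 hNs h
              omega
            · have := trA_N_le_lo N hN0 hNs h
              omega
  have horth : Orthonormal ℝ v' := horthI.comp e e.injective
  have hA := hαm (Fintype.card I) bb v' horth hsupp
    (fun l w hw => hvΛ _ _ w (Finset.mem_union_right _ hw))
  have hB := hβm (Fintype.card I) bb v' horth hsupp
    (fun l w hw => hvΛ _ _ w (Finset.mem_union_left _ hw))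
  have hsum : ∑ l, ∑ m, s m * (v' l m) ^ 2 ≤ 2072 := by
    have h1 : ∀ l, ∑ m, s m * (v' l m) ^ 2 ≤
        ((∑ j ∈ range J, (W j).nX (β j (∑ m, v' l m • f m)) ^ 2) +
        (∑ j ∈ range J, (W j).nX (α j (∑ m, v' l m • g m)) ^ 2)) / 2 := by
      intro l
      apply trA_amgm
      · exact Finset.sum_nonneg (fun _ _ => sq_nonneg _)
      · exact Finset.sum_nonneg (fun _ _ => sq_nonneg _)
      · exact hb (fun m => v' l m)
    calc ∑ l, ∑ m, s m * (v' l m) ^ 2 ≤ ∑ l, ((∑ j ∈ range J, (W j).nX (β j (∑ m, v' l m • f m)) ^ 2) +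
        (∑ j ∈ range J, (W j).nX (α j (∑ m, v' l m • g m)) ^ 2)) / 2 :=
          Finset.sum_le_sum (fun l _ => h1 l)
      _ = (∑ l, (∑ j ∈ range J, (W j).nX (β j (∑ m, v' l m • f m)) ^ 2) +
        ∑ l, (∑ j ∈ range J, (W j).nX (α j (∑ m, v' l m • g m)) ^ 2)) / 2 := by
          rw [← Finset.sum_div, Finset.sum_add_distrib]
      _ ≤ 2072 := by linarith
  have hsum' : ∑ b ∈ range B, ∑ l, ∑ m, s m * (v b l m) ^ 2 ≤ 2072 := by
    have h1 : ∑ l, ∑ m, s m * (v' l m) ^ 2 = ∑ x : I, ∑ m, s m * (v x.1 x.2 m) ^ 2 :=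
      e.sum_comp (fun x : I => ∑ m, s m * (v x.1 x.2 m) ^ 2)
    rw [h1, Fintype.sum_sigma] at hsum
    rw [Finset.sum_range]
    exact hsum
  -- the covering
  have hcover : ∑ m ∈ Finset.univ.filter (fun m : Fin n0 => ∃ b, lo N b ≤ (m : ℕ) ∧ (m : ℕ) < N b), s m
      ≤ ∑ b ∈ range B, ∑ m ∈ Finset.univ.filter
        (fun m : Fin n0 => lo N b ≤ (m : ℕ) ∧ (m : ℕ) < N b), s m := by
    have hsub : Finset.univ.filter (fun m : Fin n0 => ∃ b, lo N b ≤ (m : ℕ) ∧ (m : ℕ) < N b) ⊆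
        (range B).biUnion (fun b => Finset.univ.filter
        (fun m : Fin n0 => lo N b ≤ (m : ℕ) ∧ (m : ℕ) < N b)) := by
      intro m hm
      obtain ⟨b, h1, h2⟩ := (Finset.mem_filter.mp hm).2
      rw [Finset.mem_biUnion]
      refine ⟨b, ?_, Finset.mem_filter.mpr ⟨Finset.mem_univ _, h1, h2⟩⟩
      rw [Finset.mem_range]
      by_contra hcon
      have h3 := trA_le_lo N hN0 hNs n0 b (by omega)
      have := m.2
      omega
    refine le_trans (Finset.sum_le_sum_of_subset_of_nonneg hsub (fun m _ _ => hs0 m)) ?_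
    rw [Finset.sum_biUnion]
    intro b _ c _ hbc
    show Disjoint _ _
    rw [Finset.disjoint_left]
    intro m hm1 hm2
    obtain ⟨p1, p2⟩ := (Finset.mem_filter.mp hm1).2
    obtain ⟨q1, q2⟩ := (Finset.mem_filter.mp hm2).2
    rcases lt_or_gt_of_ne hbc with h | h
    · have := trA_N_le_lo N hN0 hNs h
      omega
    · have := trA_N_le_lo N hN0 hNs h
      omega
  -- lost part
  have hlost : ∑ b ∈ range B, ((Λβ b ∪ Λα b).card : ℝ) * smax b ≤ S / 4 := by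
    have hB' : B = n0 + 1 := rfl
    rw [hB', Finset.sum_range_succ']
    have h00 : ((Λβ 0 ∪ Λα 0).card : ℝ) * smax 0 = 0 := by
      rw [hβ0, hα0]; simp
    rw [h00, add_zero]
    have hterm : ∀ b, ((Λβ (b + 1) ∪ Λα (b + 1)).card : ℝ) * smax (b + 1) ≤
        S * (1 / (16 * 2 ^ b)) := by
      intro b
      have hNb := trA_two_pow N hN0 hNs b
      have hNb' : (16 : ℝ) * 2 ^ b ≤ (N b : ℝ) := by exact_mod_cast hNb
      have hpos : (0 : ℝ) < 16 * 2 ^ b := by positivity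
      have hNpos : (0 : ℝ) < (N b : ℝ) := lt_of_lt_of_le hpos hNb'
      have hcard : 50 * (Λβ (b + 1) ∪ Λα (b + 1)).card ≤ 2 * N b ^ 2 := by
        have := Finset.card_union_le (Λβ (b + 1)) (Λα (b + 1))
        have h1 := hβc b
        have h2 := hαc b
        omega
      have hcard' : (50 : ℝ) * ((Λβ (b + 1) ∪ Λα (b + 1)).card : ℝ) ≤ 2 * (N b : ℝ) ^ 2 := by
        exact_mod_cast hcard
      show ((Λβ (b + 1) ∪ Λα (b + 1)).card : ℝ) * (S / (N b : ℝ) ^ 3) ≤ _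
      calc ((Λβ (b + 1) ∪ Λα (b + 1)).card : ℝ) * (S / (N b : ℝ) ^ 3)
          ≤ (N b : ℝ) ^ 2 * (S / (N b : ℝ) ^ 3) := by
            apply mul_le_mul_of_nonneg_right _ (div_nonneg hS0 (by positivity))
            nlinarith [sq_nonneg (N b : ℝ)]
        _ = S * (1 / (N b : ℝ)) := by
            field_simp
        _ ≤ S * (1 / (16 * 2 ^ b)) := by
            apply mul_le_mul_of_nonneg_left _ hS0
            exact one_div_le_one_div_of_le hpos hNb'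
    calc ∑ b ∈ range n0, ((Λβ (b + 1) ∪ Λα (b + 1)).card : ℝ) * smax (b + 1)
        ≤ ∑ b ∈ range n0, S * (1 / (16 * 2 ^ b)) := Finset.sum_le_sum (fun b _ => hterm b)
      _ = S * ∑ b ∈ range n0, (1 : ℝ) / (16 * 2 ^ b) := by rw [Finset.mul_sum]
      _ ≤ S * (1 / 8) := mul_le_mul_of_nonneg_left (trA_geom n0) hS0
      _ ≤ S / 4 := by linarith
  calc ∑ m ∈ Finset.univ.filter (fun m : Fin n0 => ∃ b, lo N b ≤ (m : ℕ) ∧ (m : ℕ) < N b), s m
      ≤ ∑ b ∈ range B, ∑ m ∈ Finset.univ.filter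
        (fun m : Fin n0 => lo N b ≤ (m : ℕ) ∧ (m : ℕ) < N b), s m := hcover
    _ ≤ ∑ b ∈ range B, (∑ l, ∑ m, s m * (v b l m) ^ 2 +
          ((Λβ b ∪ Λα b).card : ℝ) * smax b) := by
        apply Finset.sum_le_sum
        intro b _
        have := hvt b
        convert this using 2
    _ = ∑ b ∈ range B, ∑ l, ∑ m, s m * (v b l m) ^ 2 +
          ∑ b ∈ range B, ((Λβ b ∪ Λα b).card : ℝ) * smax b := Finset.sum_add_distrib
    _ ≤ 2072 + S / 4 := add_le_add hsum' hlost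




/-- The two systems of scales cover everything. -/
theorem traceB_cover (b m : ℕ) (hm : m < (16 ^ 3) ^ (9 ^ b)) :
    (∃ b, lo (fun b => 16 ^ (9 ^ b)) b ≤ m ∧ m < 16 ^ (9 ^ b)) ∨
    (∃ b, lo (fun b => (16 ^ 3) ^ (9 ^ b)) b ≤ m ∧ m < (16 ^ 3) ^ (9 ^ b)) := by
  induction b with
  | zero => exact Or.inr ⟨0, Nat.zero_le _, hm⟩
  | succ b ih =>
    by_cases h1 : m < (16 ^ 3) ^ (9 ^ b)
    · exact ih h1
    · have h1' : (16 ^ 3) ^ (9 ^ b) ≤ m := Nat.le_of_not_lt h1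
      by_cases h2 : m < 16 ^ (9 ^ (b + 1))
      · refine Or.inl ⟨b + 1, ?_, h2⟩
        have : lo (fun b => 16 ^ (9 ^ b)) (b + 1) = (16 ^ 3) ^ (9 ^ b) := by
          show (16 ^ (9 ^ b)) ^ 3 = _
          rw [← pow_mul, ← pow_mul, mul_comm]
        rw [this]
        exact h1'
      · have h2' : 16 ^ (9 ^ (b + 1)) ≤ m := Nat.le_of_not_lt h2
        refine Or.inr ⟨b + 1, ?_, hm⟩
        have : lo (fun b => (16 ^ 3) ^ (9 ^ b)) (b + 1) = 16 ^ (9 ^ (b + 1)) := by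
          show ((16 ^ 3) ^ (9 ^ b)) ^ 3 = _
          rw [← pow_mul, ← pow_mul]
          congr 1
          rw [pow_succ]
          ring
        rw [this]
        exact h2'

/-- (FIN), section 7. PROOF: `exists_svd` for `b`, then `one_system` for `N b = 16^(9^b)` and
`N b = (16^3)^(9^b)`; together the blocks cover everything, so `S ≤ 2 * 2072 + S/2`. -/
theorem trace_bound (W : ℕ → WS) (k : ℕ → ℕ)
    (hk : ∀ j, ∀ z : Fin (W j).len → ℝ, ∑ i, z i ^ 2 ≤ 2 ^ (k j) * (W j).nZ z ^ 2)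
    (hn00 : 16 ^ 3 ≤ (W 0).n)
    (hn0 : (100 * (k 0 + 3)) ^ 9 ≤ (W 0).n)
    (hn : ∀ j, ((W j).n + (W j).len + 100 * (k (j + 1) + 3)) ^ 9 ≤ (W (j + 1)).n)
    (J : ℕ) {n : ℕ} (α β : ∀ j, EuclideanSpace ℝ (Fin n) →ₗ[ℝ] (Fin (W j).len → ℝ))
    (hα : ∑ i : Fin n, ∑ j ∈ range J, (W j).nX (α j (EuclideanSpace.single i 1)) ^ 2 ≤ 1)
    (hβ : ∑ i : Fin n, ∑ j ∈ range J, (W j).nX (β j (EuclideanSpace.single i 1)) ^ 2 ≤ 1)
    (V : Submodule ℝ (EuclideanSpace ℝ (Fin n))) (b : V →ₗ[ℝ] V →ₗ[ℝ] ℝ)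
    (hb : ∀ v w : V, (b v w) ^ 2 ≤ (∑ j ∈ range J, (W j).nX (β j (v : EuclideanSpace ℝ (Fin n))) ^ 2) *
      (∑ j ∈ range J, (W j).nX (α j (w : EuclideanSpace ℝ (Fin n))) ^ 2))
    (t : ℕ) (e : OrthonormalBasis (Fin t) ℝ V) :
    ∑ i, b (e i) (e i) ≤ 8288 := by
  obtain ⟨n0, f, g, s, hf, hg, hs, hs0, hfg, htr⟩ := exists_svd b
  have hf' : Orthonormal ℝ (fun m => ((f m : V) : EuclideanSpace ℝ (Fin n))) :=
    hf.comp_linearIsometry V.subtypeₗᵢ
  have hg' : Orthonormal ℝ (fun m => ((g m : V) : EuclideanSpace ℝ (Fin n))) :=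
    hg.comp_linearIsometry V.subtypeₗᵢ
  have hbil : ∀ v : Fin n0 → ℝ, b (∑ m, v m • f m) (∑ m, v m • g m) = ∑ m, s m * v m ^ 2 := by
    intro v
    simp only [map_sum, map_smul, LinearMap.sum_apply, LinearMap.smul_apply, smul_eq_mul, hfg,
      mul_ite, mul_zero, Finset.mem_univ, if_true, Finset.sum_ite_eq']
    refine Finset.sum_congr rfl fun m _ => ?_
    ring
  have hb' : ∀ v : Fin n0 → ℝ, (∑ m, s m * v m ^ 2) ^ 2 ≤
      (∑ j ∈ range J, (W j).nX (β j (∑ m, v m • ((f m : V) : EuclideanSpace ℝ (Fin n)))) ^ 2) *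
      (∑ j ∈ range J, (W j).nX (α j (∑ m, v m • ((g m : V) : EuclideanSpace ℝ (Fin n)))) ^ 2) := by
    intro v
    have h := hb (∑ m, v m • f m) (∑ m, v m • g m)
    rw [hbil] at h
    have e1 : ((∑ m, v m • f m : V) : EuclideanSpace ℝ (Fin n))
        = ∑ m, v m • ((f m : V) : EuclideanSpace ℝ (Fin n)) := by
      rw [Submodule.coe_sum]; rfl
    have e2 : ((∑ m, v m • g m : V) : EuclideanSpace ℝ (Fin n))
        = ∑ m, v m • ((g m : V) : EuclideanSpace ℝ (Fin n)) := by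
      rw [Submodule.coe_sum]; rfl
    rw [e1, e2] at h
    exact h
  have hA := one_system W k hk hn0 hn (fun b => 16 ^ (9 ^ b)) (by norm_num)
    (le_trans (by norm_num) hn00) (fun b => by
      show 16 ^ 9 ^ (b + 1) = (16 ^ 9 ^ b) ^ 9
      rw [← pow_mul, pow_succ]) J α β hα hβ _ _ hf' hg' s hs (fun m => (hs0 m).le) hb'
  have hB := one_system W k hk hn0 hn (fun b => (16 ^ 3) ^ (9 ^ b)) (by norm_num)
    (le_trans (by norm_num) hn00) (fun b => by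
      show (16 ^ 3) ^ 9 ^ (b + 1) = ((16 ^ 3) ^ 9 ^ b) ^ 9
      rw [← pow_mul, ← pow_mul, ← pow_mul, pow_succ]) J α β hα hβ _ _ hf' hg' s hs (fun m => (hs0 m).le) hb'
  set A := Finset.univ.filter
    (fun m : Fin n0 => ∃ b, lo (fun b => 16 ^ (9 ^ b)) b ≤ (m : ℕ) ∧ (m : ℕ) < 16 ^ (9 ^ b)) with hAdef
  set B := Finset.univ.filter
    (fun m : Fin n0 => ∃ b, lo (fun b => (16 ^ 3) ^ (9 ^ b)) b ≤ (m : ℕ) ∧
      (m : ℕ) < (16 ^ 3) ^ (9 ^ b)) with hBdef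
  have hcov : (Finset.univ : Finset (Fin n0)) ⊆ A ∪ B := by
    intro m _
    have hlt : (m : ℕ) < (16 ^ 3) ^ (9 ^ (m : ℕ)) := by
      have h1 : (m : ℕ) < 9 ^ (m : ℕ) := Nat.lt_pow_self (by norm_num)
      have h2 : 9 ^ (m : ℕ) < (16 ^ 3) ^ (9 ^ (m : ℕ)) := Nat.lt_pow_self (by norm_num)
      exact h1.trans h2
    rcases traceB_cover (m : ℕ) (m : ℕ) hlt with h | h
    · exact Finset.mem_union_left _ (Finset.mem_filter.2 ⟨Finset.mem_univ _, h⟩)
    · exact Finset.mem_union_right _ (Finset.mem_filter.2 ⟨Finset.mem_univ _, h⟩)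
  have hS : ∑ m, s m ≤ ∑ m ∈ A, s m + ∑ m ∈ B, s m := by
    calc ∑ m, s m ≤ ∑ m ∈ A ∪ B, s m :=
          Finset.sum_le_sum_of_subset_of_nonneg hcov fun m _ _ => (hs0 m).le
      _ ≤ ∑ m ∈ A ∪ B, s m + ∑ m ∈ A ∩ B, s m :=
          le_add_of_nonneg_right (Finset.sum_nonneg fun m _ => (hs0 m).le)
      _ = _ := Finset.sum_union_inter
  have hfin := htr t e
  linarith

end Pool.Agent.MP_1b7159_an
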