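import Pool.Agent.Lib.MP_1b7159_an.Norms
import Pool.Agent.Lib.MP_1b7159_an.Trace
import Pool.Agent.Lib.MP_1b7159_an.Tensor

/-!
# MP_1b7159_an: the space `X = (∑ X_j)_2`
-/

set_option autoImplicit false

open Finset
open scoped ENNReal

namespace Pool.Agent.MP_1b7159_an

/-- The finite dimensional space `X_j`: `ℝ^len` with the norm `nX`. -/
def WS.XSp (W : WS) : Type := Fin W.len → ℝ

namespace WS

variable (W : WS)

instance : AddCommGroup W.XSp := inferInstanceAs (AddCommGroup (Fin W.len → ℝ))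
instance : Module ℝ W.XSp := inferInstanceAs (Module ℝ (Fin W.len → ℝ))
noncomputable instance : Norm W.XSp := ⟨fun g => W.nX g⟩

theorem XSp_core : NormedSpace.Core ℝ W.XSp where
  norm_nonneg g := W.nX_nonneg g
  norm_smul c g := W.nX_smul c g
  norm_triangle g h := W.nX_add_le g h
  norm_eq_zero_iff g := ⟨fun h => W.eq_zero_of_nX_eq_zero h, fun h => by rw [h]; exact W.nX_zero⟩

noncomputable instance : NormedAddCommGroup W.XSp := NormedAddCommGroup.ofCore W.XSp_core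
noncomputable instance : NormedSpace ℝ W.XSp := NormedSpace.ofCore W.XSp_core

instance : FiniteDimensional ℝ W.XSp := inferInstanceAs (FiniteDimensional ℝ (Fin W.len → ℝ))

instance : CompleteSpace W.XSp := FiniteDimensional.complete ℝ W.XSp

theorem XSp_norm_def (g : W.XSp) : ‖g‖ = W.nX g := rfl

end WS

/-- The space. -/
abbrev XX (W : ℕ → WS) : Type := lp (fun j => (W j).XSp) 2

/-- The `ℓ²` identity for the norm of `XX W`. -/
theorem XX_hasSum (W : ℕ → WS) (x : XX W) :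
    HasSum (fun j => (W j).nX (x j) ^ 2) (‖x‖ ^ 2) := by
  have h := lp.hasSum_norm (p := 2) (by norm_num) x
  have e : (2 : ℝ≥0∞).toReal = ((2 : ℕ) : ℝ) := by norm_num
  rw [e, Real.rpow_natCast] at h
  have e2 : (fun j => ‖x j‖ ^ (((2 : ℕ) : ℝ))) = fun j => (W j).nX (x j) ^ 2 := by
    funext j
    rw [Real.rpow_natCast, WS.XSp_norm_def]
  rw [e2] at h
  exact h

theorem XX_sum_le (W : ℕ → WS) (x : XX W) (J : ℕ) :
    ∑ j ∈ range J, (W j).nX (x j) ^ 2 ≤ ‖x‖ ^ 2 :=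
  sum_le_hasSum _ (fun j _ => sq_nonneg _) (XX_hasSum W x)

theorem XX_cont (W : ℕ → WS) (j : ℕ) : Continuous (fun x : XX W => (W j).nX (x j)) := by
  have h := (lp.evalCLM ℝ (fun j => (W j).XSp) 2 j).continuous.norm
  exact h

/-- Uniform truncation on the range of a linear map from a finite dimensional space. -/
theorem XX_trunc (W : ℕ → WS) {H : Type*} [AddCommGroup H] [Module ℝ H] [FiniteDimensional ℝ H]
    (β : H →ₗ[ℝ] XX W) :
    ∃ J0 : ℕ, ∀ J, J0 ≤ J → ∀ η : H, ‖β η‖ ^ 2 ≤ 2 * ∑ j ∈ range J, (W j).nX (β η j) ^ 2 := by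
  classical
  set F : Submodule ℝ (XX W) := LinearMap.range β with hF
  haveI : FiniteDimensional ℝ F := inferInstance
  haveI : ProperSpace F := FiniteDimensional.proper ℝ F
  have hK : IsCompact (Metric.sphere (0 : F) 1) := isCompact_sphere _ _
  let f : ℕ → F → ℝ := fun J x => ∑ j ∈ range J, (W j).nX ((x : XX W) j) ^ 2
  have hfc : ∀ J, Continuous (f J) := by
    intro J
    refine continuous_finsetSum _ fun j _ => ?_
    exact ((XX_cont W j).comp continuous_subtype_val).pow 2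
  have hmono : ∀ x, Monotone fun J => f J x := by
    intro x a b hab
    exact Finset.sum_le_sum_of_subset_of_nonneg (Finset.range_mono hab) fun _ _ _ => sq_nonneg _
  let U : ℕ → Set F := fun J => {x | (1 : ℝ) / 2 < f J x}
  have hUo : ∀ J, IsOpen (U J) := fun J => isOpen_lt continuous_const (hfc J)
  have hUm : Monotone U := by
    intro a b hab x hx
    exact lt_of_lt_of_le hx (hmono x hab)
  have hcov : Metric.sphere (0 : F) 1 ⊆ ⋃ J, U J := by
    intro x hx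
    have hx1 : ‖x‖ = 1 := by simpa using hx
    have ht := (XX_hasSum W (x : XX W)).tendsto_sum_nat
    have hn : ‖(x : XX W)‖ ^ 2 = 1 := by
      have : ‖(x : XX W)‖ = 1 := by rw [← hx1]; rfl
      rw [this]; norm_num
    rw [hn] at ht
    have := (ht.eventually (lt_mem_nhds (show (1 : ℝ) / 2 < 1 by norm_num))).exists
    obtain ⟨J, hJ⟩ := this
    exact Set.mem_iUnion.2 ⟨J, hJ⟩
  obtain ⟨J0, hJ0⟩ := hK.elim_directed_cover U hUo hcov (hUm.directed_le)
  refine ⟨J0, fun J hJ η => ?_⟩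
  rcases eq_or_ne (β η) 0 with h0 | h0
  · rw [h0]
    simp only [norm_zero, ne_eq, OfNat.ofNat_ne_zero, not_false_eq_true, zero_pow]
    positivity
  · have hpos : 0 < ‖β η‖ := norm_pos_iff.2 h0
    let y : F := ⟨(‖β η‖)⁻¹ • β η, F.smul_mem _ ⟨η, rfl⟩⟩
    have hy : y ∈ Metric.sphere (0 : F) 1 := by
      rw [mem_sphere_zero_iff_norm]
      change ‖(‖β η‖)⁻¹ • β η‖ = 1
      rw [norm_smul, norm_inv, norm_norm, inv_mul_cancel₀ hpos.ne']
    have h1 : (1 : ℝ) / 2 < f J y := lt_of_lt_of_le (hJ0 hy) (hmono y hJ)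
    have h2 : f J y = (‖β η‖)⁻¹ ^ 2 * ∑ j ∈ range J, (W j).nX (β η j) ^ 2 := by
      rw [Finset.mul_sum]
      refine Finset.sum_congr rfl fun j _ => ?_
      have : (W j).nX ((y : XX W) j) = |(‖β η‖)⁻¹| * (W j).nX (β η j) := (W j).nX_smul _ _
      rw [this, mul_pow, sq_abs]
    rw [h2] at h1
    have h3 : ‖β η‖ ^ 2 * (1 / 2) < ‖β η‖ ^ 2 * ((‖β η‖)⁻¹ ^ 2 * ∑ j ∈ range J, (W j).nX (β η j) ^ 2) :=
      mul_lt_mul_of_pos_left h1 (by positivity)
    have h4 : ‖β η‖ ^ 2 * ((‖β η‖)⁻¹ ^ 2 * ∑ j ∈ range J, (W j).nX (β η j) ^ 2)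
        = ∑ j ∈ range J, (W j).nX (β η j) ^ 2 := by
      rw [← mul_assoc, ← mul_pow, mul_inv_cancel₀ hpos.ne', one_pow, one_mul]
    rw [h4] at h3
    linarith

/-- The `j`-th coordinate of a linear map into `XX W`. -/
noncomputable def XX_coord (W : ℕ → WS) {H : Type*} [AddCommGroup H] [Module ℝ H]
    (β : H →ₗ[ℝ] XX W) (j : ℕ) : H →ₗ[ℝ] (Fin (W j).len → ℝ) where
  toFun η := (β η) j
  map_add' a b := by
    rw [map_add]
    rfl
  map_smul' c a := by
    rw [map_smul]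
    rfl

/-- JOB SPACE-A. The trace property for `X` (end of section 8).
PROOF. Given `α, β : H → X`, the subspace `F = range α + range β` is finite dimensional; `P_J` = truncation to the blocks `j < J`.
`‖x - P_J x‖ → 0` for every `x ∈ lp` (`lp.hasSum_single` or the tail of `∑ ‖x j‖^2`), hence uniformly on the unit ball of `F`: for `J` large
`‖x‖² ≤ (101/100) ∑_{j<J} ‖x j‖²` for `x ∈ F`. Apply `trace_bound` to `β_j η = (β η) j`, `α_j η = (α η) j` and `(99/100)... • b`. -/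
theorem traceProp_XX (W : ℕ → WS) (k : ℕ → ℕ)
    (hk : ∀ j, ∀ z : Fin (W j).len → ℝ, ∑ i, z i ^ 2 ≤ 2 ^ (k j) * (W j).nZ z ^ 2)
    (hn00 : 16 ^ 3 ≤ (W 0).n)
    (hn0 : (100 * (k 0 + 3)) ^ 9 ≤ (W 0).n)
    (hn : ∀ j, ((W j).n + (W j).len + 100 * (k (j + 1) + 3)) ^ 9 ≤ (W (j + 1)).n) :
    TraceProp (XX W) (2 * 8288) := by
  intro n α β hα hβ V b hb t e
  obtain ⟨J1, hJ1⟩ := XX_trunc W α
  obtain ⟨J2, hJ2⟩ := XX_trunc W β
  set J := max J1 J2 with hJ
  have hA := hJ1 J (le_max_left _ _)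
  have hB := hJ2 J (le_max_right _ _)
  have key := trace_bound W k hk hn00 hn0 hn J (XX_coord W α) (XX_coord W β)
    (le_trans (Finset.sum_le_sum fun i _ => XX_sum_le W _ J) hα)
    (le_trans (Finset.sum_le_sum fun i _ => XX_sum_le W _ J) hβ) V ((1 / 2 : ℝ) • b) ?_ t e
  · have h2 : ∑ i, ((1 / 2 : ℝ) • b) (e i) (e i) = (1 / 2) * ∑ i, b (e i) (e i) := by
      rw [Finset.mul_sum]
      rfl
    rw [h2] at key
    linarith
  · intro v w
    have h1 : ((1 / 2 : ℝ) • b) v w = (1 / 2) * b v w := rfl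
    rw [h1]
    have h2 := hb v w
    have h3 : (b v w) ^ 2 ≤ ‖β (v : EuclideanSpace ℝ (Fin n))‖ ^ 2 *
        ‖α (w : EuclideanSpace ℝ (Fin n))‖ ^ 2 := by
      rw [← mul_pow, ← sq_abs (b v w)]
      exact pow_le_pow_left₀ (abs_nonneg _) h2 2
    have h4 := hA (w : EuclideanSpace ℝ (Fin n))
    have h5 := hB (v : EuclideanSpace ℝ (Fin n))
    have h6 := mul_le_mul h5 h4 (sq_nonneg _)
      (mul_nonneg (by norm_num) (Finset.sum_nonneg fun _ _ => sq_nonneg _))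
    have h7 : (1 / 2 * b v w) ^ 2 = (1 / 4) * (b v w) ^ 2 := by ring
    rw [h7]
    change (1 / 4) * (b v w) ^ 2 ≤ (∑ j ∈ range J, (W j).nX (β (v : EuclideanSpace ℝ (Fin n)) j) ^ 2) *
      (∑ j ∈ range J, (W j).nX (α (w : EuclideanSpace ℝ (Fin n)) j) ^ 2)
    have h8 : (2 * ∑ j ∈ range J, (W j).nX (β (v : EuclideanSpace ℝ (Fin n)) j) ^ 2) *
        (2 * ∑ j ∈ range J, (W j).nX (α (w : EuclideanSpace ℝ (Fin n)) j) ^ 2) =
        4 * ((∑ j ∈ range J, (W j).nX (β (v : EuclideanSpace ℝ (Fin n)) j) ^ 2) *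
      (∑ j ∈ range J, (W j).nX (α (w : EuclideanSpace ℝ (Fin n)) j) ^ 2)) := by ring
    rw [h8] at h6
    linarith


/-- the linear embedding of the `j`-th block -/
noncomputable def spB_emb (W : ℕ → WS) (j : ℕ) : (Fin (W j).len → ℝ) →ₗ[ℝ] XX W where
  toFun g := lp.single (E := fun j => (W j).XSp) 2 j (g : (W j).XSp)
  map_add' a b := lp.single_add (E := fun j => (W j).XSp) 2 j (a : (W j).XSp) (b : (W j).XSp)
  map_smul' c a := lp.single_smul (E := fun j => (W j).XSp) 2 j c (a : (W j).XSp)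

theorem spB_norm_emb (W : ℕ → WS) (j : ℕ) (g : Fin (W j).len → ℝ) :
    ‖spB_emb W j g‖ = (W j).nX g := by
  have h := lp.norm_single (E := fun j => (W j).XSp) (p := 2) (by norm_num) j (g : (W j).XSp)
  exact h

/-- JOB SPACE-B. `X` is not of type 2. PROOF (section 9): given `C`, take `j` with `(j+1)² > C²`, `z` as in `h` for this `j`, and the
vectors `x_i = lp.single 2 j (Pi.single i (z i))`. For all signs `‖∑ ε_i x_i‖ = nX (ε z) = nX z` (`nX_congr_abs`), `nX z ≥ ∑ z²/nZ z`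
(`pair_le`), so `nX z ^2 ≥ (j+1)² ∑ z²`, while `∑ ‖x_i‖² ≤ ∑ z_i²` (`nX_single_le`). -/
theorem not_type2_XX (W : ℕ → WS)
    (h : ∀ j : ℕ, ∃ z : Fin (W j).len → ℝ, z ≠ 0 ∧
      ((j : ℝ) + 1) ^ 2 * (W j).nZ z ^ 2 ≤ ∑ i, z i ^ 2) :
    ¬ HasType2 (XX W) := by
  rintro ⟨C, hC⟩
  obtain ⟨j, hj⟩ : ∃ j : ℕ, |C| ≤ j := exists_nat_ge |C|
  obtain ⟨z, hz0, hz⟩ := h j
  have hS : 0 < ∑ i, z i ^ 2 := by
    obtain ⟨i, hi⟩ : ∃ i, z i ≠ 0 := by
      by_contra hcon
      push Not at hcon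
      exact hz0 (funext hcon)
    exact Finset.sum_pos' (fun i _ => sq_nonneg _) ⟨i, Finset.mem_univ i, by positivity⟩
  -- the vectors
  have key := hC (W j).len (fun i => spB_emb W j (Pi.single i (z i)))
  have hnorm : ∀ ε : Fin (W j).len → Bool,
      ‖∑ i, (if ε i then (1 : ℝ) else -1) • spB_emb W j (Pi.single i (z i))‖ = (W j).nX z := by
    intro ε
    have e1 : ∑ i, (if ε i then (1 : ℝ) else -1) • spB_emb W j (Pi.single i (z i))
        = spB_emb W j (fun i => (if ε i then (1 : ℝ) else -1) * z i) := by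
      simp_rw [← map_smul]
      rw [← map_sum]
      congr 1
      funext i
      rw [Finset.sum_apply]
      simp only [Pi.smul_apply, smul_eq_mul, Pi.single_apply, mul_ite, mul_zero]
      rw [Finset.sum_ite_eq]
      simp
    rw [e1, spB_norm_emb]
    refine (W j).nX_congr_abs fun i => ?_
    split_ifs <;> simp
  simp_rw [hnorm] at key
  rw [Finset.sum_const, Finset.card_univ] at key
  have hcard : Fintype.card (Fin (W j).len → Bool) = 2 ^ (W j).len := by simp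
  rw [hcard, nsmul_eq_mul, Nat.cast_pow, Nat.cast_ofNat,
    mul_div_cancel_left₀ _ (by positivity)] at key
  have hsum : ∑ i, ‖spB_emb W j (Pi.single i (z i))‖ ^ 2 ≤ ∑ i, z i ^ 2 := by
    refine Finset.sum_le_sum fun i _ => ?_
    rw [spB_norm_emb, ← sq_abs (z i)]
    exact pow_le_pow_left₀ ((W j).nX_nonneg _) ((W j).nX_single_le i (z i)) 2
  have key2 : (W j).nX z ^ 2 ≤ C ^ 2 * ∑ i, z i ^ 2 :=
    key.trans (mul_le_mul_of_nonneg_left hsum (sq_nonneg C))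
  have hp : ∑ i, z i ^ 2 ≤ (W j).nX z * (W j).nZ z := by
    have := (W j).pair_le z z
    calc ∑ i, z i ^ 2 = ∑ i, z i * z i := Finset.sum_congr rfl fun i _ => sq _
      _ ≤ _ := this
  have hp2 : (∑ i, z i ^ 2) ^ 2 ≤ (W j).nX z ^ 2 * (W j).nZ z ^ 2 := by
    rw [← mul_pow]
    exact pow_le_pow_left₀ hS.le hp 2
  set S := ∑ i, z i ^ 2 with hSdef
  have hX := (W j).nX_nonneg z
  have h1 : ((j : ℝ) + 1) ^ 2 * S ^ 2 ≤ (W j).nX z ^ 2 * S := by
    calc ((j : ℝ) + 1) ^ 2 * S ^ 2 ≤ ((j : ℝ) + 1) ^ 2 * ((W j).nX z ^ 2 * (W j).nZ z ^ 2) :=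
          mul_le_mul_of_nonneg_left hp2 (sq_nonneg _)
      _ = (W j).nX z ^ 2 * (((j : ℝ) + 1) ^ 2 * (W j).nZ z ^ 2) := by ring
      _ ≤ (W j).nX z ^ 2 * S := mul_le_mul_of_nonneg_left hz (sq_nonneg _)
  have h2 : ((j : ℝ) + 1) ^ 2 * S ≤ (W j).nX z ^ 2 := by
    have : (((j : ℝ) + 1) ^ 2 * S) * S ≤ (W j).nX z ^ 2 * S := by
      calc (((j : ℝ) + 1) ^ 2 * S) * S = ((j : ℝ) + 1) ^ 2 * S ^ 2 := by ring
        _ ≤ _ := h1
    exact le_of_mul_le_mul_right this hS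
  have h3 : ((j : ℝ) + 1) ^ 2 * S ≤ C ^ 2 * S := h2.trans key2
  have h4 : ((j : ℝ) + 1) ^ 2 ≤ C ^ 2 := le_of_mul_le_mul_right h3 hS
  have h5 : C ^ 2 ≤ (j : ℝ) ^ 2 := by
    rw [← sq_abs C]
    exact pow_le_pow_left₀ (abs_nonneg _) hj 2
  nlinarith [(Nat.cast_nonneg j : (0 : ℝ) ≤ (j : ℝ))]

end Pool.Agent.MP_1b7159_an
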