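import Pool.Agent.Lib.MP_1b7159_an.Norms

/-!
# MP_1b7159_an JOB TREE: tree weights and their spreading property (section 5, (T1))
-/

set_option autoImplicit false

open Finset

namespace Pool.Agent.MP_1b7159_an

/-- Tree weights. `c q = some l` means that `q` belongs to the `l`-th (disjoint) set. -/
inductive TR : (ℕ → ℝ) → Prop
  | single (q : ℕ) : TR (Pi.single q 1)
  | op (N L : ℕ) (hL : L ≤ phi2 N) (a : Fin L → ℕ → ℝ) (ha : ∀ l, TR (a l))
      (c : ℕ → Option (Fin L)) (hc : ∀ q, c q ≠ none → N ≤ q) :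
      TR (fun q => (c q).elim 0 (fun l => a l q / 2))

theorem TR.nonneg {a : ℕ → ℝ} (h : TR a) (q : ℕ) : 0 ≤ a q := by
  induction h with
  | single p => rw [Pi.single_apply]; split_ifs <;> norm_num
  | op N L hL a ha c hc ih =>
    cases hcq : c q with
    | none => simp [hcq]
    | some l => simp only [hcq, Option.elim]; linarith [ih l]

theorem TR.le_one {a : ℕ → ℝ} (h : TR a) (q : ℕ) : a q ≤ 1 := by
  induction h with
  | single p => rw [Pi.single_apply]; split_ifs <;> norm_num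
  | op N L hL a ha c hc ih =>
    cases hcq : c q with
    | none => simp [hcq]
    | some l => simp only [hcq, Option.elim]; linarith [ih l, (ha l).nonneg q]

theorem tree_interval_unique {B : ℕ → ℕ} (hB : StrictMono B) {i j x : ℕ}
    (hi : B i ≤ x) (hi' : x < B (i + 1)) (hj : B j ≤ x) (hj' : x < B (j + 1)) : i = j := by
  rcases lt_trichotomy i j with h | h | h
  · have : B (i + 1) ≤ B j := hB.monotone h
    omega
  · exact h
  · have : B (j + 1) ≤ B i := hB.monotone h
    omega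

/-- Except for one interval `[B i, B (i+1))`, a tree weight is on such an interval `0` or at most half of
at most `phi2 (B i)` tree weights. -/
theorem TR.split {a : ℕ → ℝ} (h : TR a) {B : ℕ → ℕ} (hB : StrictMono B) :
    ∃ e : ℕ, ∀ i, i ≠ e → ∃ (L' : ℕ) (_ : L' ≤ phi2 (B i)) (a' : Fin L' → ℕ → ℝ),
      (∀ l, TR (a' l)) ∧ ∀ q, B i ≤ q → q < B (i + 1) → a q ≤ 0 ∨ ∃ l', a q ≤ a' l' q / 2 := by
  cases h with
  | single p =>
    by_cases hp : ∃ i, B i ≤ p ∧ p < B (i + 1)
    · obtain ⟨e, he1, he2⟩ := hp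
      refine ⟨e, fun i hi => ⟨0, Nat.zero_le _, fun l => l.elim0, fun l => l.elim0, fun q h1 h2 => ?_⟩⟩
      left
      have hq : q ≠ p := by
        rintro rfl
        exact hi (tree_interval_unique hB h1 h2 he1 he2)
      rw [Pi.single_eq_of_ne hq]
    · refine ⟨0, fun i hi => ⟨0, Nat.zero_le _, fun l => l.elim0, fun l => l.elim0, fun q h1 h2 => ?_⟩⟩
      left
      have hq : q ≠ p := by
        rintro rfl
        exact hp ⟨i, h1, h2⟩
      rw [Pi.single_eq_of_ne hq]
  | op N L hL a ha c hc =>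
    have key : ∀ i, ¬ (B i ≤ N ∧ N < B (i + 1)) → ∃ (L' : ℕ) (_ : L' ≤ phi2 (B i)) (a' : Fin L' → ℕ → ℝ),
        (∀ l, TR (a' l)) ∧ ∀ q, B i ≤ q → q < B (i + 1) →
          (c q).elim 0 (fun l => a l q / 2) ≤ 0 ∨
            ∃ l', (c q).elim 0 (fun l => a l q / 2) ≤ a' l' q / 2 := by
      intro i hi
      rcases lt_or_ge N (B i) with h1 | h1
      · refine ⟨L, hL.trans (phi2_mono h1.le), a, ha, fun q _ _ => ?_⟩
        cases hcq : c q with
        | none => left; simp
        | some l => right; exact ⟨l, by simp⟩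
      · have h2 : B (i + 1) ≤ N := by
          by_contra h3
          exact hi ⟨h1, not_le.1 h3⟩
        refine ⟨0, Nat.zero_le _, fun l => l.elim0, fun l => l.elim0, fun q _ h3 => ?_⟩
        left
        cases hcq : c q with
        | none => simp
        | some l =>
          have := hc q (by rw [hcq]; simp)
          omega
    by_cases hN : ∃ i, B i ≤ N ∧ N < B (i + 1)
    · obtain ⟨e, he1, he2⟩ := hN
      exact ⟨e, fun i hi => key i fun h => hi (tree_interval_unique hB h.1 h.2 he1 he2)⟩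
    · exact ⟨0, fun i _ => key i fun h => hN ⟨i, h⟩⟩

/-- The spreading property of a probability `ρ` on `E` for at most `L₀` tree weights. -/
def Spread (b : ℝ) (L₀ : ℕ) (E : Finset ℕ) (ρ : ℕ → ℝ) : Prop :=
  ∀ (L : ℕ), L ≤ L₀ → ∀ a : Fin L → ℕ → ℝ, (∀ l, TR (a l)) → ∀ u : ℕ → ℝ,
    (∀ q ∈ E, u q ≤ 0 ∨ ∃ l, u q ≤ a l q) → ∑ q ∈ E, ρ q * u q ≤ b

theorem spread_step {b : ℝ} {L₀ m : ℕ} {B : ℕ → ℕ} (hB : StrictMono B) {E : ℕ → Finset ℕ}
    {ρ : ℕ → ℕ → ℝ} (hE : ∀ i, ∀ q ∈ E i, B i ≤ q ∧ q < B (i + 1)) (h0 : ∀ i q, 0 ≤ ρ i q)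
    (h1 : ∀ i, ∑ q ∈ E i, ρ i q = 1) (hsp : ∀ i, Spread b (L₀ * phi2 (B i)) (E i) (ρ i))
    (hb : 0 ≤ b) {L : ℕ} (hL : L ≤ L₀) (a : Fin L → ℕ → ℝ) (ha : ∀ l, TR (a l)) (u : ℕ → ℝ)
    (hu : ∀ i < m, ∀ q ∈ E i, u q ≤ 0 ∨ ∃ l, u q ≤ a l q) :
    ∑ i ∈ range m, ∑ q ∈ E i, ρ i q * u q ≤ L₀ + m * (b / 2) := by
  classical
  choose e he using fun l => (ha l).split hB
  have hle1 : ∀ i < m, ∑ q ∈ E i, ρ i q * u q ≤ 1 := by
    intro i hi
    rw [← h1 i]
    refine Finset.sum_le_sum fun q hq => ?_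
    have : u q ≤ 1 := by
      rcases hu i hi q hq with h | ⟨l, h⟩
      · linarith
      · exact h.trans ((ha l).le_one q)
    nlinarith [h0 i q]
  have hgood : ∀ i < m, i ∉ Finset.univ.image e → ∑ q ∈ E i, ρ i q * u q ≤ b / 2 := by
    intro i hi hie
    have hie' : ∀ l, i ≠ e l := fun l h => hie (Finset.mem_image.2 ⟨l, Finset.mem_univ _, h.symm⟩)
    choose L' hL' a' ha' hq' using fun l => he l i (hie' l)
    have hsum : ∑ l, L' l ≤ L₀ * phi2 (B i) := by
      calc ∑ l, L' l ≤ ∑ _l : Fin L, phi2 (B i) := Finset.sum_le_sum fun l _ => hL' l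
        _ = L * phi2 (B i) := by simp
        _ ≤ L₀ * phi2 (B i) := Nat.mul_le_mul_right _ hL
    have := hsp i (∑ l, L' l) hsum
      (fun x => a' (finSigmaFinEquiv.symm x).1 (finSigmaFinEquiv.symm x).2)
      (fun x => ha' _ _) (fun q => 2 * u q) (by
        intro q hq
        obtain ⟨hq1, hq2⟩ := hE i q hq
        rcases hu i hi q hq with h | ⟨l, h⟩
        · left; linarith
        · rcases hq' l q hq1 hq2 with h' | ⟨l', h'⟩
          · left; linarith
          · right
            refine ⟨finSigmaFinEquiv ⟨l, l'⟩, ?_⟩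
            rw [Equiv.symm_apply_apply]
            linarith)
    have e2 : ∑ q ∈ E i, ρ i q * (2 * u q) = 2 * ∑ q ∈ E i, ρ i q * u q := by
      rw [Finset.mul_sum]
      exact Finset.sum_congr rfl fun q _ => by ring
    rw [e2] at this
    linarith
  have hall : ∀ i ∈ range m, ∑ q ∈ E i, ρ i q * u q ≤
      (if i ∈ Finset.univ.image e then 1 else 0) + b / 2 := by
    intro i hi
    have hi' := Finset.mem_range.1 hi
    split_ifs with h
    · linarith [hle1 i hi']
    · linarith [hgood i hi' h]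
  have hcard : (∑ i ∈ range m, (if i ∈ Finset.univ.image e then (1 : ℝ) else 0)) ≤ L₀ := by
    rw [← Finset.sum_filter, Finset.sum_const, nsmul_eq_mul, mul_one]
    have h2 : ((range m).filter fun i => i ∈ Finset.univ.image e).card ≤ (Finset.univ.image e).card :=
      Finset.card_le_card fun x hx => (Finset.mem_filter.1 hx).2
    have h3 : (Finset.univ.image e).card ≤ L := Finset.card_image_le.trans (by simp)
    exact_mod_cast (h2.trans h3).trans hL
  calc ∑ i ∈ range m, ∑ q ∈ E i, ρ i q * u q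
      ≤ ∑ i ∈ range m, ((if i ∈ Finset.univ.image e then (1 : ℝ) else 0) + b / 2) :=
        Finset.sum_le_sum hall
    _ = (∑ i ∈ range m, (if i ∈ Finset.univ.image e then (1 : ℝ) else 0)) + m * (b / 2) := by
        rw [Finset.sum_add_distrib]; simp
    _ ≤ L₀ + m * (b / 2) := by linarith

/-- (T1) of the notes. For all `k, ε, n, L₀` there is a probability `ρ` on a finite set `E ⊆ [n,∞)` with
`∑ ρ u ≤ ε + 2^{-k}` whenever `u` is pointwise at most the maximum of `L ≤ L₀` tree weights (and `0` if `L = 0`).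

PROOF: induction on `k`, see section 5 of the notes. -/
theorem exists_spread (k : ℕ) : ∀ (ε : ℝ) (_ : 0 < ε) (n L₀ : ℕ),
    ∃ (E : Finset ℕ) (ρ : ℕ → ℝ), (∀ q ∈ E, n ≤ q) ∧ (∀ q, 0 ≤ ρ q) ∧ (∀ q, q ∉ E → ρ q = 0) ∧
      ∑ q ∈ E, ρ q = 1 ∧
      ∀ (L : ℕ), L ≤ L₀ → ∀ a : Fin L → ℕ → ℝ, (∀ l, TR (a l)) → ∀ u : ℕ → ℝ,
        (∀ q ∈ E, u q ≤ 0 ∨ ∃ l, u q ≤ a l q) → ∑ q ∈ E, ρ q * u q ≤ ε + (1 / 2) ^ k := by
  classical
  induction k with
  | zero =>
    intro ε hε n L₀
    refine ⟨{n}, Pi.single n 1, by simp, ?_, ?_, by simp, ?_⟩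
    · intro q; rw [Pi.single_apply]; split_ifs <;> norm_num
    · intro q hq; exact Pi.single_eq_of_ne (by simpa using hq) _
    · intro L _ a ha u hu
      have : u n ≤ 1 := by
        rcases hu n (by simp) with h | ⟨l, h⟩
        · linarith
        · exact h.trans ((ha l).le_one n)
      simp only [Finset.sum_singleton, Pi.single_eq_same, one_mul, pow_zero]
      linarith
  | succ k IH =>
    intro ε hε n L₀
    choose E ρ hE h0 hz h1 hsp using IH ε hε
    obtain ⟨m, hm⟩ : ∃ m : ℕ, 2 * (L₀ : ℝ) / ε < m := exists_nat_gt _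
    have hm0 : (0 : ℝ) < m := lt_of_le_of_lt (by positivity) hm
    have hLm : (L₀ : ℝ) / m ≤ ε / 2 := by
      rw [div_lt_iff₀ hε] at hm
      rw [div_le_iff₀ hm0]
      linarith
    let B : ℕ → ℕ := fun i => Nat.rec n (fun _ b => (E b (L₀ * phi2 b)).sup id + b + 1) i
    have hB0 : B 0 = n := rfl
    have hBs : ∀ i, B (i + 1) = (E (B i) (L₀ * phi2 (B i))).sup id + B i + 1 := fun i => rfl
    have hB : StrictMono B := strictMono_nat_of_lt_succ fun i => by rw [hBs]; omega
    let E' : ℕ → Finset ℕ := fun i => E (B i) (L₀ * phi2 (B i))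
    let ρ' : ℕ → ℕ → ℝ := fun i => ρ (B i) (L₀ * phi2 (B i))
    have hE' : ∀ i, ∀ q ∈ E' i, B i ≤ q ∧ q < B (i + 1) := by
      intro i q hq
      refine ⟨hE _ _ q hq, ?_⟩
      rw [hBs]
      have : q ≤ (E' i).sup id := Finset.le_sup (f := id) hq
      have h3 : (E' i).sup id = (E (B i) (L₀ * phi2 (B i))).sup id := rfl
      omega
    have hsub : ∀ i ∈ range m, E' i ⊆ (range m).biUnion E' := fun i hi =>
      Finset.subset_biUnion_of_mem E' hi
    have hswap : ∀ u : ℕ → ℝ, ∑ q ∈ (range m).biUnion E', ((∑ i ∈ range m, ρ' i q) / m) * u q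
        = (∑ i ∈ range m, ∑ q ∈ E' i, ρ' i q * u q) / m := by
      intro u
      have e1 : ∀ i ∈ range m, ∑ q ∈ E' i, ρ' i q * u q
          = ∑ q ∈ (range m).biUnion E', ρ' i q * u q := by
        intro i hi
        refine Finset.sum_subset (hsub i hi) fun q _ hq => ?_
        have : ρ' i q = 0 := hz _ _ q hq
        rw [this, zero_mul]
      rw [Finset.sum_congr rfl e1, Finset.sum_comm, Finset.sum_div]
      refine Finset.sum_congr rfl fun q _ => ?_
      rw [← Finset.sum_mul]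
      ring
    refine ⟨(range m).biUnion E', fun q => (∑ i ∈ range m, ρ' i q) / m, ?_, ?_, ?_, ?_, ?_⟩
    · intro q hq
      obtain ⟨i, _, hi⟩ := Finset.mem_biUnion.1 hq
      have h2 : B 0 ≤ B i := hB.monotone (Nat.zero_le i)
      have := (hE' i q hi).1
      omega
    · intro q
      exact div_nonneg (Finset.sum_nonneg fun i _ => h0 _ _ q) hm0.le
    · intro q hq
      have : ∑ i ∈ range m, ρ' i q = 0 := Finset.sum_eq_zero fun i hi =>
        hz _ _ q fun h => hq (Finset.mem_biUnion.2 ⟨i, hi, h⟩)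
      simp only [this, zero_div]
    · have := hswap fun _ => 1
      simp only [mul_one] at this
      rw [this]
      have e3 : ∑ i ∈ range m, ∑ q ∈ E' i, ρ' i q = m := by
        rw [Finset.sum_congr rfl fun i _ => h1 (B i) (L₀ * phi2 (B i))]
        simp
      rw [e3, div_self hm0.ne']
    · intro L hL a ha u hu
      rw [hswap u]
      have hmain := spread_step (m := m) (b := ε + (1 / 2) ^ k) hB (E := E') (ρ := ρ') hE'
        (fun i q => h0 _ _ q) (fun i => h1 _ _)
        (fun i => fun L hL a ha u hu => hsp (B i) (L₀ * phi2 (B i)) L hL a ha u hu)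
        (by positivity) hL a ha u
        (fun i hi q hq => hu q (Finset.mem_biUnion.2 ⟨i, Finset.mem_range.2 hi, hq⟩))
      calc (∑ i ∈ range m, ∑ q ∈ E' i, ρ' i q * u q) / m
          ≤ (L₀ + m * ((ε + (1 / 2) ^ k) / 2)) / m := div_le_div_of_nonneg_right hmain hm0.le
        _ = L₀ / m + (ε + (1 / 2) ^ k) / 2 := by field_simp
        _ ≤ ε / 2 + (ε + (1 / 2) ^ k) / 2 := by linarith
        _ = ε + (1 / 2) ^ (k + 1) := by ring

end Pool.Agent.MP_1b7159_an
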